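import Pool.Agent.Lib.MP_464db4_gt.TR.GeoF
import Pool.Agent.Lib.MP_464db4_gt.YT.AvgB

/-!
# TR-Pb: the forms translated along the fibres

`pbt T v g = (tr v)^* g`; naturality of closedness under holomorphic maps.
-/

namespace TRed

open Complex Matrix MeasureTheory YT
open scoped ContDiff ComplexConjugate ComplexOrder

variable {ι κ : Type} [Fintype ι] [DecidableEq ι] [Fintype κ] [DecidableEq κ] {G : Type} [Group G] {D : Set (ι → ℂ)} {f : G → (ι → ℂ) → (ι → ℂ)} {T : TorusFamily κ D f}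
  {S : Set ((ι ⊕ κ → ℂ) → (ι ⊕ κ → ℂ))} {g : (ι ⊕ κ → ℂ) → Matrix (ι ⊕ κ) (ι ⊕ κ) ℂ}

/-- The pull-back of `g` under `tr v`. -/
noncomputable def pbt (T : TorusFamily κ D f) (v : κ → ℂ) (g : (ι ⊕ κ → ℂ) → Matrix (ι ⊕ κ) (ι ⊕ κ) ℂ) (x : ι ⊕ κ → ℂ) :
    Matrix (ι ⊕ κ) (ι ⊕ κ) ℂ :=
  (trJ T (bas x) v)ᵀ * g (T.tr v x) * mconj (trJ T (bas x) v)

theorem Pb_mconj_mul {ν : Type} [Fintype ν] (M N : Matrix ν ν ℂ) : mconj (M * N) = mconj M * mconj N := by
  unfold mconj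
  exact Matrix.map_mul

theorem Pb_mconj_one {ν : Type} [Fintype ν] [DecidableEq ν] : mconj (1 : Matrix ν ν ℂ) = 1 := by
  unfold mconj
  exact Matrix.map_one _ (map_zero _) (map_one _)

theorem pbt_zero (x : ι ⊕ κ → ℂ) : pbt T 0 g x = g x := by
  unfold pbt
  rw [trJ_zero, tr_zero, Matrix.transpose_one, Pb_mconj_one, Matrix.one_mul, Matrix.mul_one]

theorem pbt_pbt (hD : IsOpen D) (v w : κ → ℂ) {x : ι ⊕ κ → ℂ} (hx : x ∈ tot κ D) : pbt T v (pbt T w g) x = pbt T (v + w) g x := by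
  unfold pbt
  rw [tr_tr, bas_tr, add_comm v w, ← trJ_mul T hD (b := bas x) hx w v, Matrix.transpose_mul, Pb_mconj_mul]
  simp only [Matrix.mul_assoc]

private theorem Pb_entry (v : κ → ℂ) (x : ι ⊕ κ → ℂ) (i j : ι ⊕ κ) :
    pbt T v g x i j = ∑ k, ∑ l, trJ T (bas x) v k i * g (T.tr v x) k l * conj (trJ T (bas x) v l j) := by
  unfold pbt
  exact conj_entry (trJ T (bas x) v) (g (T.tr v x)) i j

private theorem Pb_trJ_joint (hD : IsOpen D) (i j : ι ⊕ κ) :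
    ContDiffOn ℝ ∞ (fun q : (ι ⊕ κ → ℂ) × (κ → ℂ) => trJ T (bas q.1) q.2 i j) (tot κ D ×ˢ Set.univ) := by
  rcases i with i | i <;> rcases j with j | j
  · exact contDiffOn_const
  · exact contDiffOn_const
  · exact dper_joint T hD i j
  · exact contDiffOn_const

theorem pbt_joint (hD : IsOpen D) (hg : IsKahler (tot κ D) S g) (i j : ι ⊕ κ) :
    ContDiffOn ℝ ∞ (fun q : (ι ⊕ κ → ℂ) × (κ → ℂ) => pbt T q.2 g q.1 i j) (tot κ D ×ˢ Set.univ) := by
  simp only [Pb_entry]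
  refine ContDiffOn.sum fun k _ => ContDiffOn.sum fun l _ => ?_
  have h2 : ContDiffOn ℝ ∞ (fun q : (ι ⊕ κ → ℂ) × (κ → ℂ) => g (T.tr q.2 q.1) k l)
      (tot κ D ×ˢ Set.univ) :=
    (hg.smooth k l).comp (tr_joint T hD) fun q hq => tr_mem T q.2 hq.1
  have h3 : ContDiffOn ℝ ∞ (fun q : (ι ⊕ κ → ℂ) × (κ → ℂ) => conj (trJ T (bas q.1) q.2 l j))
      (tot κ D ×ˢ Set.univ) :=
    Complex.conjCLE.contDiff.comp_contDiffOn (Pb_trJ_joint hD l j)
  exact ((Pb_trJ_joint hD k i).mul h2).mul h3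

/-- the Wirtinger derivative of an entry of the pulled back form -/
private theorem Pb_dz {ν : Type} [Fintype ν] [DecidableEq ν] {U : Set (ν → ℂ)} {G : (ν → ℂ) → Matrix ν ν ℂ} (hU : IsOpen U)
    {F : (ν → ℂ) → (ν → ℂ)} (hF : DifferentiableOn ℂ F U) (hFU : ∀ x ∈ U, F x ∈ U)
    (hs : ∀ i j, ContDiffOn ℝ ∞ (fun x => G x i j) U) {x : ν → ℂ} (hx : x ∈ U) (i j m : ν) :
    dz m (fun y => ((jac F y)ᵀ * G (F y) * mconj (jac F y)) i j) x =
      ∑ k, ∑ l, (dz m (fun y => jac F y k i) x * G (F x) k l * conj (jac F x l j) +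
        jac F x k i * (∑ n, dz n (fun y => G y k l) (F x) * jac F x n m) * conj (jac F x l j)) := by
  have hFx : DifferentiableAt ℂ F x := (hF x hx).differentiableAt (hU.mem_nhds hx)
  have hd1 : ∀ k l, DifferentiableAt ℝ (fun w => G w k l) (F x) := fun k l =>
    ((hs k l).contDiffAt (hU.mem_nhds (hFU x hx))).differentiableAt (by simp)
  have hd2 : ∀ k l, DifferentiableAt ℝ (fun y => G (F y) k l) x := fun k l =>
    (hd1 k l).comp x (hFx.restrictScalars ℝ)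
  have hd4 : ∀ k i, DifferentiableAt ℂ (fun y => jac F y k i) x := fun k i =>
    ((jac_hol hU hF k i) x hx).differentiableAt (hU.mem_nhds hx)
  have hd3 : ∀ k i, DifferentiableAt ℝ (fun y => jac F y k i) x := fun k i => (hd4 k i).restrictScalars ℝ
  have hd5 : ∀ l j, DifferentiableAt ℝ (fun y => conj (jac F y l j)) x := fun l j =>
    Complex.conjCLE.differentiableAt.comp x (hd3 l j)
  have hterm : ∀ k l, DifferentiableAt ℝ (fun y => jac F y k i * G (F y) k l * conj (jac F y l j)) x := fun k l =>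
    ((hd3 k i).mul (hd2 k l)).mul (hd5 l j)
  have e : (fun y => ((jac F y)ᵀ * G (F y) * mconj (jac F y)) i j) =
      fun y => ∑ k, ∑ l, jac F y k i * G (F y) k l * conj (jac F y l j) := by
    funext y
    exact conj_entry (jac F y) (G (F y)) i j
  rw [e, dz_sum Finset.univ (fun k y => ∑ l, jac F y k i * G (F y) k l * conj (jac F y l j)) m
    (fun k _ => DifferentiableAt.fun_sum fun l _ => hterm k l)]
  refine Finset.sum_congr rfl fun k _ => ?_
  rw [dz_sum Finset.univ (fun l y => jac F y k i * G (F y) k l * conj (jac F y l j)) m (fun l _ => hterm k l)]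
  refine Finset.sum_congr rfl fun l _ => ?_
  have hp : DifferentiableAt ℝ (fun y => jac F y k i * G (F y) k l) x := (hd3 k i).mul (hd2 k l)
  rw [dz_mul m (f := fun y => jac F y k i * G (F y) k l) (h := fun y => conj (jac F y l j)) hp (hd5 l j),
    dz_mul m (f := fun y => jac F y k i) (h := fun y => G (F y) k l) (hd3 k i) (hd2 k l),
    dz_comp (f := fun y => G y k l) hFx (hd1 k l) m, dz_conj m (fun y => jac F y l j) x, dzbar_hol m (hd4 l j)]
  rw [map_zero, mul_zero, add_zero, add_mul]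

private theorem Pb_closed {ν : Type} [Fintype ν] [DecidableEq ν] {U : Set (ν → ℂ)} {G : (ν → ℂ) → Matrix ν ν ℂ} (hU : IsOpen U)
    {F : (ν → ℂ) → (ν → ℂ)} (hF : DifferentiableOn ℂ F U) (hFU : ∀ x ∈ U, F x ∈ U)
    (hs : ∀ i j, ContDiffOn ℝ ∞ (fun x => G x i j) U)
    (hc : ∀ x ∈ U, ∀ i j k, dz k (fun y => G y i j) x = dz i (fun y => G y k j) x) {x : ν → ℂ} (hx : x ∈ U) (i j m : ν) :
    dz m (fun y => ((jac F y)ᵀ * G (F y) * mconj (jac F y)) i j) x =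
      dz i (fun y => ((jac F y)ᵀ * G (F y) * mconj (jac F y)) m j) x := by
  have hFs : ContDiffOn ℝ ∞ F U := hol_contDiffOn hU hF
  have hFk : ∀ k, ContDiffOn ℝ ∞ (fun y => F y k) U := fun k => contDiffOn_pi.1 hFs k
  rw [Pb_dz hU hF hFU hs hx, Pb_dz hU hF hFU hs hx]
  simp only [Finset.sum_add_distrib]
  congr 1
  · refine Finset.sum_congr rfl fun k _ => Finset.sum_congr rfl fun l _ => ?_
    congr 2
    exact dz_dz_comm hU (hFk k) hx m i
  · rw [Finset.sum_comm]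
    conv_rhs => rw [Finset.sum_comm]
    refine Finset.sum_congr rfl fun l _ => ?_
    simp only [Finset.mul_sum, Finset.sum_mul]
    rw [Finset.sum_comm]
    refine Finset.sum_congr rfl fun n _ => Finset.sum_congr rfl fun k _ => ?_
    rw [hc (F x) (hFU x hx) k l n]
    ring

theorem pbt_isKahler (hD : IsOpen D) (hg : IsKahler (tot κ D) S g) (v : κ → ℂ) : IsKahler (tot κ D) ∅ (pbt T v g) := by
  have hU : IsOpen (tot κ D) := isOpen_tot hD
  refine ⟨fun i j => ?_, fun x hx => ?_, fun x hx i j m => ?_, fun F hF => hF.elim⟩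
  · have h1 : ContDiff ℝ ∞ (fun x : ι ⊕ κ → ℂ => (x, v)) := contDiff_id.prodMk contDiff_const
    have h2 : ContDiffOn ℝ ∞ ((fun q : (ι ⊕ κ → ℂ) × (κ → ℂ) => pbt T q.2 g q.1 i j) ∘
        fun x : ι ⊕ κ → ℂ => (x, v)) (tot κ D) :=
      ContDiffOn.comp (pbt_joint hD hg i j) h1.contDiffOn fun x hx => Set.mk_mem_prod hx (Set.mem_univ v)
    exact h2
  · have h1 := hg.pos (T.tr v x) (tr_mem T v hx)
    have h2 : (mconj (trJ T (bas x) v))ᴴ = (trJ T (bas x) v)ᵀ := by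
      ext a b
      rw [Matrix.conjTranspose_apply, Matrix.transpose_apply]
      exact Complex.conj_conj _
    have h3 : Function.Injective (mconj (trJ T (bas x) v)).mulVec := by
      intro a b hab
      have h4 : ∀ c, mconj (trJ T (bas x) (-v)) *ᵥ (mconj (trJ T (bas x) v) *ᵥ c) = c := by
        intro c
        rw [Matrix.mulVec_mulVec, ← Pb_mconj_mul, trJ_mul T hD (b := bas x) hx, neg_add_cancel, trJ_zero, Pb_mconj_one,
          Matrix.one_mulVec]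
      rw [← h4 a, ← h4 b]
      exact congrArg _ hab
    have h5 := h1.conjTranspose_mul_mul_same h3
    rw [h2] at h5
    exact h5
  · have h1 : ∀ i j : ι ⊕ κ, ∀ y ∈ tot κ D, pbt T v g y i j =
        ((jac (T.tr v) y)ᵀ * g (T.tr v y) * mconj (jac (T.tr v) y)) i j := by
      intro i j y hy
      rw [jac_tr T hD v hy]
      rfl
    rw [dz_congr_on hU (h1 i j) hx, dz_congr_on hU (h1 m j) hx]
    exact Pb_closed hU (tr_hol T v) (fun y hy => tr_mem T v hy) hg.smooth hg.closed hx i j m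

private theorem Pb_inv (hD : IsOpen D) (hg : IsKahler (tot κ D) T.total g) {v : κ → ℂ} (hv : v ∈ T.Λ) {x : ι ⊕ κ → ℂ}
    (hx : x ∈ tot κ D) : pbt T v g x = g x := by
  have h1 := hg.inv (T.tr v) (Or.inr ⟨v, hv, rfl⟩) x hx
  rw [jac_tr T hD v hx] at h1
  exact h1

theorem pbt_period (hD : IsOpen D) (hg : IsKahler (tot κ D) T.total g) {v : κ → ℂ} (w : κ → ℂ) (hv : v ∈ T.Λ) {x : ι ⊕ κ → ℂ}
    (hx : x ∈ tot κ D) : pbt T (w + v) g x = pbt T w g x := by
  rw [← pbt_pbt hD w v hx]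
  have h1 := Pb_inv hD hg hv (tr_mem T w hx)
  show (trJ T (bas x) w)ᵀ * pbt T v g (T.tr w x) * mconj (trJ T (bas x) w) = _
  rw [h1]
  rfl

theorem pbt_F (hB : CompactBase D f) (hg : IsKahler (tot κ D) T.total g) (γ : G) (v : κ → ℂ) {x : ι ⊕ κ → ℂ} (hx : x ∈ tot κ D) :
    (jac (T.F γ) x)ᵀ * pbt T (T.ρ γ v) g (T.F γ x) * mconj (jac (T.F γ) x) = pbt T v g x := by
  have h1 := hg.inv (T.F γ) (Or.inl ⟨γ, rfl⟩) (T.tr v x) (tr_mem T v hx)
  have h2 := jac_F_tr T hB γ v hx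
  have h3 := F_tr T γ v hx
  obtain ⟨J, hJ⟩ : ∃ J, J = jac (T.F γ) x := ⟨_, rfl⟩
  obtain ⟨J', hJ'⟩ : ∃ J', J' = jac (T.F γ) (T.tr v x) := ⟨_, rfl⟩
  obtain ⟨A, hA⟩ : ∃ A, A = trJ T (bas x) v := ⟨_, rfl⟩
  obtain ⟨B, hBm⟩ : ∃ B, B = trJ T (bas (T.F γ x)) (T.ρ γ v) := ⟨_, rfl⟩
  have h4 : mconj J' * mconj A = mconj B * mconj J := by
    rw [← Pb_mconj_mul, ← Pb_mconj_mul, hJ', hA, hBm, hJ, h2]
  have h7 : Aᵀ * J'ᵀ = Jᵀ * Bᵀ := by
    rw [← Matrix.transpose_mul, ← Matrix.transpose_mul, hJ', hA, hBm, hJ, h2]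
  unfold pbt
  rw [← h1, ← h3, ← hJ, ← hJ', ← hA, ← hBm]
  calc Jᵀ * (Bᵀ * g (T.F γ (T.tr v x)) * mconj B) * mconj J
      = (Jᵀ * Bᵀ) * g (T.F γ (T.tr v x)) * (mconj B * mconj J) := by
        simp only [Matrix.mul_assoc]
    _ = (Aᵀ * J'ᵀ) * g (T.F γ (T.tr v x)) * (mconj J' * mconj A) := by
        rw [← h7, ← h4]
    _ = _ := by
        simp only [Matrix.mul_assoc]

end TRed
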