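import Pool.Agent.Lib.MP_464db4_gt.TR.EpsS
import Pool.Agent.Lib.MP_464db4_gt.TR.One

/-!
# TR-AvgP: the fibrewise average of a primitive
-/

namespace TRed

open Complex Matrix MeasureTheory YT
open scoped ContDiff ComplexConjugate ComplexOrder

variable {ι κ : Type} [Fintype ι] [DecidableEq ι] [Fintype κ] [DecidableEq κ] {G : Type} [Group G] {D : Set (ι → ℂ)}
  {f : G → (ι → ℂ) → (ι → ℂ)} {T : TorusFamily κ D f} {gm g' : (ι ⊕ κ → ℂ) → Matrix (ι ⊕ κ) (ι ⊕ κ) ℂ} {e : (ι ⊕ κ → ℂ) → (ι ⊕ κ → ℂ)}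
  {μ : Measure (κ → ℂ)}

private theorem avgP_per (hD : IsOpen D) (he : IsPrimitive (tot κ D) T.total gm g' e) : IsPer T e := by
  refine ⟨he.smooth, fun v hv x hx => ?_⟩
  funext i
  have h := he.inv (T.tr v) (Or.inr ⟨v, hv, rfl⟩) x hx i
  rw [jac_tr T hD v hx] at h
  exact h

/-- The translated primitive is a primitive of the same forms. -/
private theorem avgP_prim (hD : IsOpen D) (hf : FibreFlat T gm) (hf' : FibreFlat T g') (he : IsPrimitive (tot κ D) T.total gm g' e) (v : κ → ℂ) :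
    IsPrimitive (tot κ D) ∅ gm g' (fun x i => ∑ k, e (T.tr v x) k * jac (T.tr v) x k i) := by
  have h := he.comp (isOpen_tot hD) (tr_hol T v) (fun x hx => tr_mem T v hx)
  exact h.congr (isOpen_tot hD) (fun x hx => (hf v x hx).symm) (fun x hx => (hf' v x hx).symm)

private theorem avgP_prim' (hD : IsOpen D) (hf : FibreFlat T gm) (hf' : FibreFlat T g') (he : IsPrimitive (tot κ D) T.total gm g' e) (v : κ → ℂ)
    {x : ι ⊕ κ → ℂ} (hx : x ∈ tot κ D) (i j : ι ⊕ κ) :
    dz i (fun y => pbt1 T v e y j) x = dz j (fun y => pbt1 T v e y i) x ∧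
      g' x i j - gm x i j = -I * (dz i (fun y => conj (pbt1 T v e y j)) x - dzbar j (fun y => pbt1 T v e y i) x) := by
  have h := avgP_prim hD hf hf' he v
  have e1 : ∀ i, ∀ y ∈ tot κ D, (∑ k, e (T.tr v y) k * jac (T.tr v) y k i) = pbt1 T v e y i := by
    intro i y hy
    rw [jac_tr T hD v hy]
    rfl
  have hU : IsOpen (tot κ D) := isOpen_tot hD
  constructor
  · rw [← dz_congr_on hU (e1 j) hx i, ← dz_congr_on hU (e1 i) hx j]
    exact h.sym x hx i j
  · rw [← dz_congr_on hU (fun y hy => congrArg (starRingEnd ℂ) (e1 j y hy)) hx i, ← dzbar_congr_on hU (e1 i) hx j]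
    exact h.eq x hx i j

/-- Two cohomologous flat forms have a flat primitive of their difference. -/
theorem exists_flat_prim (hB : CompactBase D f) (hf : FibreFlat T gm) (hf' : FibreFlat T g') (he : IsPrimitive (tot κ D) T.total gm g' e) :
    ∃ e', IsPrimitive (tot κ D) T.total gm g' e' ∧ Flat1 T e' := by
  have hD := hB.isOpen
  have hU : IsOpen (tot κ D) := isOpen_tot hD
  obtain ⟨μ, hμ⟩ := exists_isMean T.Λ T.disc T.span
  have hprob := hμ.prob
  obtain ⟨K, hK, hae⟩ := hμ.exists_compact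
  have hp := avgP_per hD he
  have hj : ∀ i, ContDiffOn ℝ ∞ (fun q : (ι ⊕ κ → ℂ) × (κ → ℂ) => pbt1 T q.2 e q.1 i) (tot κ D ×ˢ Set.univ) := pbt1_joint hD he.smooth
  have hjc : ∀ i, ContDiffOn ℝ ∞ (fun q : (ι ⊕ κ → ℂ) × (κ → ℂ) => conj (pbt1 T q.2 e q.1 i)) (tot κ D ×ˢ Set.univ) := fun i =>
    Complex.conjCLE.contDiff.comp_contDiffOn (hj i)
  have hc : ∀ y i, conj (kavg1 T μ e y i) = ∫ v, conj (pbt1 T v e y i) ∂μ := by
    intro y i
    exact integral_conj.symm
  refine ⟨kavg1 T μ e, ⟨fun i => ?_, ?_, fun x hx i j => ?_, fun x hx i j => ?_⟩, fun w x hx i => ?_⟩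
  · exact par_smooth hU hK hae (hj i)
  · rintro F (⟨γ, rfl⟩ | ⟨v, hv, rfl⟩) x hx i
    · have h1 := congrFun (kavg1_F hB hμ hp γ hx) i
      have h2 : kavg1 T μ (pbF1 T γ e) x i = kavg1 T μ e x i := by
        show ∫ v, pbt1 T v (pbF1 T γ e) x i ∂μ = ∫ v, pbt1 T v e x i ∂μ
        congr 1
        funext v
        show ∑ k, pbF1 T γ e (T.tr v x) k * trJ T (bas x) v k i = ∑ k, e (T.tr v x) k * trJ T (bas x) v k i
        refine Finset.sum_congr rfl fun k _ => ?_
        congr 1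
        exact he.inv (T.F γ) (Or.inl ⟨γ, rfl⟩) _ (tr_mem T v hx) k
      exact (h1.symm.trans h2)
    · rw [jac_tr T hD v hx]
      exact congrFun (kavg1_tr hD hμ hp v hx) i
  · refine (par_dz hU hK hae (hj j) hx i).trans (Eq.trans ?_ (par_dz hU hK hae (hj i) hx j).symm)
    congr 1
    funext v
    exact (avgP_prim' hD hf hf' he v hx i j).1
  · have h1 : dz i (fun y => conj (kavg1 T μ e y j)) x = ∫ v, dz i (fun y => conj (pbt1 T v e y j)) x ∂μ := by
      have e1 : (fun y => conj (kavg1 T μ e y j)) = fun y => ∫ v, conj (pbt1 T v e y j) ∂μ := funext fun y => hc y j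
      rw [e1]
      exact par_dz hU hK hae (hjc j) hx i
    have h2 : dzbar j (fun y => kavg1 T μ e y i) x = ∫ v, dzbar j (fun y => pbt1 T v e y i) x ∂μ :=
      par_dzbar hU hK hae (hj i) hx j
    have i1 : Integrable (fun v => dz i (fun y => conj (pbt1 T v e y j)) x) μ :=
      par_integrable hU hK hae (par_dz_joint hU (hjc j) i) hx
    have i2 : Integrable (fun v => dzbar j (fun y => pbt1 T v e y i) x) μ :=
      par_integrable hU hK hae (par_dzbar_joint hU (hj i) j) hx
    rw [h1, h2, ← integral_sub i1 i2, ← integral_const_mul]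
    have h3 : ∀ v, -I * (dz i (fun y => conj (pbt1 T v e y j)) x - dzbar j (fun y => pbt1 T v e y i) x) = g' x i j - gm x i j := fun v =>
      (avgP_prim' hD hf hf' he v hx i j).2.symm
    simp only [h3, integral_const, probReal_univ, one_smul]
  · rw [jac_tr T hD w hx]
    exact congrFun (kavg1_tr hD hμ hp w hx) i

end TRed
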