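import Pool.Agent.Lib.MP_464db4_gt.YT.WirtB

/-!
# TR-Coh: cohomologous forms: symmetry and transitivity
-/

namespace TRed

open Complex Matrix MeasureTheory YT
open scoped ContDiff ComplexConjugate ComplexOrder

variable {ι : Type} [Fintype ι] [DecidableEq ι] {U : Set (ι → ℂ)} {S : Set ((ι → ℂ) → (ι → ℂ))} {g₁ g₂ g₃ : (ι → ℂ) → Matrix ι ι ℂ}

private theorem Bas_dz_neg (i : ι) (f : (ι → ℂ) → ℂ) (x : ι → ℂ) : dz i (fun y => -f y) x = -dz i f x := by
  unfold dz
  rw [fderiv_fun_neg]
  simp only [_root_.neg_apply]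
  ring

private theorem Bas_dzbar_neg (i : ι) (f : (ι → ℂ) → ℂ) (x : ι → ℂ) : dzbar i (fun y => -f y) x = -dzbar i f x := by
  unfold dzbar
  rw [fderiv_fun_neg]
  simp only [_root_.neg_apply]
  ring

omit [DecidableEq ι] in
private theorem Bas_diff {f : (ι → ℂ) → ℂ} (hU : IsOpen U) (hf : ContDiffOn ℝ ∞ f U) {x : ι → ℂ} (hx : x ∈ U) :
    DifferentiableAt ℝ f x :=
  (hf.contDiffAt (hU.mem_nhds hx)).differentiableAt (by simp)

theorem coh_symm (hU : IsOpen U) (h : Cohomologous U S g₁ g₂) : Cohomologous U S g₂ g₁ := by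
  obtain ⟨e, he⟩ := h
  refine ⟨fun x i => -e x i, fun i => (he.smooth i).neg, ?_, ?_, ?_⟩
  · intro F hF x hx i
    simp only [neg_mul, Finset.sum_neg_distrib]
    rw [he.inv F hF x hx i]
  · intro x hx i j
    rw [Bas_dz_neg, Bas_dz_neg, he.sym x hx i j]
  · intro x hx i j
    have h1 := he.eq x hx i j
    have h2 : dz i (fun y => conj (-e y j)) x = -dz i (fun y => conj (e y j)) x := by
      rw [← Bas_dz_neg]
      simp only [map_neg]
    rw [h2, Bas_dzbar_neg]
    linear_combination -h1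

theorem coh_trans (hU : IsOpen U) (h : Cohomologous U S g₁ g₂) (h' : Cohomologous U S g₂ g₃) : Cohomologous U S g₁ g₃ := by
  obtain ⟨e, he⟩ := h
  obtain ⟨e', he'⟩ := h'
  refine ⟨fun x i => e x i + e' x i, fun i => (he.smooth i).add (he'.smooth i), ?_, ?_, ?_⟩
  · intro F hF x hx i
    simp only [add_mul, Finset.sum_add_distrib]
    rw [he.inv F hF x hx i, he'.inv F hF x hx i]
  · intro x hx i j
    rw [dz_add i (Bas_diff hU (he.smooth j) hx) (Bas_diff hU (he'.smooth j) hx),
      dz_add j (Bas_diff hU (he.smooth i) hx) (Bas_diff hU (he'.smooth i) hx), he.sym x hx i j, he'.sym x hx i j]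
  · intro x hx i j
    have h1 := he.eq x hx i j
    have h1' := he'.eq x hx i j
    have h2 : dz i (fun y => conj (e y j + e' y j)) x =
        dz i (fun y => conj (e y j)) x + dz i (fun y => conj (e' y j)) x := by
      rw [← dz_add i (Bas_diff hU (conj_contDiffOn (he.smooth j)) hx)
        (Bas_diff hU (conj_contDiffOn (he'.smooth j)) hx)]
      simp only [map_add]
    rw [h2, dzbar_add j (Bas_diff hU (he.smooth i) hx) (Bas_diff hU (he'.smooth i) hx)]
    linear_combination h1 + h1'

end TRed
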