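import Pool.Agent.Lib.MP_464db4_gt.TR.SchA

/-!
# TR-SchB: the Schur complement is a Kaehler form on the base

Smooth: `Matrix.mul_apply`, sums and products of smooth functions (`inv_smoothR`).  Positive: `schur_posDef`, `eq_fromBlocks` (YT-SchA) at `pt b 0`.  Closed: TR-SchA.
Invariance: `x = pt b 0`, `J = jac (T.F γ) x = fromBlocks (jac (f γ) b) 0 C A` with `C`, `A` the lower blocks (`jac_F_blk`), `Jᵀ gm (F x) J̄ = gm x` (`hg.inv`), both sides as
`fromBlocks P Q Qᴴ (hv gm (bas ·))` (`eq_fromBlocks`, `flat_h`: the vertical block of `gm (F x)` is `hv gm (f γ b)`); the analogue of `schur_cov` with two different vertical blocks `h'`, `h`,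
`Aᵀ h' Ā = h` (`schur_cov2`), and `sch_at` at the point `F x`.
-/

namespace TRed

open Complex Matrix MeasureTheory YT
open scoped ContDiff ComplexConjugate ComplexOrder

variable {ι κ : Type} [Fintype ι] [DecidableEq ι] [Fintype κ] [DecidableEq κ] {G : Type} [Group G] {D : Set (ι → ℂ)}
  {f : G → (ι → ℂ) → (ι → ℂ)} {T : TorusFamily κ D f} {gm : (ι ⊕ κ → ℂ) → Matrix (ι ⊕ κ) (ι ⊕ κ) ℂ} {S : Set ((ι ⊕ κ → ℂ) → (ι ⊕ κ → ℂ))} {b : ι → ℂ}

/-- Schur complements and block triangular changes of coordinates. -/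
theorem schur_cov2 {P P' a : Matrix ι ι ℂ} {Q Q' : Matrix ι κ ℂ} {h h' A : Matrix κ κ ℂ} {t : Matrix κ ι ℂ} (hh : h.PosDef) (hh' : h'.PosDef)
    (hJ : (fromBlocks a 0 t A)ᵀ * fromBlocks P' Q' Q'ᴴ h' * mconj (fromBlocks a 0 t A) = fromBlocks P Q Qᴴ h) :
    aᵀ * (P' - Q' * h'⁻¹ * Q'ᴴ) * mconj a = P - Q * h⁻¹ * Qᴴ := by
  have hh2 : h⁻¹ * h = 1 := nonsing_inv_mul h ((isUnit_iff_isUnit_det h).1 hh.isUnit)
  have hu : IsUnit h'.det := (isUnit_iff_isUnit_det h').1 hh'.isUnit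
  have hh1' : h' * h'⁻¹ = 1 := mul_nonsing_inv h' hu
  have hh2' : h'⁻¹ * h' = 1 := nonsing_inv_mul h' hu
  have hm : mconj (fromBlocks a 0 t A) = fromBlocks (mconj a) 0 (mconj t) (mconj A) := by
    unfold mconj
    rw [fromBlocks_map]
    congr 1
    ext i j
    simp
  rw [hm, fromBlocks_transpose, transpose_zero, fromBlocks_multiply, fromBlocks_multiply,
    fromBlocks_inj] at hJ
  obtain ⟨hP, hQ, hQ', hA⟩ := hJ
  simp only [Matrix.zero_mul, Matrix.mul_zero, zero_add] at hP hQ hQ' hA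
  have e0 : h⁻¹ * Aᵀ * h' * mconj A = 1 := by
    have : h⁻¹ * (Aᵀ * h' * mconj A) = 1 := by rw [hA, hh2]
    rw [← this]
    simp only [Matrix.mul_assoc]
  have e1 : mconj A * (h⁻¹ * Aᵀ * h') = 1 := mul_eq_one_comm.1 e0
  have e2 : mconj A * h⁻¹ * Aᵀ = h'⁻¹ := by
    calc mconj A * h⁻¹ * Aᵀ = mconj A * h⁻¹ * Aᵀ * (h' * h'⁻¹) := by rw [hh1', Matrix.mul_one]
      _ = mconj A * (h⁻¹ * Aᵀ * h') * h'⁻¹ := by simp only [Matrix.mul_assoc]
      _ = h'⁻¹ := by rw [e1, Matrix.one_mul]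
  have e3 : Q * h⁻¹ * Qᴴ =
      (aᵀ * Q' + tᵀ * h') * h'⁻¹ * (Q'ᴴ * mconj a + h' * mconj t) := by
    have hQ2 : Qᴴ = Aᵀ * (Q'ᴴ * mconj a + h' * mconj t) := by
      rw [← hQ', Matrix.mul_add]
      simp only [Matrix.mul_assoc]
    rw [hQ2, ← hQ]
    calc (aᵀ * Q' + tᵀ * h') * mconj A * h⁻¹ * (Aᵀ * (Q'ᴴ * mconj a + h' * mconj t))
        = (aᵀ * Q' + tᵀ * h') * (mconj A * h⁻¹ * Aᵀ) * (Q'ᴴ * mconj a + h' * mconj t) := by
          simp only [Matrix.mul_assoc]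
      _ = _ := by rw [e2]
  have e4 : (aᵀ * Q' + tᵀ * h') * h'⁻¹ * (Q'ᴴ * mconj a + h' * mconj t) =
      aᵀ * Q' * h'⁻¹ * Q'ᴴ * mconj a + aᵀ * Q' * mconj t + tᵀ * Q'ᴴ * mconj a + tᵀ * h' * mconj t := by
    have f1 : (aᵀ * Q' + tᵀ * h') * h'⁻¹ = aᵀ * Q' * h'⁻¹ + tᵀ := by
      rw [Matrix.add_mul, Matrix.mul_assoc tᵀ h' h'⁻¹, hh1', Matrix.mul_one]
    rw [f1, Matrix.add_mul, Matrix.mul_add, Matrix.mul_add]
    have f2 : aᵀ * Q' * h'⁻¹ * (h' * mconj t) = aᵀ * Q' * mconj t := by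
      rw [← Matrix.mul_assoc (aᵀ * Q' * h'⁻¹) h' (mconj t), Matrix.mul_assoc (aᵀ * Q') h'⁻¹ h', hh2',
        Matrix.mul_one]
    rw [f2]
    simp only [Matrix.mul_assoc]
    abel
  rw [e3, e4, ← hP]
  simp only [Matrix.mul_sub, Matrix.sub_mul, Matrix.add_mul, Matrix.mul_assoc]
  abel

/-- The Jacobian of `T.F γ`. -/
theorem jac_F_blk (hB : CompactBase D f) (T : TorusFamily κ D f) (γ : G) {x : ι ⊕ κ → ℂ} (hx : x ∈ tot κ D) :
    jac (T.F γ) x = fromBlocks (jac (f γ) (bas x)) 0 (jac (T.F γ) x).toBlocks₂₁ (jac (T.F γ) x).toBlocks₂₂ := by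
  have hxD : D ∈ nhds (bas x) := hB.isOpen.mem_nhds hx
  have hf : ∀ i, DifferentiableAt ℝ (fun b => f γ b i) (bas x) := fun i =>
    ((differentiableOn_pi.mp (hB.hol γ) i).differentiableAt hxD).restrictScalars ℝ
  ext k i
  rcases k with k | k
  · rcases i with i | i
    · rw [Matrix.fromBlocks_apply₁₁]
      exact dz_bas_inl (hf k) i
    · rw [Matrix.fromBlocks_apply₁₂]
      exact dz_bas_inr (hf k) i
  · rcases i with i | i
    · rw [Matrix.fromBlocks_apply₂₁]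
      rfl
    · rw [Matrix.fromBlocks_apply₂₂]
      rfl

private theorem sch_apply (gm : (ι ⊕ κ → ℂ) → Matrix (ι ⊕ κ) (ι ⊕ κ) ℂ) (b : ι → ℂ) (i j : ι) :
    sch gm b i j = pb gm b i j - ∑ m, ∑ l, qb gm b i l * (hv gm b)⁻¹ l m * conj (qb gm b j m) := by
  rw [sch_eq, Matrix.sub_apply, Matrix.mul_apply]
  congr 1
  refine Finset.sum_congr rfl fun m _ => ?_
  rw [Matrix.mul_apply, Finset.sum_mul]
  rfl

theorem sch_isKahler (hB : CompactBase D f) (hg : IsKahler (tot κ D) T.total gm) (hf : FibreFlat T gm) :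
    IsKahler D (Set.range f) (sch gm) := by
  have hD := hB.isOpen
  refine ⟨fun i j => ?_, fun b hb => ?_, fun b hb i j k => sch_closed hD hg hf hb i j k, ?_⟩
  · have key : ContDiffOn ℝ ∞ (fun b => pb gm b i j -
        ∑ m, ∑ l, qb gm b i l * (hv gm b)⁻¹ l m * conj (qb gm b j m)) D := by
      refine (pb_smooth hg i j).sub (ContDiffOn.sum fun m _ => ContDiffOn.sum fun l _ => ?_)
      exact ((qb_smooth hg i l).mul (inv_smoothR (hv_smoothR hg) (fun y hy => hv_posDefR hg hy) l m)).mul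
        (conj_contDiffOn (qb_smooth hg j m))
    exact key.congr fun b _ => sch_apply gm b i j
  · have hp := hg.pos _ (pt_mem_tot hb (0 : κ → ℂ))
    have e := eq_fromBlocks hp.isHermitian
    rw [e] at hp
    exact schur_posDef hp
  · rintro F ⟨γ, rfl⟩ b hb
    have hx : (pt b 0 : ι ⊕ κ → ℂ) ∈ tot κ D := pt_mem_tot hb 0
    have hby : bas (T.F γ (pt b 0)) = f γ b := by
      rw [bas_F, bas_pt]
    have hx' : T.F γ (pt b 0) ∈ tot κ D := by
      show bas (T.F γ (pt b 0)) ∈ D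
      rw [hby]
      exact hB.maps γ b hb
    have hi := hg.inv (T.F γ) (Or.inl ⟨γ, rfl⟩) _ hx
    have h22 : (gm (T.F γ (pt b 0))).toBlocks₂₂ = hv gm (f γ b) := by
      have h1 := flat_h hD hg hf (hB.maps γ b hb) (fib (T.F γ (pt b 0)))
      have h2 : (pt (f γ b) (fib (T.F γ (pt b 0))) : ι ⊕ κ → ℂ) = T.F γ (pt b 0) := by
        rw [← hby, pt_bas_fib]
      rw [h2] at h1
      exact h1
    rw [jac_F_blk hB T γ hx, bas_pt, eq_fromBlocks (hg.pos _ hx').isHermitian,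
      eq_fromBlocks (hg.pos _ hx).isHermitian, h22] at hi
    have h3 := schur_cov2 (hv_posDefR hg hb) (hv_posDefR hg (hB.maps γ b hb)) hi
    have h4 := sch_at hD hg hf hx'
    rw [hby] at h4
    rw [h4] at h3
    exact h3

end TRed
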