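import Pool.Agent.Lib.MP_464db4_gt.TR.EpsB
import Pool.Agent.Lib.MP_464db4_gt.TR.SchB

/-!
# TR-EpsC: invariance of the primitive on the base

The 1-form `epsR gm g' e` on the base is invariant under the maps `f γ`, and it is a primitive of the difference of the Schur complements.
-/

namespace TRed

open Complex Matrix MeasureTheory YT
open scoped ContDiff ComplexConjugate ComplexOrder

variable {ι κ : Type} [Fintype ι] [DecidableEq ι] [Fintype κ] [DecidableEq κ] {G : Type} [Group G] {D : Set (ι → ℂ)}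
  {f : G → (ι → ℂ) → (ι → ℂ)} {T : TorusFamily κ D f} {gm g' : (ι ⊕ κ → ℂ) → Matrix (ι ⊕ κ) (ι ⊕ κ) ℂ} {S : Set ((ι ⊕ κ → ℂ) → (ι ⊕ κ → ℂ))} {b : ι → ℂ}
  {e : (ι ⊕ κ → ℂ) → (ι ⊕ κ → ℂ)}

theorem epsR_smooth (hD : IsOpen D) (hg : IsKahler (tot κ D) S gm) (hg' : IsKahler (tot κ D) S g') (he : IsPrimitive (tot κ D) S gm g' e) (i : ι) :
    ContDiffOn ℝ ∞ (fun b => epsR gm g' e b i) D := by
  have e1 : (fun b => epsR gm g' e b i) = fun b => e (pt b 0) (Sum.inl i) -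
      ∑ m, (∑ l, (1 / 2 : ℂ) * (qb gm b i l + qb g' b i l) * (hv gm b)⁻¹ l m) * e (pt b 0) (Sum.inr m) := by
    funext b
    simp only [epsR, spv, sgm, qv, pv, Matrix.mul_apply, Matrix.of_apply, Matrix.smul_apply, Matrix.add_apply, smul_eq_mul]
  have hinv : ∀ k l, ContDiffOn ℝ ∞ (fun b => (hv gm b)⁻¹ k l) D :=
    inv_smoothR (fun k l => hv_smoothR hg k l) (fun y hy => hv_posDefR hg hy)
  rw [e1]
  refine (contDiffOn_pt (f := fun y => e y (Sum.inl i)) (he.smooth (Sum.inl i))).sub ?_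
  refine ContDiffOn.sum fun m _ => ?_
  refine ContDiffOn.mul ?_ (contDiffOn_pt (f := fun y => e y (Sum.inr m)) (he.smooth (Sum.inr m)))
  refine ContDiffOn.sum fun l _ => ?_
  exact (contDiffOn_const.mul ((qb_smooth hg i l).add (qb_smooth hg' i l))).mul (hinv l m)

/-- The algebra of the invariance. -/
theorem epsR_inv_alg {a : Matrix ι ι ℂ} {A h h' : Matrix κ κ ℂ} {C K : Matrix κ ι ℂ} {Q Q' : Matrix ι κ ℂ} {p p' : Matrix κ Unit ℂ} {q q' : Matrix ι Unit ℂ}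
    (hh : h.PosDef) (hh' : h'.PosDef) (h1 : Aᵀ * h' * mconj A = h) (h2 : (aᵀ * (Q' - Kᵀ * h') + Cᵀ * h') * mconj A = Q)
    (h3 : Aᵀ * p' = p) (h4 : aᵀ * (q' - Kᵀ * p') + Cᵀ * p' = q) :
    aᵀ * (q' - Q' * h'⁻¹ * p') = q - Q * h⁻¹ * p := by
  have u : h * h⁻¹ = 1 := mul_nonsing_inv h ((isUnit_iff_isUnit_det h).1 hh.isUnit)
  have u1 : h' * h'⁻¹ = 1 := mul_nonsing_inv h' ((isUnit_iff_isUnit_det h').1 hh'.isUnit)
  have u2 : h'⁻¹ * h' = 1 := nonsing_inv_mul h' ((isUnit_iff_isUnit_det h').1 hh'.isUnit)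
  have e1 : Aᵀ * (h' * mconj A * h⁻¹) = 1 := by
    rw [← Matrix.mul_assoc, ← Matrix.mul_assoc, h1, u]
  have e2 : (h' * mconj A * h⁻¹) * Aᵀ = 1 := mul_eq_one_comm.1 e1
  have e3 : mconj A * h⁻¹ * Aᵀ = h'⁻¹ := by
    calc mconj A * h⁻¹ * Aᵀ = (h'⁻¹ * h') * (mconj A * h⁻¹ * Aᵀ) := by rw [u2, Matrix.one_mul]
      _ = h'⁻¹ * ((h' * mconj A * h⁻¹) * Aᵀ) := by simp only [Matrix.mul_assoc]
      _ = h'⁻¹ := by rw [e2, Matrix.mul_one]
  have e4 : Q * h⁻¹ * p = (aᵀ * (Q' - Kᵀ * h') + Cᵀ * h') * h'⁻¹ * p' := by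
    rw [← h2, ← h3]
    calc (aᵀ * (Q' - Kᵀ * h') + Cᵀ * h') * mconj A * h⁻¹ * (Aᵀ * p')
        = (aᵀ * (Q' - Kᵀ * h') + Cᵀ * h') * (mconj A * h⁻¹ * Aᵀ) * p' := by simp only [Matrix.mul_assoc]
      _ = (aᵀ * (Q' - Kᵀ * h') + Cᵀ * h') * h'⁻¹ * p' := by rw [e3]
  have e5 : (aᵀ * (Q' - Kᵀ * h') + Cᵀ * h') * h'⁻¹ * p' = aᵀ * (Q' * h'⁻¹ * p') - aᵀ * (Kᵀ * p') + Cᵀ * p' := by
    have c1 : Kᵀ * h' * h'⁻¹ = Kᵀ := by rw [Matrix.mul_assoc, u1, Matrix.mul_one]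
    have c2 : Cᵀ * h' * h'⁻¹ = Cᵀ := by rw [Matrix.mul_assoc, u1, Matrix.mul_one]
    rw [Matrix.add_mul, c2, Matrix.mul_assoc aᵀ, Matrix.sub_mul, c1, Matrix.add_mul, Matrix.mul_assoc aᵀ, Matrix.sub_mul,
      Matrix.mul_sub]
  rw [e4, e5, ← h4, Matrix.mul_sub, Matrix.mul_sub]
  abel

private theorem EpsC_blk {a : Matrix ι ι ℂ} {A : Matrix κ κ ℂ} {C : Matrix κ ι ℂ} {M M' : Matrix (ι ⊕ κ) (ι ⊕ κ) ℂ}
    (h : (fromBlocks a 0 C A)ᵀ * M' * mconj (fromBlocks a 0 C A) = M) :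
    (aᵀ * M'.toBlocks₁₂ + Cᵀ * M'.toBlocks₂₂) * mconj A = M.toBlocks₁₂ ∧ Aᵀ * M'.toBlocks₂₂ * mconj A = M.toBlocks₂₂ := by
  have e : (fromBlocks a 0 C A)ᵀ * M' * mconj (fromBlocks a 0 C A) =
      fromBlocks ((aᵀ * M'.toBlocks₁₁ + Cᵀ * M'.toBlocks₂₁) * mconj a + (aᵀ * M'.toBlocks₁₂ + Cᵀ * M'.toBlocks₂₂) * mconj C)
        ((aᵀ * M'.toBlocks₁₂ + Cᵀ * M'.toBlocks₂₂) * mconj A)
        (Aᵀ * M'.toBlocks₂₁ * mconj a + Aᵀ * M'.toBlocks₂₂ * mconj C) (Aᵀ * M'.toBlocks₂₂ * mconj A) := by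
    conv_lhs => rw [← fromBlocks_toBlocks M']
    rw [asm_mconj, fromBlocks_transpose, fromBlocks_multiply, fromBlocks_multiply]
    simp
  rw [← h, e, toBlocks_fromBlocks₁₂, toBlocks_fromBlocks₂₂]
  exact ⟨rfl, rfl⟩

private theorem EpsC_avg {a : Matrix ι ι ℂ} {B h : Matrix κ κ ℂ} {C K : Matrix κ ι ℂ} {X Y X' Y' : Matrix ι κ ℂ}
    (h1 : (aᵀ * (X' - Kᵀ * h) + Cᵀ * h) * B = X) (h2 : (aᵀ * (Y' - Kᵀ * h) + Cᵀ * h) * B = Y) :
    (aᵀ * ((1 / 2 : ℂ) • (X' + Y') - Kᵀ * h) + Cᵀ * h) * B = (1 / 2 : ℂ) • (X + Y) := by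
  rw [← h1, ← h2]
  simp only [Matrix.add_mul, Matrix.mul_sub, Matrix.sub_mul, Matrix.mul_add, Matrix.mul_smul, Matrix.smul_mul]
  module

theorem epsR_inv (hB : CompactBase D f) (hg : IsKahler (tot κ D) T.total gm) (hg' : IsKahler (tot κ D) T.total g') (hf : FibreFlat T gm) (hf' : FibreFlat T g')
    (he : IsPrimitive (tot κ D) T.total gm g' e) (hfe : Flat1 T e) (γ : G) (hb : b ∈ D) (i : ι) :
    ∑ k, epsR gm g' e (f γ b) k * jac (f γ) b k i = epsR gm g' e b i := by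
  have hD := hB.isOpen
  have hb' : f γ b ∈ D := hB.maps γ b hb
  have hx : (pt b 0 : ι ⊕ κ → ℂ) ∈ tot κ D := pt_mem_tot hb 0
  have hJ := jac_F_blk hB T γ hx
  have hFx : T.F γ (pt b 0) = pt (f γ b) (T.A γ b *ᵥ fib (pt b 0 : ι ⊕ κ → ℂ) + T.σ γ b) := rfl
  rw [bas_pt] at hJ
  generalize (jac (T.F γ) (pt b 0)).toBlocks₂₁ = C at hJ
  generalize (jac (T.F γ) (pt b 0)).toBlocks₂₂ = A at hJ
  generalize T.A γ b *ᵥ fib (pt b 0 : ι ⊕ κ → ℂ) + T.σ γ b = s at hFx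
  have i1 := hg.inv (T.F γ) (Or.inl ⟨γ, rfl⟩) _ hx
  have i2 := hg'.inv (T.F γ) (Or.inl ⟨γ, rfl⟩) _ hx
  have i3 := he.inv (T.F γ) (Or.inl ⟨γ, rfl⟩) _ hx
  rw [hJ, hFx] at i1 i2
  obtain ⟨j1, j2⟩ := EpsC_blk i1
  obtain ⟨j3, -⟩ := EpsC_blk i2
  have hh' : hv g' (f γ b) = hv gm (f γ b) := rel_ph hD he hfe hb'
  rw [flat_q hD hg hf hb', flat_h hD hg hf hb'] at j1
  rw [flat_h hD hg hf hb'] at j2
  rw [flat_q hD hg' hf' hb', flat_h hD hg' hf' hb', hh'] at j3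
  have h2 := EpsC_avg j1 j3
  have h3 : Aᵀ * pv e (f γ b) = pv e b := by
    ext l u
    have := i3 (Sum.inr l)
    rw [hJ, hFx, Fintype.sum_sum_type] at this
    rw [Matrix.mul_apply]
    refine Eq.trans ?_ (Eq.trans this ?_)
    · simp only [fromBlocks_apply₁₂, fromBlocks_apply₂₂, Matrix.zero_apply, mul_zero, Finset.sum_const_zero, zero_add]
      refine Finset.sum_congr rfl fun k _ => ?_
      rw [flat1_p hD hfe hb', Matrix.transpose_apply, mul_comm]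
    · rfl
  have h4 : (jac (f γ) b)ᵀ * (qv e (f γ b) - (kk T (f γ b) s)ᵀ * pv e (f γ b)) + Cᵀ * pv e (f γ b) = qv e b := by
    ext j u
    have := i3 (Sum.inl j)
    rw [hJ, hFx, Fintype.sum_sum_type] at this
    rw [Matrix.add_apply, Matrix.mul_apply, Matrix.mul_apply]
    refine Eq.trans ?_ (Eq.trans this ?_)
    · simp only [fromBlocks_apply₁₁, fromBlocks_apply₂₁]
      congr 1
      · refine Finset.sum_congr rfl fun k _ => ?_
        rw [flat1_q hD hfe hb', Matrix.transpose_apply, Matrix.sub_apply, Matrix.mul_apply, mul_comm]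
        rfl
      · refine Finset.sum_congr rfl fun k _ => ?_
        rw [flat1_p hD hfe hb', Matrix.transpose_apply, mul_comm]
    · rfl
  have key := epsR_inv_alg (hv_posDefR hg hb) (hv_posDefR hg hb') j2 h2 h3 h4
  have k1 := congrFun (congrFun key i) ()
  rw [Matrix.mul_apply] at k1
  refine Eq.trans ?_ (Eq.trans k1 ?_)
  · refine Finset.sum_congr rfl fun k _ => ?_
    rw [Matrix.transpose_apply, mul_comm]
    rfl
  · rfl

theorem epsR_isPrimitive (hB : CompactBase D f) (hg : IsKahler (tot κ D) T.total gm) (hg' : IsKahler (tot κ D) T.total g') (hf : FibreFlat T gm)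
    (hf' : FibreFlat T g') (he : IsPrimitive (tot κ D) T.total gm g' e) (hfe : Flat1 T e) :
    IsPrimitive D (Set.range f) (sch gm) (sch g') (epsR gm g' e) := by
  refine ⟨fun i => epsR_smooth hB.isOpen hg hg' he i, fun F hF b hb i => ?_, fun b hb i j => ?_, fun b hb i j => ?_⟩
  · obtain ⟨γ, rfl⟩ := hF
    exact epsR_inv hB hg hg' hf hf' he hfe γ hb i
  · exact epsR_sym hB.isOpen hg hg' hf hf' he hfe hb i j
  · exact epsR_eq hB.isOpen hg hg' hf hf' he hfe hb i j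

end TRed
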