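import Pool.Agent.Lib.MP_464db4_gt.TR.Scal
import Pool.Agent.Lib.MP_464db4_gt.TR.EpsC
import Pool.Agent.Lib.MP_464db4_gt.TR.AvgP
import Pool.Agent.Lib.MP_464db4_gt.TR.Coh

/-!
# TR-Iff: the equivalence
-/

namespace TRed

open Complex Matrix MeasureTheory YT
open scoped ContDiff ComplexConjugate ComplexOrder

variable {ι κ : Type} [Fintype ι] [DecidableEq ι] [Fintype κ] [DecidableEq κ] {G : Type} [Group G] {D : Set (ι → ℂ)}
  {f : G → (ι → ℂ) → (ι → ℂ)} {T : TorusFamily κ D f} {g gm g' : (ι ⊕ κ → ℂ) → Matrix (ι ⊕ κ) (ι ⊕ κ) ℂ}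

/-- The class of the form induced on the base and the vertical block depend only on the class of the flat form. -/
theorem sch_coh (hB : CompactBase D f) (hg : IsKahler (tot κ D) T.total gm) (hg' : IsKahler (tot κ D) T.total g') (hf : FibreFlat T gm)
    (hf' : FibreFlat T g') (h : Cohomologous (tot κ D) T.total gm g') :
    Cohomologous D (Set.range f) (sch gm) (sch g') ∧ ∀ b ∈ D, hv g' b = hv gm b := by
  obtain ⟨e, he⟩ := h
  obtain ⟨e', he', hfe⟩ := exists_flat_prim hB hf hf' he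
  exact ⟨⟨_, epsR_isPrimitive hB hg hg' hf hf' he' hfe⟩, fun b hb => rel_ph hB.isOpen he' hfe hb⟩

theorem flat_iff (hB : CompactBase D f) (hg : IsKahler (tot κ D) T.total gm) (hf : FibreFlat T gm)
    (hcoh : Cohomologous (tot κ D) T.total g gm) (c : ℝ) :
    (∃ β', IsKahler D (Set.range f) β' ∧ Cohomologous D (Set.range f) (sch gm) β' ∧ ∀ b ∈ D, twscal gm β' b = c) ↔
    (∃ g', IsKahler (tot κ D) T.total g' ∧ FibreFlat T g' ∧ Cohomologous (tot κ D) T.total g g' ∧ ∀ x ∈ tot κ D, scal g' x = c) := by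
  have hD := hB.isOpen
  have hU : IsOpen (tot κ D) := isOpen_tot hD
  constructor
  · rintro ⟨β', hβ, hc, hs⟩
    refine ⟨glueR gm β', glueR_isKahler hB hg hf hβ, glueR_flat hB hf, coh_trans hU hcoh (glueR_coh hB hg hf hβ hc), fun x hx => ?_⟩
    rw [scal_glueR hD hg hf hβ hx]
    exact hs _ hx
  · rintro ⟨g', hg', hf', hc', hs⟩
    obtain ⟨h1, h2⟩ := sch_coh hB hg hg' hf hf' (coh_trans hU (coh_symm hU hcoh) hc')
    refine ⟨sch g', sch_isKahler hB hg' hf', h1, fun b hb => ?_⟩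
    have h3 := scal_flat hB hg' hf' (pt_mem_tot hb 0)
    rw [hs _ (pt_mem_tot hb 0), bas_pt, twscal_congr hD h2 hb] at h3
    exact h3.symm

end TRed
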