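import Pool.Agent.Lib.MP_464db4_gt.TR.Calc

/-!
# TR-Jac: Jacobi's formula for the derivative of a determinant and of `log det`

Generalize the first half of KT/Jacobi.lean (`IsDer`, `der_sum`, `der_prod`, `der_det`, `der_ldm`; there for functions on `Unit → ℂ`, the proofs do not use this) to functions on `ι → ℂ` and the derivations
`dz i`, `dzbar i` at `b`; `∑ i, ∑ k, adjugate i k * D (h k i) = trace (adjugate * D h)`.
-/

namespace TRed

open Complex Matrix MeasureTheory YT
open scoped ContDiff ComplexConjugate ComplexOrder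

variable {ι κ : Type} [Fintype ι] [DecidableEq ι] [Fintype κ] [DecidableEq κ] {U : Set (ι → ℂ)} {b : ι → ℂ} {h : (ι → ℂ) → Matrix κ κ ℂ}

/-- A derivation of the functions which are differentiable at `b`. -/
private structure Jac_IsDer (b : ι → ℂ) (D : ((ι → ℂ) → ℂ) → ℂ) : Prop where
  const : ∀ c : ℂ, D (fun _ => c) = 0
  add : ∀ f g : (ι → ℂ) → ℂ, DifferentiableAt ℝ f b → DifferentiableAt ℝ g b → D (fun y => f y + g y) = D f + D g
  mul : ∀ f g : (ι → ℂ) → ℂ, DifferentiableAt ℝ f b → DifferentiableAt ℝ g b → D (fun y => f y * g y) = D f * g b + f b * D g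

private theorem Jac_isDer_dz (b : ι → ℂ) (i : ι) : Jac_IsDer b (fun f => dz i f b) where
  const c := dz_const i c
  add f g hf hg := dz_add i hf hg
  mul f g hf hg := dz_mul i hf hg

private theorem Jac_isDer_dzbar (b : ι → ℂ) (i : ι) : Jac_IsDer b (fun f => dzbar i f b) where
  const c := dzbar_const i c
  add f g hf hg := dzbar_add i hf hg
  mul f g hf hg := dzbar_mul i hf hg

private theorem Jac_der_sum {D : ((ι → ℂ) → ℂ) → ℂ} (hD : Jac_IsDer b D) {α : Type*} (s : Finset α) (f : α → (ι → ℂ) → ℂ)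
    (hf : ∀ a ∈ s, DifferentiableAt ℝ (f a) b) : D (fun y => ∑ a ∈ s, f a y) = ∑ a ∈ s, D (f a) := by
  classical
  induction s using Finset.induction_on with
  | empty => simpa using hD.const 0
  | insert a s ha ih =>
    have h1 : (fun y => ∑ a ∈ insert a s, f a y) = fun y => f a y + ∑ a ∈ s, f a y := by
      funext y
      exact Finset.sum_insert ha
    rw [h1, hD.add _ _ (hf a (Finset.mem_insert_self _ _))
      (DifferentiableAt.fun_sum fun a' ha' => hf a' (Finset.mem_insert_of_mem ha')), Finset.sum_insert ha,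
      ih fun a' ha' => hf a' (Finset.mem_insert_of_mem ha')]

private theorem Jac_prod_diff {α : Type*} (s : Finset α) (f : α → (ι → ℂ) → ℂ)
    (hf : ∀ a ∈ s, DifferentiableAt ℝ (f a) b) : DifferentiableAt ℝ (fun y => ∏ a ∈ s, f a y) b := by
  classical
  induction s using Finset.induction_on with
  | empty => simpa using differentiableAt_const (1 : ℂ)
  | insert a s ha ih =>
    have h1 : (fun y => ∏ a ∈ insert a s, f a y) = fun y => f a y * ∏ a ∈ s, f a y := by
      funext y
      exact Finset.prod_insert ha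
    rw [h1]
    exact (hf a (Finset.mem_insert_self _ _)).mul (ih fun a' ha' => hf a' (Finset.mem_insert_of_mem ha'))

private theorem Jac_der_prod {D : ((ι → ℂ) → ℂ) → ℂ} (hD : Jac_IsDer b D) {α : Type*} [DecidableEq α] (s : Finset α) (f : α → (ι → ℂ) → ℂ)
    (hf : ∀ a ∈ s, DifferentiableAt ℝ (f a) b) :
    D (fun y => ∏ a ∈ s, f a y) = ∑ a ∈ s, (∏ a' ∈ s.erase a, f a' b) * D (f a) := by
  induction s using Finset.induction_on with
  | empty => simpa using hD.const 1
  | insert a s ha ih =>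
    have h1 : (fun y => ∏ a ∈ insert a s, f a y) = fun y => f a y * ∏ a ∈ s, f a y := by
      funext y
      exact Finset.prod_insert ha
    have h2 : DifferentiableAt ℝ (fun y => ∏ a ∈ s, f a y) b :=
      Jac_prod_diff s f fun a' ha' => hf a' (Finset.mem_insert_of_mem ha')
    rw [h1, hD.mul _ _ (hf a (Finset.mem_insert_self _ _)) h2, Finset.sum_insert ha,
      ih fun a' ha' => hf a' (Finset.mem_insert_of_mem ha'), Finset.erase_insert ha, Finset.mul_sum]
    congr 1
    · ring
    · refine Finset.sum_congr rfl fun a' ha' => ?_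
      have hne : a' ≠ a := fun h => ha (h ▸ ha')
      rw [Finset.erase_insert_of_ne (Ne.symm hne), Finset.prod_insert (fun h => ha (Finset.mem_of_mem_erase h))]
      ring

private theorem Jac_der_det {D : ((ι → ℂ) → ℂ) → ℂ} (hD : Jac_IsDer b D) (hd : ∀ i j, DifferentiableAt ℝ (fun y => h y i j) b) :
    D (fun y => (h y).det) = ((h b).adjugate * Matrix.of fun k l => D (fun y => h y k l)).trace := by
  have h1 : (fun y => (h y).det) = fun y => ∑ σ : Equiv.Perm κ, ((Equiv.Perm.sign σ : ℤ) : ℂ) * ∏ i, h y (σ i) i := by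
    funext y
    rw [Matrix.det_apply']
  have hp : ∀ σ : Equiv.Perm κ, DifferentiableAt ℝ (fun y => ∏ i, h y (σ i) i) b := fun σ =>
    Jac_prod_diff Finset.univ (fun i y => h y (σ i) i) fun i _ => hd (σ i) i
  rw [h1, Jac_der_sum hD Finset.univ (fun (σ : Equiv.Perm κ) y => ((Equiv.Perm.sign σ : ℤ) : ℂ) * ∏ i, h y (σ i) i)
    fun σ _ => (differentiableAt_const _).mul (hp σ)]
  have h2 : ∀ σ : Equiv.Perm κ, D (fun y => ((Equiv.Perm.sign σ : ℤ) : ℂ) * ∏ i, h y (σ i) i) =
      ∑ i, ((Equiv.Perm.sign σ : ℤ) : ℂ) * ((∏ j ∈ Finset.univ.erase i, h b (σ j) j) * D (fun y => h y (σ i) i)) := by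
    intro σ
    rw [hD.mul _ _ (differentiableAt_const _) (hp σ), hD.const, zero_mul, zero_add,
      Jac_der_prod hD Finset.univ (fun i y => h y (σ i) i) fun i _ => hd (σ i) i, Finset.mul_sum]
  rw [Finset.sum_congr rfl fun σ _ => h2 σ, Finset.sum_comm]
  simp only [Matrix.trace, Matrix.diag_apply, Matrix.mul_apply, Matrix.of_apply]
  refine Finset.sum_congr rfl fun i _ => ?_
  have h3 : ∑ k, (h b).adjugate i k * D (fun y => h y k i) = ((h b).updateCol i (fun k => D (fun y => h y k i))).det := by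
    have h4 := congrFun (Matrix.cramer_eq_adjugate_mulVec (h b) (fun k => D (fun y => h y k i))) i
    rw [Matrix.cramer_apply] at h4
    rw [h4]
    rfl
  rw [h3, Matrix.det_apply']
  refine Finset.sum_congr rfl fun σ _ => ?_
  rw [← Finset.mul_prod_erase Finset.univ _ (Finset.mem_univ i)]
  congr 1
  rw [mul_comm]
  congr 1
  · rw [Matrix.updateCol_apply, if_pos rfl]
  · refine Finset.prod_congr rfl fun j hj => ?_
    rw [Matrix.updateCol_apply, if_neg (Finset.ne_of_mem_erase hj)]

theorem diff_det (hM : MDiff h b) : DifferentiableAt ℝ (fun y => (h y).det) b := by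
  have h1 : (fun y => (h y).det) = fun y => ∑ σ : Equiv.Perm κ, ((Equiv.Perm.sign σ : ℤ) : ℂ) * ∏ i, h y (σ i) i := by
    funext y
    rw [Matrix.det_apply']
  rw [h1]
  exact DifferentiableAt.fun_sum fun σ _ => (differentiableAt_const _).mul
    (Jac_prod_diff Finset.univ (fun i y => h y (σ i) i) fun i _ => hM (σ i) i)

theorem dz_det (hM : MDiff h b) (i : ι) : dz i (fun y => (h y).det) b = ((h b).adjugate * mdz i h b).trace := by
  exact Jac_der_det (Jac_isDer_dz b i) hM

theorem dzbar_det (hM : MDiff h b) (i : ι) : dzbar i (fun y => (h y).det) b = ((h b).adjugate * mdb i h b).trace := by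
  exact Jac_der_det (Jac_isDer_dzbar b i) hM

/-- The derivative of the logarithm of a real function. -/
theorem dz_logR {N : (ι → ℂ) → ℝ} (hN : DifferentiableAt ℝ N b) (h0 : N b ≠ 0) (i : ι) :
    dz i (fun y => ((Real.log (N y) : ℝ) : ℂ)) b = (((N b)⁻¹ : ℝ) : ℂ) * dz i (fun y => ((N y : ℝ) : ℂ)) b := by
  have h1 : HasFDerivAt (fun y => ((N y : ℝ) : ℂ)) (Complex.ofRealCLM.comp (fderiv ℝ N b)) b :=
    Complex.ofRealCLM.hasFDerivAt.comp b hN.hasFDerivAt
  have h2 : HasFDerivAt (fun y => ((Real.log (N y) : ℝ) : ℂ)) (Complex.ofRealCLM.comp ((N b)⁻¹ • fderiv ℝ N b)) b :=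
    Complex.ofRealCLM.hasFDerivAt.comp b (hN.hasFDerivAt.log h0)
  unfold dz
  rw [h1.fderiv, h2.fderiv]
  simp only [ContinuousLinearMap.comp_apply, _root_.smul_apply, smul_eq_mul, Complex.ofRealCLM_apply, Complex.ofReal_mul]
  ring

private theorem Jac_pos {h : (ι → ℂ) → Matrix κ κ ℂ} (hp : ∀ y ∈ U, (h y).PosDef) {y : ι → ℂ} (hy : y ∈ U) :
    0 < (h y).det.re ∧ (h y).det.im = 0 := by
  have h1 := (hp y hy).det_pos
  rw [Complex.pos_iff] at h1
  exact ⟨h1.1, h1.2.symm⟩

theorem dz_ldm (hU : IsOpen U) (hs : ∀ k l, ContDiffOn ℝ ∞ (fun y => h y k l) U) (hp : ∀ y ∈ U, (h y).PosDef) (hb : b ∈ U) (i : ι) :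
    dz i (ldm h) b = ((h b)⁻¹ * mdz i h b).trace := by
  have hM : MDiff h b := MDiff.of_smooth hU hs hb
  have h1 : DifferentiableAt ℝ (fun y => (h y).det.re) b := Complex.reCLM.differentiableAt.comp b (diff_det hM)
  obtain ⟨h2, h3⟩ := Jac_pos hp hb
  have h4 : ldm h = fun y => ((Real.log ((h y).det.re) : ℝ) : ℂ) := by
    funext y
    rfl
  have h5 : ∀ y ∈ U, (((h y).det.re : ℝ) : ℂ) = (h y).det := by
    intro y hy
    apply Complex.ext
    · simp
    · simp [(Jac_pos hp hy).2]
  have h6 : dz i (fun y => (((h y).det.re : ℝ) : ℂ)) b = dz i (fun y => (h y).det) b := dz_congr_on hU h5 hb i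
  rw [h4, dz_logR h1 h2.ne' i, h6, dz_det hM i, Matrix.inv_def, Ring.inverse_eq_inv', Matrix.smul_mul, Matrix.trace_smul,
    smul_eq_mul, Complex.ofReal_inv, h5 b hb]

end TRed
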