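import Pool.Agent.Lib.MP_464db4_gt.TR.Str
import Pool.Agent.Lib.MP_464db4_gt.YT.ExB

/-!
# TR-Rel: the derivatives of the blocks of a form which is flat along the fibres

Everything at the points `pt b 0`.  `line_dz`: a function `φ` which is differentiable at `pt b 0` and satisfies `φ (pt b (s • a)) = φ (pt b 0) + s L(a) + s² N(a)` for all real `s`
has derivative `L(a)` in the direction `pt 0 a`, `Pi.single (inr l) c = pt 0 (Pi.single l c)`, and `dz`, `dzbar` are `(fderiv · (single 1) ∓ I fderiv · (single I)) / 2`.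
With `mM`, `mB` the ℂ-linear and the antilinear part of `z ↦ kk T b z` in the direction of the base variable `i`:
* `rel_h`: `∂_i h_lm = dz (inl i) (gm · (inr l) (inr m)) = dz (inr l) (gm · (inl i) (inr m))` (closed), `gm (pt b (s a)) (inl i) (inr m) = Q_im - s ∑ k, kk(a) k i h_km` (`flat_q`, `kk_smul`), so this is
  `-∑ k, mM i k l h k m`.  `rel_hb`: the adjoint (`hv gm` is hermitian on `D`, `mdz_conjT`).
* `rel_B`: `dzbar (inr l) (gm · (inl i) (inr m)) = dzbar (inr m) (gm · (inl i) (inr l))` (`closed_bar`, YT-ExB) at `pt b 0`: `-∑ k, mB i k l h k m = -∑ k, mB i k m h k l`.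
* `rel_q`, `rel_p`: closedness, `dz_pt`.
* `rel_qb`: `dzbar (inl j) (gm · (inl i) (inr m)) = dzbar (inr m) (gm · (inl i) (inl j))` (`closed_bar`), `flat_p`: along `s • a` the derivative of `gm (pt b (s a)) (inl i) (inl j)` at `s = 0` is
  `-∑ k, kk(a) k i conj (Q j k) - ∑ k, Q i k conj (kk(a) k j)`, a real-linear function of `a`, whose `dzbar (inr m)` is `-∑ k, mB i k m conj (Q j k) - ∑ k, Q i k conj (mM j k m)`.
-/

namespace TRed

open Complex Matrix MeasureTheory YT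
open scoped ContDiff ComplexConjugate ComplexOrder

variable {ι κ : Type} [Fintype ι] [DecidableEq ι] [Fintype κ] [DecidableEq κ] {G : Type} [Group G] {D : Set (ι → ℂ)}
  {f : G → (ι → ℂ) → (ι → ℂ)} {T : TorusFamily κ D f} {gm : (ι ⊕ κ → ℂ) → Matrix (ι ⊕ κ) (ι ⊕ κ) ℂ} {S : Set ((ι ⊕ κ → ℂ) → (ι ⊕ κ → ℂ))} {b : ι → ℂ}

private theorem Rel_single (l : κ) (c : ℂ) : (Pi.single (Sum.inr l) c : ι ⊕ κ → ℂ) = pt 0 (Pi.single l c) := by
  funext j
  rcases j with j | k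
  · rw [Pi.single_eq_of_ne (by simp)]
    rfl
  · show _ = (Pi.single l c : κ → ℂ) k
    by_cases h : k = l
    · subst h
      rw [Pi.single_eq_same, Pi.single_eq_same]
    · rw [Pi.single_eq_of_ne h, Pi.single_eq_of_ne (fun h' => h (Sum.inr.inj h'))]

private theorem Rel_line {φ : (ι ⊕ κ → ℂ) → ℂ} (hφ : DifferentiableAt ℝ φ (pt b 0)) {L N : (κ → ℂ) → ℂ}
    (h : ∀ (a : κ → ℂ) (s : ℝ), φ (pt b (s • a)) = φ (pt b 0) + s * L a + s ^ 2 * N a) (a : κ → ℂ) :
    fderiv ℝ φ (pt b 0) (pt 0 a) = L a := by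
  have e : ∀ s : ℝ, (pt b (s • a) : ι ⊕ κ → ℂ) = pt b 0 + s • pt 0 a := by
    intro s
    rw [smul_pt, ← pt_add, add_zero, zero_add]
  have h1 : HasDerivAt (fun s : ℝ => (pt b 0 : ι ⊕ κ → ℂ) + s • pt 0 a) (pt 0 a) 0 := by
    have h2 := ((hasDerivAt_id (0 : ℝ)).smul_const (pt 0 a : ι ⊕ κ → ℂ)).const_add (pt b 0)
    rw [one_smul] at h2
    exact h2
  have h3 : HasDerivAt (fun s : ℝ => φ (pt b 0 + s • pt 0 a)) (fderiv ℝ φ (pt b 0) (pt 0 a)) 0 := by
    have h4 : HasFDerivAt φ (fderiv ℝ φ (pt b 0)) ((fun s : ℝ => (pt b 0 : ι ⊕ κ → ℂ) + s • pt 0 a) 0) := by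
      show HasFDerivAt φ (fderiv ℝ φ (pt b 0)) ((pt b 0 : ι ⊕ κ → ℂ) + (0 : ℝ) • pt 0 a)
      rw [zero_smul, add_zero]
      exact hφ.hasFDerivAt
    exact HasFDerivAt.comp_hasDerivAt (0 : ℝ) h4 h1
  have h5 : HasDerivAt (fun s : ℝ => φ (pt b 0) + (s : ℂ) * L a + (s : ℂ) ^ 2 * N a) (L a) 0 := by
    have h6 : HasDerivAt (fun s : ℝ => (s : ℂ)) 1 0 := Complex.ofRealCLM.hasDerivAt
    have h7 := ((h6.mul_const (L a)).const_add (φ (pt b 0))).add ((h6.pow 2).mul_const (N a))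
    refine h7.congr_deriv ?_
    simp
  have h8 : (fun s : ℝ => φ (pt b 0 + s • pt 0 a)) = fun s : ℝ => φ (pt b 0) + (s : ℂ) * L a + (s : ℂ) ^ 2 * N a := by
    funext s
    rw [← e s, h a s]
  rw [h8] at h3
  exact h3.unique h5

theorem line_dz {φ : (ι ⊕ κ → ℂ) → ℂ} (hφ : DifferentiableAt ℝ φ (pt b 0)) {L N : (κ → ℂ) → ℂ}
    (h : ∀ (a : κ → ℂ) (s : ℝ), φ (pt b (s • a)) = φ (pt b 0) + s * L a + s ^ 2 * N a) (l : κ) :
    dz (Sum.inr l) φ (pt b 0) = (L (Pi.single l 1) - I * L (Pi.single l I)) / 2 := by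
  unfold dz
  rw [Rel_single, Rel_single, Rel_line hφ h, Rel_line hφ h]

theorem line_dzbar {φ : (ι ⊕ κ → ℂ) → ℂ} (hφ : DifferentiableAt ℝ φ (pt b 0)) {L N : (κ → ℂ) → ℂ}
    (h : ∀ (a : κ → ℂ) (s : ℝ), φ (pt b (s • a)) = φ (pt b 0) + s * L a + s ^ 2 * N a) (l : κ) :
    dzbar (Sum.inr l) φ (pt b 0) = (L (Pi.single l 1) + I * L (Pi.single l I)) / 2 := by
  unfold dzbar
  rw [Rel_single, Rel_single, Rel_line hφ h, Rel_line hφ h]

/-- The ℂ-linear part of `z ↦ kk T b z k i`. -/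
noncomputable def mM (T : TorusFamily κ D f) (b : ι → ℂ) (i : ι) : Matrix κ κ ℂ :=
  Matrix.of fun k l => (kk T b (Pi.single l 1) k i - I * kk T b (Pi.single l I) k i) / 2

/-- The antilinear part of `z ↦ kk T b z k i`. -/
noncomputable def mB (T : TorusFamily κ D f) (b : ι → ℂ) (i : ι) : Matrix κ κ ℂ :=
  Matrix.of fun k l => (kk T b (Pi.single l 1) k i + I * kk T b (Pi.single l I) k i) / 2

/-- The matrix with the entries `∑ l, conj (Q j l) * mB i l m`. -/
noncomputable def eB (T : TorusFamily κ D f) (b : ι → ℂ) (Q : Matrix ι κ ℂ) (j : ι) : Matrix ι κ ℂ :=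
  Matrix.of fun i m => ∑ l, conj (Q j l) * mB T b i l m

private theorem Rel_diff (hD : IsOpen D) (hg : IsKahler (tot κ D) S gm) (hb : b ∈ D) (i j : ι ⊕ κ) :
    DifferentiableAt ℝ (fun x => gm x i j) (pt b 0) :=
  ((hg.smooth i j).contDiffAt ((isOpen_tot hD).mem_nhds (pt_mem_tot hb 0))).differentiableAt (by simp)

/-- The mixed block along the lines in the fibre. -/
private theorem Rel_q_line (hD : IsOpen D) (hg : IsKahler (tot κ D) S gm) (hf : FibreFlat T gm) (hb : b ∈ D) (i : ι) (m : κ) (a : κ → ℂ) (s : ℝ) :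
    gm (pt b (s • a)) (Sum.inl i) (Sum.inr m) = gm (pt b 0) (Sum.inl i) (Sum.inr m) + s * (-∑ k, kk T b a k i * hv gm b k m) + s ^ 2 * 0 := by
  have h1 : (gm (pt b (s • a))).toBlocks₁₂ i m = (qb gm b - (kk T b (s • a))ᵀ * hv gm b) i m := by rw [flat_q hD hg hf hb]
  have h2 : (gm (pt b (s • a))).toBlocks₁₂ i m = gm (pt b (s • a)) (Sum.inl i) (Sum.inr m) := rfl
  have h3 : qb gm b i m = gm (pt b 0) (Sum.inl i) (Sum.inr m) := rfl
  rw [← h2, h1, Matrix.sub_apply, h3, kk_smul hD hb, Matrix.transpose_smul, Matrix.smul_mul, Matrix.smul_apply, Matrix.mul_apply, smul_eq_mul]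
  simp only [Matrix.transpose_apply]
  ring

private theorem Rel_q_dz (hD : IsOpen D) (hg : IsKahler (tot κ D) S gm) (hf : FibreFlat T gm) (hb : b ∈ D) (i : ι) (l m : κ) :
    dz (Sum.inr l) (fun x => gm x (Sum.inl i) (Sum.inr m)) (pt b 0) = -((mM T b i)ᵀ * hv gm b) l m := by
  rw [line_dz (Rel_diff hD hg hb _ _) (L := fun a => -∑ k, kk T b a k i * hv gm b k m) (N := fun _ => 0)
    (fun a s => Rel_q_line hD hg hf hb i m a s) l, Matrix.mul_apply]
  simp only [Matrix.transpose_apply, mM, Matrix.of_apply]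
  rw [show ∀ x y : ℂ, (-x - I * -y) / 2 = -((x - I * y) / 2) from fun x y => by ring, Finset.mul_sum, ← Finset.sum_sub_distrib, Finset.sum_div]
  congr 1
  refine Finset.sum_congr rfl fun k _ => ?_
  ring

private theorem Rel_q_dzbar (hD : IsOpen D) (hg : IsKahler (tot κ D) S gm) (hf : FibreFlat T gm) (hb : b ∈ D) (i : ι) (l m : κ) :
    dzbar (Sum.inr l) (fun x => gm x (Sum.inl i) (Sum.inr m)) (pt b 0) = -((mB T b i)ᵀ * hv gm b) l m := by
  rw [line_dzbar (Rel_diff hD hg hb _ _) (L := fun a => -∑ k, kk T b a k i * hv gm b k m) (N := fun _ => 0)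
    (fun a s => Rel_q_line hD hg hf hb i m a s) l, Matrix.mul_apply]
  simp only [Matrix.transpose_apply, mB, Matrix.of_apply]
  rw [show ∀ x y : ℂ, (-x + I * -y) / 2 = -((x + I * y) / 2) from fun x y => by ring, Finset.mul_sum, ← Finset.sum_add_distrib, Finset.sum_div]
  congr 1
  refine Finset.sum_congr rfl fun k _ => ?_
  ring

theorem rel_h (hD : IsOpen D) (hg : IsKahler (tot κ D) S gm) (hf : FibreFlat T gm) (hb : b ∈ D) (i : ι) :
    mdz i (hv gm) b = -((mM T b i)ᵀ * hv gm b) := by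
  ext l m
  show dz i (fun y => gm (pt y 0) (Sum.inr l) (Sum.inr m)) b = -((mM T b i)ᵀ * hv gm b) l m
  rw [dz_pt (Rel_diff hD hg hb (Sum.inr l) (Sum.inr m)), hg.closed (pt b 0) (pt_mem_tot hb 0)]
  exact Rel_q_dz hD hg hf hb i l m

theorem rel_hb (hD : IsOpen D) (hg : IsKahler (tot κ D) S gm) (hf : FibreFlat T gm) (hb : b ∈ D) (i : ι) :
    mdb i (hv gm) b = -(hv gm b * mconj (mM T b i)) := by
  have h1 : mdb i (hv gm) b = mdb i (fun y => (hv gm y)ᴴ) b := by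
    ext l m
    refine dzbar_congr_on hD (fun y hy => ?_) hb i
    show hv gm y l m = (hv gm y)ᴴ l m
    rw [(hv_posDefR hg hy).isHermitian.eq]
  rw [h1, mdb_conjT, rel_h hD hg hf hb, Matrix.conjTranspose_neg, Matrix.conjTranspose_mul, (hv_posDefR hg hb).isHermitian.eq]
  rfl

theorem rel_B (hD : IsOpen D) (hg : IsKahler (tot κ D) S gm) (hf : FibreFlat T gm) (hb : b ∈ D) (i : ι) :
    ((mB T b i)ᵀ * hv gm b)ᵀ = (mB T b i)ᵀ * hv gm b := by
  ext l m
  have h1 := closed_bar (isOpen_tot hD) hg (pt_mem_tot hb 0) (Sum.inl i) (Sum.inr m) (Sum.inr l)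
  rw [Rel_q_dzbar hD hg hf hb, Rel_q_dzbar hD hg hf hb] at h1
  exact (neg_injective h1).symm

theorem rel_q (hD : IsOpen D) (hg : IsKahler (tot κ D) S gm) (hb : b ∈ D) (i j : ι) (m : κ) :
    mdz j (qb gm) b i m = mdz i (qb gm) b j m := by
  show dz j (fun y => gm (pt y 0) (Sum.inl i) (Sum.inr m)) b = dz i (fun y => gm (pt y 0) (Sum.inl j) (Sum.inr m)) b
  rw [dz_pt (Rel_diff hD hg hb (Sum.inl i) (Sum.inr m)), dz_pt (Rel_diff hD hg hb (Sum.inl j) (Sum.inr m)),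
    hg.closed (pt b 0) (pt_mem_tot hb 0)]

theorem rel_p (hD : IsOpen D) (hg : IsKahler (tot κ D) S gm) (hb : b ∈ D) (i j k : ι) :
    mdz k (pb gm) b i j = mdz i (pb gm) b k j := by
  show dz k (fun y => gm (pt y 0) (Sum.inl i) (Sum.inl j)) b = dz i (fun y => gm (pt y 0) (Sum.inl k) (Sum.inl j)) b
  rw [dz_pt (Rel_diff hD hg hb (Sum.inl i) (Sum.inl j)), dz_pt (Rel_diff hD hg hb (Sum.inl k) (Sum.inl j)),
    hg.closed (pt b 0) (pt_mem_tot hb 0)]

/-- The block of the base along the lines in the fibre. -/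
private theorem Rel_p_line (hD : IsOpen D) (hg : IsKahler (tot κ D) S gm) (hf : FibreFlat T gm) (hb : b ∈ D) (i j : ι) (a : κ → ℂ) (s : ℝ) :
    gm (pt b (s • a)) (Sum.inl i) (Sum.inl j) = gm (pt b 0) (Sum.inl i) (Sum.inl j) +
      s * (-(∑ k, kk T b a k i * conj (qb gm b j k)) - ∑ k, qb gm b i k * conj (kk T b a k j)) +
      s ^ 2 * ((kk T b a)ᵀ * hv gm b * mconj (kk T b a)) i j := by
  have h1 : (gm (pt b (s • a))).toBlocks₁₁ i j = (pb gm b - (kk T b (s • a))ᵀ * (qb gm b)ᴴ - qb gm b * mconj (kk T b (s • a)) +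
      (kk T b (s • a))ᵀ * hv gm b * mconj (kk T b (s • a))) i j := by rw [flat_p hD hg hf hb]
  have h2 : (gm (pt b (s • a))).toBlocks₁₁ i j = gm (pt b (s • a)) (Sum.inl i) (Sum.inl j) := rfl
  have h3 : pb gm b i j = gm (pt b 0) (Sum.inl i) (Sum.inl j) := rfl
  have h4 : mconj (((s : ℝ) : ℂ) • kk T b a) = ((s : ℝ) : ℂ) • mconj (kk T b a) := by
    ext k l
    show conj (((s : ℝ) : ℂ) • kk T b a k l) = ((s : ℝ) : ℂ) • conj (kk T b a k l)
    rw [smul_eq_mul, smul_eq_mul, map_mul, Complex.conj_ofReal]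
  rw [← h2, h1, kk_smul hD hb, h4, Matrix.transpose_smul, Matrix.smul_mul, Matrix.mul_smul, Matrix.smul_mul, Matrix.smul_mul, Matrix.mul_smul, smul_smul,
    Matrix.add_apply, Matrix.sub_apply, Matrix.sub_apply, Matrix.smul_apply, Matrix.smul_apply, Matrix.smul_apply, h3,
    Matrix.mul_apply (M := (kk T b a)ᵀ) (N := (qb gm b)ᴴ), Matrix.mul_apply (M := qb gm b) (N := mconj (kk T b a)), smul_eq_mul, smul_eq_mul, smul_eq_mul]
  have h5 : ∀ k, (kk T b a)ᵀ i k * (qb gm b)ᴴ k j = kk T b a k i * conj (qb gm b j k) := fun _ => rfl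
  have h6 : ∀ k, qb gm b i k * mconj (kk T b a) k j = qb gm b i k * conj (kk T b a k j) := fun _ => rfl
  simp only [h5, h6]
  ring

theorem rel_qb (hD : IsOpen D) (hg : IsKahler (tot κ D) S gm) (hf : FibreFlat T gm) (hb : b ∈ D) (j : ι) :
    mdb j (qb gm) b = -eB T b (qb gm b) j - qb gm b * mconj (mM T b j) := by
  ext i m
  show dzbar j (fun y => gm (pt y 0) (Sum.inl i) (Sum.inr m)) b = -(∑ l, conj (qb gm b j l) * mB T b i l m) - (qb gm b * mconj (mM T b j)) i m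
  rw [dzbar_pt (Rel_diff hD hg hb (Sum.inl i) (Sum.inr m)), closed_bar (isOpen_tot hD) hg (pt_mem_tot hb 0),
    line_dzbar (Rel_diff hD hg hb _ _)
      (L := fun a => -(∑ k, kk T b a k i * conj (qb gm b j k)) - ∑ k, qb gm b i k * conj (kk T b a k j))
      (N := fun a => ((kk T b a)ᵀ * hv gm b * mconj (kk T b a)) i j)
      (fun a s => Rel_p_line hD hg hf hb i j a s) m, Matrix.mul_apply]
  have h1 : ∀ k, qb gm b i k * mconj (mM T b j) k m =
      (qb gm b i k * conj (kk T b (Pi.single m 1) k j) + I * (qb gm b i k * conj (kk T b (Pi.single m I) k j))) / 2 := by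
    intro k
    show qb gm b i k * conj ((kk T b (Pi.single m 1) k j - I * kk T b (Pi.single m I) k j) / 2) = _
    rw [map_div₀, map_sub, map_mul, Complex.conj_I, map_ofNat]
    ring
  have h2 : ∀ k, conj (qb gm b j k) * mB T b i k m =
      (kk T b (Pi.single m 1) k i * conj (qb gm b j k) + I * (kk T b (Pi.single m I) k i * conj (qb gm b j k))) / 2 := by
    intro k
    show conj (qb gm b j k) * ((kk T b (Pi.single m 1) k i + I * kk T b (Pi.single m I) k i) / 2) = _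
    ring
  rw [Finset.sum_congr rfl fun k _ => h1 k, Finset.sum_congr rfl fun k _ => h2 k, ← Finset.sum_div, ← Finset.sum_div, Finset.sum_add_distrib,
    Finset.sum_add_distrib, ← Finset.mul_sum, ← Finset.mul_sum]
  ring

end TRed
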