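import Pool.Agent.Lib.MP_464db4_gt.TR.DefsW
import Pool.Agent.Lib.MP_464db4_gt.TR.Rel
import Pool.Agent.Lib.MP_464db4_gt.TR.Jac

/-!
# TR-Wp: the form `∂∂̄ log det h` depends only on the family

* `kk_lin`: `z ↦ kk T b z k i` is real-linear (`kk_add`, `kk_smul`), `z = ∑ l, (re z_l) e_l + (im z_l) (I e_l)`, so it is `mM z + mB z̄`.
* `mdz_omg`: `dper T b (Pi.single l 1) k i = dz i (T.Z₁ · k l) b` and `dper T b (Pi.single l I) k i = dz i (T.Z₂ · k l) b` (the definition of `per`), and `dper T b v = kk T b (per b v)` (`pinv_per`), `per b (Pi.single l 1) = `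
  column `l` of `Z₁`, `per b (Pi.single l I) =` column `l` of `Z₂`: with `kk_lin`: `∂_i Z₁ = mM Z₁ + mB Z̄₁`, `∂_i Z₂ = mM Z₂ + mB Z̄₂`; `dz i (conj Z) = conj (dzbar i Z) = 0` (`dz_conj`, `dzbar_hol`).
* `omg_det_ne`: a vector `(x,y)` in the kernel of `omg T b` satisfies `Z₁ x + Z₂ y = 0` and `Z₁ x̄ + Z₂ ȳ = 0`, so `per b (re x + I re y) = 0 = per b (im x + I im y)` and `x = y = 0` by `T.bij`.
* `conj_det`: `conj (det omg) = det (mconj omg)` and `mconj omg` is `omg` with the two rows of blocks exchanged, so `conj (det omg) = s det omg` with a constant `s`, `s² = 1` (`Matrix.det_fromBlocks..`, or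
  `Matrix.det_permute'`, `Matrix.det_submatrix_equiv_self`, or `fromBlocks 0 1 1 0 * omg = mconj omg`).
* `dz_logP`: `log ‖d‖ = (1/2) log (d conj d)`, `d conj d = s d²`: `dz i (log ‖d‖) = dz i d / d = trace (omg⁻¹ mdz i omg) = trace (mdz i omg omg⁻¹) = trace mM` (`dz_det`, `adjugate = det • inverse`, `mdz_omg`).
* `dz_ldm_flat`: `dz_ldm`, `rel_h`, `trace_mul_comm`.
* `wp_eq`: both functions are real valued, so `dzbar j u = conj (dz j u)` (`dz_conj`), and on the open set `D`: `dzbar j (ldm (hv gm)) = -conj (trace mM_j) = -dzbar j (logP T)`; then `dz_congr_on`.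
-/

namespace TRed

open Complex Matrix MeasureTheory YT
open scoped ContDiff ComplexConjugate ComplexOrder

variable {ι κ : Type} [Fintype ι] [DecidableEq ι] [Fintype κ] [DecidableEq κ] {G : Type} [Group G] {D : Set (ι → ℂ)}
  {f : G → (ι → ℂ) → (ι → ℂ)} {T : TorusFamily κ D f} {gm : (ι ⊕ κ → ℂ) → Matrix (ι ⊕ κ) (ι ⊕ κ) ℂ} {S : Set ((ι ⊕ κ → ℂ) → (ι ⊕ κ → ℂ))} {b : ι → ℂ}

/-- `z ↦ kk T b z k i` as a real-linear map. -/
private noncomputable def Wp_L (T : TorusFamily κ D f) (hD : IsOpen D) (hb : b ∈ D) (k : κ) (i : ι) : (κ → ℂ) →ₗ[ℝ] ℂ where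
  toFun z := kk T b z k i
  map_add' z w := by
    rw [kk_add hD hb]
    rfl
  map_smul' s z := by
    rw [kk_smul hD hb]
    show ((s : ℝ) : ℂ) * kk T b z k i = s • kk T b z k i
    rw [Complex.real_smul]

private theorem Wp_single (l : κ) (c : ℂ) : (Pi.single l c : κ → ℂ) = c.re • (Pi.single l 1 : κ → ℂ) + c.im • (Pi.single l I : κ → ℂ) := by
  funext k
  rw [Pi.add_apply, Pi.smul_apply, Pi.smul_apply]
  by_cases h : k = l
  · subst h
    rw [Pi.single_eq_same, Pi.single_eq_same, Pi.single_eq_same, Complex.real_smul, Complex.real_smul, mul_one]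
    exact (Complex.re_add_im c).symm
  · rw [Pi.single_eq_of_ne h, Pi.single_eq_of_ne h, Pi.single_eq_of_ne h, smul_zero, smul_zero, add_zero]

theorem kk_lin (hD : IsOpen D) (hb : b ∈ D) (z : κ → ℂ) (k : κ) (i : ι) :
    kk T b z k i = ∑ l, mM T b i k l * z l + ∑ l, mB T b i k l * conj (z l) := by
  have h1 : kk T b z k i = ∑ l, Wp_L T hD hb k i (Pi.single l (z l)) := by
    rw [← map_sum, Finset.univ_sum_single]
    rfl
  rw [h1, ← Finset.sum_add_distrib]
  refine Finset.sum_congr rfl fun l _ => ?_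
  have h4 : (Wp_L T hD hb k i) (Pi.single l (z l)) = (Wp_L T hD hb k i) ((z l).re • (Pi.single l 1 : κ → ℂ) + (z l).im • (Pi.single l I : κ → ℂ)) :=
    congrArg _ (Wp_single l (z l))
  rw [h4, map_add, map_smul, map_smul, Complex.real_smul, Complex.real_smul]
  show ((z l).re : ℂ) * kk T b (Pi.single l 1) k i + ((z l).im : ℂ) * kk T b (Pi.single l I) k i =
    (kk T b (Pi.single l 1) k i - I * kk T b (Pi.single l I) k i) / 2 * z l +
      (kk T b (Pi.single l 1) k i + I * kk T b (Pi.single l I) k i) / 2 * conj (z l)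
  have h2 : z l = ((z l).re : ℂ) + ((z l).im : ℂ) * I := (Complex.re_add_im (z l)).symm
  have h3 : conj (z l) = ((z l).re : ℂ) - ((z l).im : ℂ) * I := by
    conv_lhs => rw [h2]
    rw [map_add, map_mul, Complex.conj_ofReal, Complex.conj_ofReal, Complex.conj_I]
    ring
  rw [h3]
  conv_rhs => rw [h2]
  simp only [Complex.add_re, Complex.add_im, Complex.mul_re, Complex.mul_im, Complex.ofReal_re, Complex.ofReal_im, Complex.I_re, Complex.I_im,
    mul_zero, mul_one, sub_zero, add_zero, zero_add]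
  linear_combination (((z l).im : ℂ) * kk T b (Pi.single l I) k i) * Complex.I_mul_I

private theorem Wp_per_one (b : ι → ℂ) (l k : κ) : T.per b (Pi.single l 1) k = T.Z₁ b k l := by
  show ∑ m, T.Z₁ b k m * ((((Pi.single l 1 : κ → ℂ) m).re : ℝ) : ℂ) + ∑ m, T.Z₂ b k m * ((((Pi.single l 1 : κ → ℂ) m).im : ℝ) : ℂ) = _
  rw [Finset.sum_eq_single l, Finset.sum_eq_zero, Pi.single_eq_same, Complex.one_re, Complex.ofReal_one, mul_one, add_zero]
  · intro m _
    by_cases h : m = l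
    · subst h
      rw [Pi.single_eq_same, Complex.one_im, Complex.ofReal_zero, mul_zero]
    · rw [Pi.single_eq_of_ne h, Complex.zero_im, Complex.ofReal_zero, mul_zero]
  · intro m _ h
    rw [Pi.single_eq_of_ne h, Complex.zero_re, Complex.ofReal_zero, mul_zero]
  · intro h
    exact absurd (Finset.mem_univ l) h

private theorem Wp_per_I (b : ι → ℂ) (l k : κ) : T.per b (Pi.single l I) k = T.Z₂ b k l := by
  show ∑ m, T.Z₁ b k m * ((((Pi.single l I : κ → ℂ) m).re : ℝ) : ℂ) + ∑ m, T.Z₂ b k m * ((((Pi.single l I : κ → ℂ) m).im : ℝ) : ℂ) = _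
  rw [Finset.sum_eq_zero, Finset.sum_eq_single l, Pi.single_eq_same, Complex.I_im, Complex.ofReal_one, mul_one, zero_add]
  · intro m _ h
    rw [Pi.single_eq_of_ne h, Complex.zero_im, Complex.ofReal_zero, mul_zero]
  · intro h
    exact absurd (Finset.mem_univ l) h
  · intro m _
    by_cases h : m = l
    · subst h
      rw [Pi.single_eq_same, Complex.I_re, Complex.ofReal_zero, mul_zero]
    · rw [Pi.single_eq_of_ne h, Complex.zero_re, Complex.ofReal_zero, mul_zero]

private theorem Wp_dper (hb : b ∈ D) (v : κ → ℂ) (k : κ) (i : ι) : dper T b v k i = kk T b (T.per b v) k i := by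
  show dper T b v k i = dper T b (pinv T b (T.per b v)) k i
  rw [pinv_per hb]

private theorem Wp_Z₁ (hD : IsOpen D) (hb : b ∈ D) (i : ι) : mdz i T.Z₁ b = mM T b i * T.Z₁ b + mB T b i * mconj (T.Z₁ b) := by
  ext k l
  have h1 : (fun y => T.Z₁ y k l) = fun y => T.per y (Pi.single l 1) k := by
    funext y
    rw [Wp_per_one]
  have h2 : mdz i T.Z₁ b k l = kk T b (T.per b (Pi.single l 1)) k i := by
    rw [← Wp_dper hb]
    show dz i (fun y => T.Z₁ y k l) b = _
    rw [h1]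
    rfl
  rw [h2, kk_lin hD hb, Matrix.add_apply, Matrix.mul_apply, Matrix.mul_apply]
  congr 1
  · exact Finset.sum_congr rfl fun m _ => by rw [Wp_per_one]
  · exact Finset.sum_congr rfl fun m _ => by rw [Wp_per_one]; rfl

private theorem Wp_Z₂ (hD : IsOpen D) (hb : b ∈ D) (i : ι) : mdz i T.Z₂ b = mM T b i * T.Z₂ b + mB T b i * mconj (T.Z₂ b) := by
  ext k l
  have h1 : (fun y => T.Z₂ y k l) = fun y => T.per y (Pi.single l I) k := by
    funext y
    rw [Wp_per_I]
  have h2 : mdz i T.Z₂ b k l = kk T b (T.per b (Pi.single l I)) k i := by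
    rw [← Wp_dper hb]
    show dz i (fun y => T.Z₂ y k l) b = _
    rw [h1]
    rfl
  rw [h2, kk_lin hD hb, Matrix.add_apply, Matrix.mul_apply, Matrix.mul_apply]
  congr 1
  · exact Finset.sum_congr rfl fun m _ => by rw [Wp_per_I]
  · exact Finset.sum_congr rfl fun m _ => by rw [Wp_per_I]; rfl

private theorem Wp_conj {Z : (ι → ℂ) → Matrix κ κ ℂ} (hZ : ∀ k l, DifferentiableOn ℂ (fun y => Z y k l) D) (hD : IsOpen D) (hb : b ∈ D) (i : ι) (k l : κ) :
    dz i (fun y => mconj (Z y) k l) b = 0 := by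
  show dz i (fun y => conj (Z y k l)) b = 0
  rw [dz_conj, dzbar_hol i ((hZ k l b hb).differentiableAt (hD.mem_nhds hb)), map_zero]

private theorem Wp_mul (M B Z W Z' W' : Matrix κ κ ℂ) :
    fromBlocks M B (0 : Matrix κ κ ℂ) (0 : Matrix κ κ ℂ) * fromBlocks Z W Z' W' =
      fromBlocks (M * Z + B * Z') (M * W + B * W') (0 : Matrix κ κ ℂ) (0 : Matrix κ κ ℂ) := by
  rw [Matrix.fromBlocks_multiply]
  simp only [Matrix.zero_mul, add_zero]

theorem mdz_omg (hD : IsOpen D) (hb : b ∈ D) (i : ι) : mdz i (omg T) b = fromBlocks (mM T b i) (mB T b i) 0 0 * omg T b := by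
  have h0 : fromBlocks (mM T b i) (mB T b i) 0 0 * omg T b =
      fromBlocks (mdz i T.Z₁ b) (mdz i T.Z₂ b) (0 : Matrix κ κ ℂ) (0 : Matrix κ κ ℂ) := by
    rw [Wp_Z₁ hD hb, Wp_Z₂ hD hb]
    exact Wp_mul _ _ _ _ _ _
  rw [h0]
  ext k l
  rcases k with k | k <;> rcases l with l | l
  · rfl
  · rfl
  · exact Wp_conj T.Z₁_hol hD hb i k l
  · exact Wp_conj T.Z₂_hol hD hb i k l

private theorem Wp_dh {h : (ι → ℂ) → ℂ} (hh : DifferentiableOn ℂ h D) (hD : IsOpen D) (hb : b ∈ D) : DifferentiableAt ℝ h b :=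
  ((hh b hb).differentiableAt (hD.mem_nhds hb)).restrictScalars ℝ

private theorem Wp_dc {h : (ι → ℂ) → ℂ} (hh : DifferentiableOn ℂ h D) (hD : IsOpen D) (hb : b ∈ D) : DifferentiableAt ℝ (fun y => conj (h y)) b :=
  (Complex.conjCLE : ℂ →L[ℝ] ℂ).differentiableAt.comp b (Wp_dh hh hD hb)

theorem mdiff_omg (hD : IsOpen D) (hb : b ∈ D) : MDiff (omg T) b := by
  intro k l
  rcases k with k | k <;> rcases l with l | l
  · exact Wp_dh (T.Z₁_hol k l) hD hb
  · exact Wp_dh (T.Z₂_hol k l) hD hb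
  · exact Wp_dc (T.Z₁_hol k l) hD hb
  · exact Wp_dc (T.Z₂_hol k l) hD hb

/-- real parts of a solution -/
private theorem Wp_zero (hb : b ∈ D) (x y : κ → ℝ) (h : ∀ k, ∑ l, T.Z₁ b k l * ((x l : ℝ) : ℂ) + ∑ l, T.Z₂ b k l * ((y l : ℝ) : ℂ) = 0) :
    x = 0 ∧ y = 0 := by
  have h1 : T.per b (fun l => ⟨x l, y l⟩) = T.per b 0 := by
    funext k
    have h2 : T.per b 0 k = 0 := by
      show ∑ m, T.Z₁ b k m * ((((0 : κ → ℂ) m).re : ℝ) : ℂ) + ∑ m, T.Z₂ b k m * ((((0 : κ → ℂ) m).im : ℝ) : ℂ) = _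
      simp
    rw [h2]
    exact h k
  have h3 := (T.bij b hb).1 h1
  constructor
  · funext l
    exact congrArg Complex.re (congrFun h3 l)
  · funext l
    exact congrArg Complex.im (congrFun h3 l)

theorem omg_det_ne (hb : b ∈ D) : (omg T b).det ≠ 0 := by
  intro h0
  obtain ⟨v, hv, hv0⟩ := Matrix.exists_mulVec_eq_zero_iff.2 h0
  have e1 : ∀ k, ∑ l, T.Z₁ b k l * v (Sum.inl l) + ∑ l, T.Z₂ b k l * v (Sum.inr l) = 0 := by
    intro k
    have := congrFun hv0 (Sum.inl k)
    rw [Matrix.mulVec, dotProduct, Fintype.sum_sum_type] at this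
    exact this
  have e2 : ∀ k, ∑ l, conj (T.Z₁ b k l) * v (Sum.inl l) + ∑ l, conj (T.Z₂ b k l) * v (Sum.inr l) = 0 := by
    intro k
    have := congrFun hv0 (Sum.inr k)
    rw [Matrix.mulVec, dotProduct, Fintype.sum_sum_type] at this
    exact this
  have e3 : ∀ k, ∑ l, T.Z₁ b k l * conj (v (Sum.inl l)) + ∑ l, T.Z₂ b k l * conj (v (Sum.inr l)) = 0 := by
    intro k
    have := congrArg conj (e2 k)
    simp only [map_add, map_sum, map_mul, Complex.conj_conj, map_zero] at this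
    exact this
  have r1 := Wp_zero (T := T) hb (fun l => (v (Sum.inl l)).re) (fun l => (v (Sum.inr l)).re) fun k => by
    have h1 : ∀ z : ℂ, ((z.re : ℝ) : ℂ) = (z + conj z) / 2 := fun z => by
      rw [Complex.add_conj]
      push_cast
      ring
    have h2 : (∑ l, T.Z₁ b k l * v (Sum.inl l) + ∑ l, T.Z₂ b k l * v (Sum.inr l)) / 2 +
        (∑ l, T.Z₁ b k l * conj (v (Sum.inl l)) + ∑ l, T.Z₂ b k l * conj (v (Sum.inr l))) / 2 = 0 := by
      rw [e1 k, e3 k]
      ring
    rw [← h2]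
    simp only [h1, mul_div_assoc', mul_add, ← Finset.sum_div, Finset.sum_add_distrib]
    ring
  have r2 := Wp_zero (T := T) hb (fun l => (v (Sum.inl l)).im) (fun l => (v (Sum.inr l)).im) fun k => by
    have h1 : ∀ z : ℂ, ((z.im : ℝ) : ℂ) = (z - conj z) / (2 * I) := fun z => by
      rw [Complex.sub_conj]
      field_simp
      push_cast
      ring
    have h2 : (∑ l, T.Z₁ b k l * v (Sum.inl l) + ∑ l, T.Z₂ b k l * v (Sum.inr l)) / (2 * I) -
        (∑ l, T.Z₁ b k l * conj (v (Sum.inl l)) + ∑ l, T.Z₂ b k l * conj (v (Sum.inr l))) / (2 * I) = 0 := by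
      rw [e1 k, e3 k]
      ring
    rw [← h2]
    simp only [h1, mul_div_assoc', mul_sub, ← Finset.sum_div, Finset.sum_sub_distrib]
    ring
  apply hv
  funext l
  rcases l with l | l
  · exact Complex.ext (congrFun r1.1 l) (congrFun r2.1 l)
  · exact Complex.ext (congrFun r1.2 l) (congrFun r2.2 l)

theorem conj_det : ∃ s : ℂ, s ^ 2 = 1 ∧ ∀ b, conj (omg T b).det = s * (omg T b).det := by
  refine ⟨(fromBlocks (0 : Matrix κ κ ℂ) (1 : Matrix κ κ ℂ) (1 : Matrix κ κ ℂ) (0 : Matrix κ κ ℂ)).det, ?_, fun b => ?_⟩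
  · rw [sq, ← Matrix.det_mul, Matrix.fromBlocks_multiply]
    simp only [Matrix.mul_zero, Matrix.mul_one, zero_add, add_zero, Matrix.fromBlocks_one, Matrix.det_one]
  · rw [← Matrix.det_mul, RingHom.map_det]
    congr 1
    unfold omg
    rw [Matrix.fromBlocks_multiply]
    simp only [Matrix.zero_mul, Matrix.one_mul, zero_add, add_zero]
    ext k l
    rcases k with k | k <;> rcases l with l | l
    · rfl
    · rfl
    · exact Complex.conj_conj _
    · exact Complex.conj_conj _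

private theorem Wp_dz_det (hD : IsOpen D) (hb : b ∈ D) (i : ι) :
    dz i (fun y => (omg T y).det) b = (omg T b).det * (mM T b i).trace := by
  rw [dz_det (mdiff_omg hD hb), mdz_omg hD hb, Matrix.trace_mul_comm, Matrix.mul_assoc, Matrix.mul_adjugate, Matrix.mul_smul, Matrix.mul_one,
    Matrix.trace_smul, smul_eq_mul]
  congr 1
  rw [Matrix.trace, Fintype.sum_sum_type]
  simp only [Matrix.diag_apply, Matrix.fromBlocks_apply₁₁, Matrix.fromBlocks_apply₂₂, Matrix.zero_apply, Finset.sum_const_zero, add_zero]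
  rfl

theorem dz_logP (hD : IsOpen D) (hb : b ∈ D) (i : ι) : dz i (logP T) b = (mM T b i).trace := by
  obtain ⟨s, hs, hc⟩ := conj_det (T := T)
  have hs0 : s ≠ 0 := by
    rintro rfl
    norm_num at hs
  have hd0 := omg_det_ne (T := T) hb
  have hd := diff_det (mdiff_omg (T := T) hD hb)
  have hN : ∀ y, (((‖(omg T y).det‖ ^ 2 : ℝ)) : ℂ) = s * (omg T y).det ^ 2 := by
    intro y
    rw [← Complex.normSq_eq_norm_sq, Complex.normSq_eq_conj_mul_self, hc y]
    ring
  have h1 : logP T = fun y => (1 / 2 : ℂ) * ((Real.log (‖(omg T y).det‖ ^ 2) : ℝ) : ℂ) := by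
    funext y
    unfold logP
    rw [Real.log_pow]
    push_cast
    ring
  have hNd : DifferentiableAt ℝ (fun y => ‖(omg T y).det‖ ^ 2) b := by
    exact (hd.norm_sq ℂ)
  have hN0 : ‖(omg T b).det‖ ^ 2 ≠ 0 := pow_ne_zero 2 (norm_ne_zero_iff.2 hd0)
  have h2 : dz i (fun y => (((‖(omg T y).det‖ ^ 2 : ℝ)) : ℂ)) b = s * (2 * (omg T b).det * ((omg T b).det * (mM T b i).trace)) := by
    have e : (fun y => (((‖(omg T y).det‖ ^ 2 : ℝ)) : ℂ)) = fun y => s * ((omg T y).det * (omg T y).det) := by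
      funext y
      rw [hN y, sq]
    have hd2 : DifferentiableAt ℝ (fun y => (omg T y).det * (omg T y).det) b := hd.mul hd
    rw [e, dz_const_mul i s hd2, dz_mul i hd hd, Wp_dz_det hD hb]
    ring
  have hL : DifferentiableAt ℝ (fun y => ((Real.log (‖(omg T y).det‖ ^ 2) : ℝ) : ℂ)) b :=
    Complex.ofRealCLM.differentiableAt.comp b (hNd.log hN0)
  rw [h1, dz_const_mul i _ hL, dz_logR hNd hN0, h2, Complex.ofReal_inv, hN b]
  field_simp

theorem dz_ldm_flat (hD : IsOpen D) (hg : IsKahler (tot κ D) S gm) (hf : FibreFlat T gm) (hb : b ∈ D) (i : ι) :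
    dz i (ldm (hv gm)) b = -(mM T b i).trace := by
  have hp : ∀ y ∈ D, (hv gm y).PosDef := fun y hy => hv_posDefR hg hy
  have hu : IsUnit (hv gm b).det := by
    have := (hp b hb).det_pos
    exact isUnit_iff_ne_zero.2 this.ne'
  rw [dz_ldm hD (fun k l => hv_smoothR hg k l) hp hb, rel_h hD hg hf hb, Matrix.mul_neg, Matrix.trace_neg, Matrix.trace_mul_comm, Matrix.mul_assoc,
    Matrix.mul_nonsing_inv _ hu, Matrix.mul_one, Matrix.trace_transpose]

private theorem Wp_bar {u : (ι → ℂ) → ℂ} (hu : ∀ y, conj (u y) = u y) (j : ι) (y : ι → ℂ) : dzbar j u y = conj (dz j u y) := by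
  have h1 : (fun y => conj (u y)) = u := funext hu
  rw [← dzbar_conj, h1]

private theorem Wp_neg (i : ι) (u : (ι → ℂ) → ℂ) (y : ι → ℂ) : dz i (fun x => -u x) y = -dz i u y := by
  unfold dz
  rw [fderiv_fun_neg]
  simp only [_root_.neg_apply]
  ring

theorem wp_eq (hD : IsOpen D) (hg : IsKahler (tot κ D) S gm) (hf : FibreFlat T gm) (hb : b ∈ D) (i j : ι) :
    dz i (fun y => dzbar j (ldm (hv gm)) y) b = -dz i (fun y => dzbar j (logP T) y) b := by
  rw [← Wp_neg]
  refine dz_congr_on hD (fun y hy => ?_) hb i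
  rw [Wp_bar (u := ldm (hv gm)) (fun y => Complex.conj_ofReal _), Wp_bar (u := logP T) (fun y => Complex.conj_ofReal _), dz_ldm_flat hD hg hf hy,
    dz_logP hD hy, map_neg]

/-- The twisted scalar curvature depends only on the family. -/
theorem twscal_eq (hD : IsOpen D) (hg : IsKahler (tot κ D) S gm) (hf : FibreFlat T gm) (hb : b ∈ D) (β : (ι → ℂ) → Matrix ι ι ℂ) :
    twscal gm β b = twsc T β b := by
  unfold twscal twsc wpf
  simp only [wp_eq hD hg hf hb, Matrix.of_apply]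

end TRed
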