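import Pool.Agent.Lib.MP_464db4_gt.TR.Defs
import Pool.Agent.Lib.MP_464db4_gt.KG.Nat

/-!
# TR-Calc: Wirtinger derivatives of matrix valued functions
-/

namespace TRed

open Complex Matrix MeasureTheory YT
open scoped ContDiff ComplexConjugate ComplexOrder

variable {ι α β γ κ : Type} [Fintype ι] [DecidableEq ι] [Fintype α] [Fintype β] [Fintype γ] [Fintype κ] [DecidableEq κ] {U : Set (ι → ℂ)} {b : ι → ℂ}

/-- The matrix of the derivatives `∂/∂z_i` of the entries. -/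
noncomputable def mdz (i : ι) (M : (ι → ℂ) → Matrix α β ℂ) (b : ι → ℂ) : Matrix α β ℂ := Matrix.of fun k l => dz i (fun y => M y k l) b

/-- The matrix of the derivatives `∂/∂z̄_i` of the entries. -/
noncomputable def mdb (i : ι) (M : (ι → ℂ) → Matrix α β ℂ) (b : ι → ℂ) : Matrix α β ℂ := Matrix.of fun k l => dzbar i (fun y => M y k l) b

/-- The entries are differentiable at `b`. -/
def MDiff (M : (ι → ℂ) → Matrix α β ℂ) (b : ι → ℂ) : Prop := ∀ k l, DifferentiableAt ℝ (fun y => M y k l) b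

theorem MDiff.mul {M : (ι → ℂ) → Matrix α β ℂ} {N : (ι → ℂ) → Matrix β γ ℂ} (hM : MDiff M b) (hN : MDiff N b) : MDiff (fun y => M y * N y) b := by
  intro k l
  have h1 : (fun y => (M y * N y) k l) = fun y => ∑ j, M y k j * N y j l := by
    funext y
    rw [Matrix.mul_apply]
  show DifferentiableAt ℝ (fun y => (M y * N y) k l) b
  rw [h1]
  exact DifferentiableAt.fun_sum fun j _ => (hM k j).mul (hN j l)

theorem MDiff.add {M N : (ι → ℂ) → Matrix α β ℂ} (hM : MDiff M b) (hN : MDiff N b) : MDiff (fun y => M y + N y) b := by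
  exact fun k l => (hM k l).add (hN k l)

theorem MDiff.sub {M N : (ι → ℂ) → Matrix α β ℂ} (hM : MDiff M b) (hN : MDiff N b) : MDiff (fun y => M y - N y) b := by
  exact fun k l => (hM k l).sub (hN k l)

theorem MDiff.smul {M : (ι → ℂ) → Matrix α β ℂ} (c : ℂ) (hM : MDiff M b) : MDiff (fun y => c • M y) b := by
  exact fun k l => (hM k l).const_smul c

theorem MDiff.conjT {M : (ι → ℂ) → Matrix α β ℂ} (hM : MDiff M b) : MDiff (fun y => (M y)ᴴ) b := by
  intro k l
  exact (Complex.conjCLE : ℂ →L[ℝ] ℂ).differentiableAt.comp b (hM l k)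

theorem mdz_mul {M : (ι → ℂ) → Matrix α β ℂ} {N : (ι → ℂ) → Matrix β γ ℂ} (hM : MDiff M b) (hN : MDiff N b) (i : ι) :
    mdz i (fun y => M y * N y) b = mdz i M b * N b + M b * mdz i N b := by
  ext k l
  have h1 : (fun y => (M y * N y) k l) = fun y => ∑ j, M y k j * N y j l := by
    funext y
    rw [Matrix.mul_apply]
  show dz i (fun y => (M y * N y) k l) b = (mdz i M b * N b + M b * mdz i N b) k l
  rw [h1, dz_sum Finset.univ (fun j y => M y k j * N y j l) i fun j _ => (hM k j).mul (hN j l), Matrix.add_apply, Matrix.mul_apply,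
    Matrix.mul_apply, ← Finset.sum_add_distrib]
  refine Finset.sum_congr rfl fun j _ => ?_
  exact dz_mul i (hM k j) (hN j l)

theorem mdb_mul {M : (ι → ℂ) → Matrix α β ℂ} {N : (ι → ℂ) → Matrix β γ ℂ} (hM : MDiff M b) (hN : MDiff N b) (i : ι) :
    mdb i (fun y => M y * N y) b = mdb i M b * N b + M b * mdb i N b := by
  ext k l
  have h1 : (fun y => (M y * N y) k l) = fun y => ∑ j, M y k j * N y j l := by
    funext y
    rw [Matrix.mul_apply]
  show dzbar i (fun y => (M y * N y) k l) b = (mdb i M b * N b + M b * mdb i N b) k l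
  rw [h1, dzbar_sum Finset.univ (fun j y => M y k j * N y j l) i fun j _ => (hM k j).mul (hN j l), Matrix.add_apply, Matrix.mul_apply,
    Matrix.mul_apply, ← Finset.sum_add_distrib]
  refine Finset.sum_congr rfl fun j _ => ?_
  exact dzbar_mul i (hM k j) (hN j l)

theorem mdz_add {M N : (ι → ℂ) → Matrix α β ℂ} (hM : MDiff M b) (hN : MDiff N b) (i : ι) :
    mdz i (fun y => M y + N y) b = mdz i M b + mdz i N b := by
  ext k l
  exact dz_add i (hM k l) (hN k l)

theorem mdb_add {M N : (ι → ℂ) → Matrix α β ℂ} (hM : MDiff M b) (hN : MDiff N b) (i : ι) :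
    mdb i (fun y => M y + N y) b = mdb i M b + mdb i N b := by
  ext k l
  exact dzbar_add i (hM k l) (hN k l)

theorem mdz_sub {M N : (ι → ℂ) → Matrix α β ℂ} (hM : MDiff M b) (hN : MDiff N b) (i : ι) :
    mdz i (fun y => M y - N y) b = mdz i M b - mdz i N b := by
  ext k l
  exact dz_sub i (hM k l) (hN k l)

theorem mdb_sub {M N : (ι → ℂ) → Matrix α β ℂ} (hM : MDiff M b) (hN : MDiff N b) (i : ι) :
    mdb i (fun y => M y - N y) b = mdb i M b - mdb i N b := by
  ext k l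
  exact dzbar_sub i (hM k l) (hN k l)

theorem mdz_smul {M : (ι → ℂ) → Matrix α β ℂ} (c : ℂ) (hM : MDiff M b) (i : ι) : mdz i (fun y => c • M y) b = c • mdz i M b := by
  ext k l
  exact dz_const_mul i c (hM k l)

theorem mdb_smul {M : (ι → ℂ) → Matrix α β ℂ} (c : ℂ) (hM : MDiff M b) (i : ι) : mdb i (fun y => c • M y) b = c • mdb i M b := by
  ext k l
  exact dzbar_const_mul i c (hM k l)

theorem mdz_conjT (M : (ι → ℂ) → Matrix α β ℂ) (i : ι) : mdz i (fun y => (M y)ᴴ) b = (mdb i M b)ᴴ := by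
  ext k l
  exact dz_conj i (fun y => M y l k) b

theorem mdb_conjT (M : (ι → ℂ) → Matrix α β ℂ) (i : ι) : mdb i (fun y => (M y)ᴴ) b = (mdz i M b)ᴴ := by
  ext k l
  exact dzbar_conj i (fun y => M y l k) b

private theorem Calc_pos {h : (ι → ℂ) → Matrix κ κ ℂ} (hp : ∀ y ∈ U, (h y).PosDef) (hb : b ∈ U) : 0 < (h b).det.re := by
  have h1 := (hp b hb).det_pos
  rw [Complex.pos_iff] at h1
  exact h1.1

private theorem Calc_ne {h : (ι → ℂ) → Matrix κ κ ℂ} (hp : ∀ y ∈ U, (h y).PosDef) (hb : b ∈ U) : (h b).det ≠ 0 := by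
  intro h0
  have h1 := Calc_pos hp hb
  rw [h0] at h1
  exact lt_irrefl _ h1

private theorem Calc_det {h : (ι → ℂ) → Matrix κ κ ℂ} (hs : ∀ k l, ContDiffOn ℝ ∞ (fun y => h y k l) U) :
    ContDiffOn ℝ ∞ (fun y => (h y).det) U := by
  simp only [Matrix.det_apply']
  exact ContDiffOn.sum fun σ _ => contDiffOn_const.mul (contDiffOn_prod fun i _ => hs (σ i) i)

/-- The entries of the inverse are smooth. -/
theorem inv_smoothR {h : (ι → ℂ) → Matrix κ κ ℂ} (hs : ∀ k l, ContDiffOn ℝ ∞ (fun y => h y k l) U) (hp : ∀ y ∈ U, (h y).PosDef) (k l : κ) :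
    ContDiffOn ℝ ∞ (fun y => (h y)⁻¹ k l) U := by
  have h1 : ContDiffOn ℝ ∞ (fun y => ((h y).updateRow l (Pi.single k 1)).det) U := by
    refine Calc_det (h := fun y => (h y).updateRow l (Pi.single k 1)) fun i j => ?_
    by_cases hi : i = l
    · subst hi
      simp only [Matrix.updateRow_self]
      exact contDiffOn_const
    · simp only [Matrix.updateRow_ne hi]
      exact hs i j
  have h2 : ContDiffOn ℝ ∞ (fun y => ((h y).det)⁻¹) U := (Calc_det hs).inv fun y hy => Calc_ne hp hy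
  refine (h2.mul h1).congr fun y _ => ?_
  rw [Matrix.inv_def, Ring.inverse_eq_inv', Matrix.smul_apply, smul_eq_mul, Matrix.adjugate_apply]

theorem MDiff.of_smooth {M : (ι → ℂ) → Matrix α β ℂ} (hU : IsOpen U) (hs : ∀ k l, ContDiffOn ℝ ∞ (fun y => M y k l) U) (hb : b ∈ U) : MDiff M b := by
  exact fun k l => ((hs k l).contDiffAt (hU.mem_nhds hb)).differentiableAt (by simp)

theorem mdz_inv {h : (ι → ℂ) → Matrix κ κ ℂ} (hU : IsOpen U) (hs : ∀ k l, ContDiffOn ℝ ∞ (fun y => h y k l) U) (hp : ∀ y ∈ U, (h y).PosDef) (hb : b ∈ U)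
    (i : ι) : mdz i (fun y => (h y)⁻¹) b = -((h b)⁻¹ * mdz i h b * (h b)⁻¹) := by
  have hu : IsUnit (h b).det := isUnit_iff_ne_zero.2 (Calc_ne hp hb)
  have d1 : MDiff h b := MDiff.of_smooth hU hs hb
  have d2 : MDiff (fun y => (h y)⁻¹) b := MDiff.of_smooth hU (inv_smoothR hs hp) hb
  have h1 : mdz i (fun y => h y * (h y)⁻¹) b = 0 := by
    ext k l
    have h2 : ∀ y ∈ U, (h y * (h y)⁻¹) k l = (1 : Matrix κ κ ℂ) k l := fun y hy => by
      rw [Matrix.mul_nonsing_inv _ (isUnit_iff_ne_zero.2 (Calc_ne hp hy))]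
    show dz i (fun y => (h y * (h y)⁻¹) k l) b = 0
    rw [dz_congr_on hU h2 hb, dz_const]
  rw [mdz_mul d1 d2] at h1
  have h4 : h b * mdz i (fun y => (h y)⁻¹) b = -(mdz i h b * (h b)⁻¹) := by
    rw [eq_neg_iff_add_eq_zero, add_comm]
    exact h1
  calc mdz i (fun y => (h y)⁻¹) b = (h b)⁻¹ * (h b * mdz i (fun y => (h y)⁻¹) b) := by
        rw [Matrix.nonsing_inv_mul_cancel_left _ _ hu]
    _ = -((h b)⁻¹ * mdz i h b * (h b)⁻¹) := by rw [h4, Matrix.mul_neg, Matrix.mul_assoc]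

theorem mdb_inv {h : (ι → ℂ) → Matrix κ κ ℂ} (hU : IsOpen U) (hs : ∀ k l, ContDiffOn ℝ ∞ (fun y => h y k l) U) (hp : ∀ y ∈ U, (h y).PosDef) (hb : b ∈ U)
    (i : ι) : mdb i (fun y => (h y)⁻¹) b = -((h b)⁻¹ * mdb i h b * (h b)⁻¹) := by
  have hu : IsUnit (h b).det := isUnit_iff_ne_zero.2 (Calc_ne hp hb)
  have d1 : MDiff h b := MDiff.of_smooth hU hs hb
  have d2 : MDiff (fun y => (h y)⁻¹) b := MDiff.of_smooth hU (inv_smoothR hs hp) hb
  have h1 : mdb i (fun y => h y * (h y)⁻¹) b = 0 := by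
    ext k l
    have h2 : ∀ y ∈ U, (h y * (h y)⁻¹) k l = (1 : Matrix κ κ ℂ) k l := fun y hy => by
      rw [Matrix.mul_nonsing_inv _ (isUnit_iff_ne_zero.2 (Calc_ne hp hy))]
    show dzbar i (fun y => (h y * (h y)⁻¹) k l) b = 0
    rw [dzbar_congr_on hU h2 hb, dzbar_const]
  rw [mdb_mul d1 d2] at h1
  have h4 : h b * mdb i (fun y => (h y)⁻¹) b = -(mdb i h b * (h b)⁻¹) := by
    rw [eq_neg_iff_add_eq_zero, add_comm]
    exact h1
  calc mdb i (fun y => (h y)⁻¹) b = (h b)⁻¹ * (h b * mdb i (fun y => (h y)⁻¹) b) := by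
        rw [Matrix.nonsing_inv_mul_cancel_left _ _ hu]
    _ = -((h b)⁻¹ * mdb i h b * (h b)⁻¹) := by rw [h4, Matrix.mul_neg, Matrix.mul_assoc]

/-- `log det` is smooth. -/
theorem ldm_smoothR {h : (ι → ℂ) → Matrix κ κ ℂ} (hs : ∀ k l, ContDiffOn ℝ ∞ (fun y => h y k l) U) (hp : ∀ y ∈ U, (h y).PosDef) :
    ContDiffOn ℝ ∞ (ldm h) U := by
  have h1 : ContDiffOn ℝ ∞ (fun y => (h y).det.re) U := Complex.reCLM.contDiff.comp_contDiffOn (Calc_det hs)
  have h2 : ContDiffOn ℝ ∞ (fun y => Real.log (h y).det.re) U := h1.log fun y hy => (Calc_pos hp hy).ne'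
  exact Complex.ofRealCLM.contDiff.comp_contDiffOn h2

end TRed
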