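import Pool.Agent.Lib.MP_464db4_gt.TR.PrimE

/-!
# TR-Flat: every Kaehler class contains a form which is invariant under all real translations of the fibres
-/

namespace TRed

open Complex Matrix MeasureTheory YT
open scoped ContDiff ComplexConjugate ComplexOrder

variable {ι κ : Type} [Fintype ι] [DecidableEq ι] [Fintype κ] [DecidableEq κ] {G : Type} [Group G] {D : Set (ι → ℂ)} {f : G → (ι → ℂ) → (ι → ℂ)}

theorem exists_flat (hB : CompactBase D f) (T : TorusFamily κ D f) {g : (ι ⊕ κ → ℂ) → Matrix (ι ⊕ κ) (ι ⊕ κ) ℂ}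
    (hg : IsKahler (tot κ D) T.total g) :
    ∃ gm, IsKahler (tot κ D) T.total gm ∧ FibreFlat T gm ∧ Cohomologous (tot κ D) T.total g gm := by
  obtain ⟨μ, hμ, he⟩ := coh_kavg hB hg
  refine ⟨kavg T μ g, kavg_isKahler hB hμ hg, fun w x hx => ?_, he⟩
  rw [jac_tr T hB.isOpen w hx]
  exact kavg_tr hB.isOpen hμ hg w hx

end TRed
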