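import Pool.Agent.Lib.MP_464db4_gt.TR.Rel

/-!
# TR-SchA: the Schur complement is closed

`sch gm = P - Q h⁻¹ Qᴴ` at `(b,0)`.  `h⁻¹ mBᴴ` is symmetric: from `rel_B` (`mBᵀ h = hᵀ mB`) and `hᴴ = h` (`hinv_B`).
`mdz k (Q h⁻¹ Qᴴ) = (mdz k Q) h⁻¹ Qᴴ + Q (h⁻¹ mM_kᵀ) Qᴴ + Q h⁻¹ (mdb k Q)ᴴ` (`mdz_mul`, `mdz_inv`, `rel_h`, `mdz_conjT`), `(mdb k Q)ᴴ = -(eB Q k)ᴴ - mM_kᵀ Qᴴ` (`rel_qb`; `(mconj M)ᴴ = Mᵀ`), so it is
`(mdz k Q) h⁻¹ Qᴴ - Q h⁻¹ (eB Q k)ᴴ`; the entry `(i,j)` of the first term is symmetric in `i`, `k` by `rel_q`, that of the second is `∑ Q i m (h⁻¹ mB_jᴴ) m n Q k n`, symmetric by `hinv_B`.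
-/

namespace TRed

open Complex Matrix MeasureTheory YT
open scoped ContDiff ComplexConjugate ComplexOrder

variable {ι κ : Type} [Fintype ι] [DecidableEq ι] [Fintype κ] [DecidableEq κ] {G : Type} [Group G] {D : Set (ι → ℂ)}
  {f : G → (ι → ℂ) → (ι → ℂ)} {T : TorusFamily κ D f} {gm : (ι ⊕ κ → ℂ) → Matrix (ι ⊕ κ) (ι ⊕ κ) ℂ} {S : Set ((ι ⊕ κ → ℂ) → (ι ⊕ κ → ℂ))} {b : ι → ℂ}

theorem sch_eq (gm : (ι ⊕ κ → ℂ) → Matrix (ι ⊕ κ) (ι ⊕ κ) ℂ) (b : ι → ℂ) : sch gm b = pb gm b - qb gm b * (hv gm b)⁻¹ * (qb gm b)ᴴ := rfl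

theorem mdiff_hv (hD : IsOpen D) (hg : IsKahler (tot κ D) S gm) (hb : b ∈ D) : MDiff (hv gm) b :=
  MDiff.of_smooth hD (fun k l => hv_smoothR hg k l) hb

theorem mdiff_hinv (hD : IsOpen D) (hg : IsKahler (tot κ D) S gm) (hb : b ∈ D) : MDiff (fun y => (hv gm y)⁻¹) b :=
  MDiff.of_smooth hD (fun k l => inv_smoothR (fun k l => hv_smoothR hg k l) (fun _ hy => hv_posDefR hg hy) k l) hb

theorem mdiff_qb (hD : IsOpen D) (hg : IsKahler (tot κ D) S gm) (hb : b ∈ D) : MDiff (qb gm) b :=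
  MDiff.of_smooth hD (fun k l => qb_smooth hg k l) hb

theorem mdiff_pb (hD : IsOpen D) (hg : IsKahler (tot κ D) S gm) (hb : b ∈ D) : MDiff (pb gm) b :=
  MDiff.of_smooth hD (fun k l => pb_smooth hg k l) hb

private theorem scha_unit (hg : IsKahler (tot κ D) S gm) (hb : b ∈ D) : IsUnit (hv gm b).det :=
  isUnit_iff_ne_zero.mpr (ne_of_gt (hv_posDefR hg hb).det_pos)

/-- `mdz i (h⁻¹) = h⁻¹ mM_iᵀ`. -/
theorem hinv_dz (hD : IsOpen D) (hg : IsKahler (tot κ D) S gm) (hf : FibreFlat T gm) (hb : b ∈ D) (i : ι) :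
    mdz i (fun y => (hv gm y)⁻¹) b = (hv gm b)⁻¹ * (mM T b i)ᵀ := by
  have hu := scha_unit hg hb
  rw [mdz_inv hD (fun k l => hv_smoothR hg k l) (fun _ hy => hv_posDefR hg hy) hb i, rel_h hD hg hf hb i,
    Matrix.mul_neg, Matrix.neg_mul, neg_neg, Matrix.mul_assoc, Matrix.mul_assoc, Matrix.mul_nonsing_inv _ hu,
    Matrix.mul_one]

/-- `mdb i (h⁻¹) = mconj mM_i h⁻¹`. -/
theorem hinv_dzbar (hD : IsOpen D) (hg : IsKahler (tot κ D) S gm) (hf : FibreFlat T gm) (hb : b ∈ D) (i : ι) :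
    mdb i (fun y => (hv gm y)⁻¹) b = mconj (mM T b i) * (hv gm b)⁻¹ := by
  have hu := scha_unit hg hb
  rw [mdb_inv hD (fun k l => hv_smoothR hg k l) (fun _ hy => hv_posDefR hg hy) hb i, rel_hb hD hg hf hb i,
    Matrix.mul_neg, Matrix.neg_mul, neg_neg, ← Matrix.mul_assoc, Matrix.nonsing_inv_mul _ hu, Matrix.one_mul]

private theorem scha_relB (hD : IsOpen D) (hg : IsKahler (tot κ D) S gm) (hf : FibreFlat T gm) (hb : b ∈ D) (i : ι) :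
    (hv gm b)ᵀ * mB T b i = (mB T b i)ᵀ * hv gm b := by
  have h := rel_B hD hg hf hb i
  rw [Matrix.transpose_mul, Matrix.transpose_transpose] at h
  exact h

private theorem scha_ct (M : Matrix κ κ ℂ) : (Mᵀ)ᴴ = (Mᴴ)ᵀ := by
  ext i j
  rfl

/-- `h⁻¹ mBᴴ` is symmetric. -/
theorem hinv_B (hD : IsOpen D) (hg : IsKahler (tot κ D) S gm) (hf : FibreFlat T gm) (hb : b ∈ D) (i : ι) :
    ((hv gm b)⁻¹ * (mB T b i)ᴴ)ᵀ = (hv gm b)⁻¹ * (mB T b i)ᴴ := by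
  have hu := scha_unit hg hb
  have hu' : IsUnit ((hv gm b)ᵀ).det := by rw [Matrix.det_transpose]; exact hu
  have hh : (hv gm b)ᴴ = hv gm b := (hv_posDefR hg hb).isHermitian
  have h1 := congrArg Matrix.conjTranspose (scha_relB hD hg hf hb i)
  rw [Matrix.conjTranspose_mul, Matrix.conjTranspose_mul, hh] at h1
  have h2 : ((hv gm b)ᵀ)ᴴ = (hv gm b)ᵀ := by
    rw [scha_ct, hh]
  have h3 : ((mB T b i)ᵀ)ᴴ = ((mB T b i)ᴴ)ᵀ := scha_ct _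
  rw [h2, h3] at h1
  -- `Bᴴ hᵀ = h (Bᴴ)ᵀ`
  calc ((hv gm b)⁻¹ * (mB T b i)ᴴ)ᵀ = ((mB T b i)ᴴ)ᵀ * ((hv gm b)ᵀ)⁻¹ := by
        rw [Matrix.transpose_mul, Matrix.transpose_nonsing_inv]
    _ = (hv gm b)⁻¹ * (hv gm b * ((mB T b i)ᴴ)ᵀ) * ((hv gm b)ᵀ)⁻¹ := by
        rw [← Matrix.mul_assoc, Matrix.nonsing_inv_mul _ hu, Matrix.one_mul]
    _ = (hv gm b)⁻¹ * (mB T b i)ᴴ := by
        rw [← h1, Matrix.mul_assoc, Matrix.mul_assoc, Matrix.mul_nonsing_inv _ hu', Matrix.mul_one]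

/-- `mB h⁻¹` is symmetric. -/
theorem hinv_B' (hD : IsOpen D) (hg : IsKahler (tot κ D) S gm) (hf : FibreFlat T gm) (hb : b ∈ D) (i : ι) :
    (mB T b i * (hv gm b)⁻¹)ᵀ = mB T b i * (hv gm b)⁻¹ := by
  have hu := scha_unit hg hb
  have hu' : IsUnit ((hv gm b)ᵀ).det := by rw [Matrix.det_transpose]; exact hu
  have h1 := scha_relB hD hg hf hb i
  calc (mB T b i * (hv gm b)⁻¹)ᵀ = ((hv gm b)ᵀ)⁻¹ * (mB T b i)ᵀ := by
        rw [Matrix.transpose_mul, Matrix.transpose_nonsing_inv]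
    _ = ((hv gm b)ᵀ)⁻¹ * ((mB T b i)ᵀ * hv gm b) * (hv gm b)⁻¹ := by
        rw [Matrix.mul_assoc, Matrix.mul_assoc, Matrix.mul_nonsing_inv _ hu, Matrix.mul_one]
    _ = mB T b i * (hv gm b)⁻¹ := by
        rw [← h1, ← Matrix.mul_assoc, Matrix.nonsing_inv_mul _ hu', Matrix.one_mul]

private theorem scha_mconjT (M : Matrix κ κ ℂ) : (mconj M)ᴴ = Mᵀ := by
  ext i j
  simp [mconj, Matrix.conjTranspose_apply]

private theorem scha_mdz (hD : IsOpen D) (hg : IsKahler (tot κ D) S gm) (hf : FibreFlat T gm) (hb : b ∈ D) (k : ι) :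
    mdz k (sch gm) b = mdz k (pb gm) b - (mdz k (qb gm) b * ((hv gm b)⁻¹ * (qb gm b)ᴴ) -
      qb gm b * ((hv gm b)⁻¹ * (eB T b (qb gm b) k)ᴴ)) := by
  have hQ := mdiff_qb hD hg hb
  have hI := mdiff_hinv hD hg hb
  have hP := mdiff_pb hD hg hb
  have e0 : sch gm = fun y => pb gm y - qb gm y * (hv gm y)⁻¹ * (qb gm y)ᴴ := rfl
  have e1 : mdz k (sch gm) b = mdz k (pb gm) b - mdz k (fun y => qb gm y * (hv gm y)⁻¹ * (qb gm y)ᴴ) b := by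
    rw [e0]
    exact mdz_sub hP ((hQ.mul hI).mul hQ.conjT) k
  have e2 : mdz k (fun y => qb gm y * (hv gm y)⁻¹ * (qb gm y)ᴴ) b =
      mdz k (fun y => qb gm y * (hv gm y)⁻¹) b * (qb gm b)ᴴ + qb gm b * (hv gm b)⁻¹ * mdz k (fun y => (qb gm y)ᴴ) b :=
    mdz_mul (hQ.mul hI) hQ.conjT k
  have e3 : mdz k (fun y => qb gm y * (hv gm y)⁻¹) b =
      mdz k (qb gm) b * (hv gm b)⁻¹ + qb gm b * mdz k (fun y => (hv gm y)⁻¹) b := mdz_mul hQ hI k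
  have e4 : mdz k (fun y => (qb gm y)ᴴ) b = (mdb k (qb gm) b)ᴴ := mdz_conjT (qb gm) k
  rw [e1, e2, e3, e4, hinv_dz hD hg hf hb k, rel_qb hD hg hf hb k, Matrix.conjTranspose_sub, Matrix.conjTranspose_neg,
    Matrix.conjTranspose_mul, scha_mconjT]
  congr 1
  rw [Matrix.add_mul, Matrix.mul_sub, Matrix.mul_neg]
  simp only [Matrix.mul_assoc]
  abel

private theorem scha_eB (Q : Matrix ι κ ℂ) (H : Matrix κ κ ℂ) (i j k : ι) :
    (Q * (H * (eB T b Q k)ᴴ)) i j = (Q * (H * (mB T b j)ᴴ) * Qᵀ) i k := by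
  have h1 : ∀ n, (eB T b Q k)ᴴ n j = ((mB T b j)ᴴ * Qᵀ) n k := by
    intro n
    rw [Matrix.conjTranspose_apply, eB, Matrix.of_apply, Matrix.mul_apply, star_sum]
    refine Finset.sum_congr rfl fun l _ => ?_
    rw [Matrix.conjTranspose_apply, Matrix.transpose_apply, star_mul']
    simp only [RCLike.star_def, Complex.conj_conj]
    ring
  rw [Matrix.mul_assoc, Matrix.mul_assoc, Matrix.mul_apply, Matrix.mul_apply]
  refine Finset.sum_congr rfl fun m _ => ?_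
  rw [Matrix.mul_apply, Matrix.mul_apply]
  congr 1
  exact Finset.sum_congr rfl fun n _ => by rw [h1 n]

theorem sch_closed (hD : IsOpen D) (hg : IsKahler (tot κ D) S gm) (hf : FibreFlat T gm) (hb : b ∈ D) (i j k : ι) :
    dz k (fun y => sch gm y i j) b = dz i (fun y => sch gm y k j) b := by
  have e1 : ∀ k i : ι, dz k (fun y => sch gm y i j) b = mdz k (sch gm) b i j := fun _ _ => rfl
  rw [e1 k i, e1 i k, scha_mdz hD hg hf hb k, scha_mdz hD hg hf hb i]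
  rw [Matrix.sub_apply, Matrix.sub_apply, Matrix.sub_apply, Matrix.sub_apply, rel_p hD hg hb i j k]
  congr 2
  · rw [Matrix.mul_apply, Matrix.mul_apply]
    refine Finset.sum_congr rfl fun m _ => ?_
    rw [rel_q hD hg hb i k m]
  · rw [scha_eB (T := T) (b := b), scha_eB (T := T) (b := b)]
    have h1 : (qb gm b * ((hv gm b)⁻¹ * (mB T b j)ᴴ) * (qb gm b)ᵀ)ᵀ =
        qb gm b * ((hv gm b)⁻¹ * (mB T b j)ᴴ) * (qb gm b)ᵀ := by
      rw [Matrix.transpose_mul, Matrix.transpose_mul, Matrix.transpose_transpose, hinv_B hD hg hf hb j,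
        ← Matrix.mul_assoc]
    have h2 := congrFun (congrFun h1 k) i
    rw [Matrix.transpose_apply] at h2
    exact h2

end TRed
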