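import Pool.Agent.Lib.MP_464db4_gt.TR.Wp
import Pool.Agent.Lib.MP_464db4_gt.TR.SchA

/-!
# TR-Pos: the twisting form `W = -i ∂∂̄ log |det omg|` is semipositive

* `mdz_omg` (TR-Wp): `mdz i omg = nn i * omg`, `nn i = fromBlocks mM_i mB_i 0 0`, on the open set `D`.  `omg` is invertible, so `nn i = mdz i omg * omg⁻¹` has differentiable entries (`MDiff.congr`-type argument: `dz`,
  `dzbar` depend only on the germ; the entries of `omg⁻¹`: `Matrix.inv_def`, entries of `adjugate` are polynomials, `det ≠ 0`; or solve with `adjugate`).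
* `mdb_omg`: `mdb j omg = fromBlocks 0 0 (mconj mB_j) (mconj mM_j) * omg`: the rows of `Z` are holomorphic, and `dzbar j (conj Z) = conj (dz j Z)`, `∂_j Z₁ = mM Z₁ + mB Z̄₁` and the same for `Z₂` (`mdz_omg`).
* `mdb j (mdz i omg) = 0` (`dz_dzbar_comm`, `dzbar_hol`, the lower rows of `mdz i omg` are `0` on `D`), so `mdb j (nn i) * omg = -nn i * mdb j omg = -nn i * fromBlocks 0 0 B̄ M̄ * omg`, cancel `omg`:
  `mdb j (nn i) = -fromBlocks (mB_i mconj mB_j) (mB_i mconj mM_j) 0 0`; the trace of the left upper block: `trace_dzbar`.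
* `wp_formula`: `dz i (logP T) = trace mM_i` on `D` (`dz_logP`), `dz_dzbar_comm`.
* `trace_sym`: `B = N h`, `N = B h⁻¹` symmetric: `trace (B B̄) = trace (N h Nᴴ hᵀ)` (`N̄ = Nᴴ`, `h̄ = hᵀ`), `hᵀ` is positive definite, `hᵀ = Rᴴ R` (`Matrix.posSemidef_iff_eq_conjTranspose_mul_self` or the square root), so this is
  `trace ((R N) h (R N)ᴴ) ≥ 0` (`PosSemidef.mul_mul_conjTranspose_same`, `PosSemidef.trace_nonneg`).
* `wp_posSemidef`: for a vector `a`, `∑ conj (a i) (a j) W i j = trace (B B̄)` with `B = ∑ conj (a i) mB_i`, and `B h⁻¹` is symmetric (`hinv_B'`); hermitian: the `trace` formula (or from the real-ness of `logP`).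
-/

namespace TRed

open Complex Matrix MeasureTheory YT
open scoped ContDiff ComplexConjugate ComplexOrder

variable {ι κ : Type} [Fintype ι] [DecidableEq ι] [Fintype κ] [DecidableEq κ] {G : Type} [Group G] {D : Set (ι → ℂ)}
  {f : G → (ι → ℂ) → (ι → ℂ)} {T : TorusFamily κ D f} {gm : (ι ⊕ κ → ℂ) → Matrix (ι ⊕ κ) (ι ⊕ κ) ℂ} {S : Set ((ι ⊕ κ → ℂ) → (ι ⊕ κ → ℂ))} {b : ι → ℂ}

private theorem pos_mul {α β γ : Type} [Fintype β] (M : Matrix α β ℂ) (N : Matrix β γ ℂ) : mconj (M * N) = mconj M * mconj N := by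
  ext k l
  simp only [mconj, Matrix.map_apply, Matrix.mul_apply, map_sum, map_mul]

private theorem pos_add {α β : Type} (M N : Matrix α β ℂ) : mconj (M + N) = mconj M + mconj N := by
  ext k l
  simp only [mconj, Matrix.map_apply, Matrix.add_apply, map_add]

private theorem pos_invol {α β : Type} (M : Matrix α β ℂ) : mconj (mconj M) = M := by
  ext k l
  simp only [mconj, Matrix.map_apply, Complex.conj_conj]

private theorem pos_omg (b : ι → ℂ) : omg T b = fromBlocks (T.Z₁ b) (T.Z₂ b) (mconj (T.Z₁ b)) (mconj (T.Z₂ b)) := rfl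

private theorem pos_hA (hD : IsOpen D) (hb : b ∈ D) (k l : κ) : DifferentiableAt ℂ (fun y => T.Z₁ y k l) b :=
  (T.Z₁_hol k l).differentiableAt (hD.mem_nhds hb)

private theorem pos_hB (hD : IsOpen D) (hb : b ∈ D) (k l : κ) : DifferentiableAt ℂ (fun y => T.Z₂ y k l) b :=
  (T.Z₂_hol k l).differentiableAt (hD.mem_nhds hb)

private theorem pos_dA (hD : IsOpen D) (hb : b ∈ D) (i : ι) :
    mdz i T.Z₁ b = mM T b i * T.Z₁ b + mB T b i * mconj (T.Z₁ b) := by
  have h := mdz_omg (T := T) hD hb i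
  rw [pos_omg b, fromBlocks_multiply] at h
  ext k l
  have h2 := congrFun (congrFun h (Sum.inl k)) (Sum.inl l)
  rw [fromBlocks_apply₁₁] at h2
  exact h2

private theorem pos_dB (hD : IsOpen D) (hb : b ∈ D) (i : ι) :
    mdz i T.Z₂ b = mM T b i * T.Z₂ b + mB T b i * mconj (T.Z₂ b) := by
  have h := mdz_omg (T := T) hD hb i
  rw [pos_omg b, fromBlocks_multiply] at h
  ext k l
  have h2 := congrFun (congrFun h (Sum.inl k)) (Sum.inr l)
  rw [fromBlocks_apply₁₂] at h2
  exact h2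

theorem mdb_omg (hD : IsOpen D) (hb : b ∈ D) (j : ι) : mdb j (omg T) b = fromBlocks 0 0 (mconj (mB T b j)) (mconj (mM T b j)) * omg T b := by
  have e1 : mconj (mB T b j) * T.Z₁ b + mconj (mM T b j) * mconj (T.Z₁ b) = mconj (mdz j T.Z₁ b) := by
    rw [pos_dA hD hb j, pos_add, pos_mul, pos_mul, pos_invol, add_comm]
  have e2 : mconj (mB T b j) * T.Z₂ b + mconj (mM T b j) * mconj (T.Z₂ b) = mconj (mdz j T.Z₂ b) := by
    rw [pos_dB hD hb j, pos_add, pos_mul, pos_mul, pos_invol, add_comm]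
  have e3 : (fromBlocks 0 0 (mconj (mB T b j)) (mconj (mM T b j)) : Matrix (κ ⊕ κ) (κ ⊕ κ) ℂ) * omg T b =
      fromBlocks 0 0 (mconj (mdz j T.Z₁ b)) (mconj (mdz j T.Z₂ b)) := by
    rw [pos_omg b, fromBlocks_multiply, e1, e2]
    simp only [Matrix.zero_mul, add_zero]
  rw [e3]
  ext k l
  rcases k with k | k <;> rcases l with l | l
  · show dzbar j (fun y => T.Z₁ y k l) b = 0
    exact dzbar_hol j (pos_hA hD hb k l)
  · show dzbar j (fun y => T.Z₂ y k l) b = 0
    exact dzbar_hol j (pos_hB hD hb k l)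
  · show dzbar j (fun y => conj (T.Z₁ y k l)) b = conj (dz j (fun y => T.Z₁ y k l) b)
    exact dzbar_conj j _ b
  · show dzbar j (fun y => conj (T.Z₂ y k l)) b = conj (dz j (fun y => T.Z₂ y k l) b)
    exact dzbar_conj j _ b

private theorem pos_smooth (hD : IsOpen D) (k l : κ ⊕ κ) : ContDiffOn ℝ ∞ (fun y => omg T y k l) D := by
  rcases k with k | k <;> rcases l with l | l
  · exact geo_hsm hD (T.Z₁_hol k l)
  · exact geo_hsm hD (T.Z₂_hol k l)
  · exact conj_contDiffOn (geo_hsm hD (T.Z₁_hol k l))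
  · exact conj_contDiffOn (geo_hsm hD (T.Z₂_hol k l))

private theorem pos_det {α : Type} [Fintype α] [DecidableEq α] {U : Set (ι → ℂ)} {h : (ι → ℂ) → Matrix α α ℂ}
    (hs : ∀ k l, ContDiffOn ℝ ∞ (fun y => h y k l) U) : ContDiffOn ℝ ∞ (fun y => (h y).det) U := by
  simp only [Matrix.det_apply']
  exact ContDiffOn.sum fun σ _ => contDiffOn_const.mul (contDiffOn_prod fun i _ => hs (σ i) i)

private theorem pos_inv {α : Type} [Fintype α] [DecidableEq α] {U : Set (ι → ℂ)} {h : (ι → ℂ) → Matrix α α ℂ}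
    (hs : ∀ k l, ContDiffOn ℝ ∞ (fun y => h y k l) U) (hd : ∀ y ∈ U, (h y).det ≠ 0) (k l : α) :
    ContDiffOn ℝ ∞ (fun y => (h y)⁻¹ k l) U := by
  have h1 : ContDiffOn ℝ ∞ (fun y => ((h y).updateRow l (Pi.single k 1)).det) U := by
    refine pos_det (h := fun y => (h y).updateRow l (Pi.single k 1)) fun i j => ?_
    by_cases hi : i = l
    · subst hi
      simp only [Matrix.updateRow_self]
      exact contDiffOn_const
    · simp only [Matrix.updateRow_ne hi]
      exact hs i j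
  have h2 : ContDiffOn ℝ ∞ (fun y => ((h y).det)⁻¹) U := (pos_det hs).inv fun y hy => hd y hy
  refine (h2.mul h1).congr fun y _ => ?_
  rw [Matrix.inv_def, Ring.inverse_eq_inv', Matrix.smul_apply, smul_eq_mul, Matrix.adjugate_apply]

private theorem pos_mdiff (hD : IsOpen D) (hb : b ∈ D) : MDiff (omg T) b := MDiff.of_smooth hD (pos_smooth hD) hb

private theorem pos_mdiffI (hD : IsOpen D) (hb : b ∈ D) : MDiff (fun y => (omg T y)⁻¹) b :=
  MDiff.of_smooth hD (pos_inv (pos_smooth hD) fun _ hy => omg_det_ne hy) hb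

private theorem pos_mdiffZ (hD : IsOpen D) (hb : b ∈ D) (i : ι) : MDiff (mdz i (omg T)) b :=
  MDiff.of_smooth hD (fun k l => dz_contDiffOn hD (pos_smooth hD k l) i) hb

private theorem pos_dbI (hD : IsOpen D) (hb : b ∈ D) (j : ι) :
    mdb j (fun y => (omg T y)⁻¹) b = -((omg T b)⁻¹ * mdb j (omg T) b * (omg T b)⁻¹) := by
  have hu : IsUnit (omg T b).det := isUnit_iff_ne_zero.2 (omg_det_ne hb)
  have h1 : mdb j (fun y => omg T y * (omg T y)⁻¹) b = 0 := by
    ext k l
    have h2 : ∀ y ∈ D, (omg T y * (omg T y)⁻¹) k l = (1 : Matrix (κ ⊕ κ) (κ ⊕ κ) ℂ) k l := fun y hy => by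
      rw [Matrix.mul_nonsing_inv _ (isUnit_iff_ne_zero.2 (omg_det_ne hy))]
    show dzbar j (fun y => (omg T y * (omg T y)⁻¹) k l) b = 0
    rw [dzbar_congr_on hD h2 hb, dzbar_const]
  rw [mdb_mul (pos_mdiff hD hb) (pos_mdiffI hD hb)] at h1
  have h4 : omg T b * mdb j (fun y => (omg T y)⁻¹) b = -(mdb j (omg T) b * (omg T b)⁻¹) := by
    rw [eq_neg_iff_add_eq_zero, add_comm]
    exact h1
  calc mdb j (fun y => (omg T y)⁻¹) b = (omg T b)⁻¹ * (omg T b * mdb j (fun y => (omg T y)⁻¹) b) := by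
        rw [Matrix.nonsing_inv_mul_cancel_left _ _ hu]
    _ = -((omg T b)⁻¹ * mdb j (omg T) b * (omg T b)⁻¹) := by rw [h4, Matrix.mul_neg, Matrix.mul_assoc]

private theorem pos_hol (hD : IsOpen D) (hb : b ∈ D) {h : (ι → ℂ) → ℂ} (hf : DifferentiableOn ℂ h D) (i j : ι) :
    dzbar j (fun y => dz i h y) b = 0 := by
  rw [← dz_dzbar_comm hD (geo_hsm hD hf) hb i j]
  have h1 : ∀ y ∈ D, dzbar j h y = 0 := fun y hy => dzbar_hol j (hf.differentiableAt (hD.mem_nhds hy))
  rw [dz_congr_on hD h1 hb, dz_const]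

private theorem pos_hol' (hD : IsOpen D) (hb : b ∈ D) {h : (ι → ℂ) → ℂ} (hf : DifferentiableOn ℂ h D) (i j : ι) :
    dzbar j (fun y => dz i (fun x => conj (h x)) y) b = 0 := by
  have h1 : ∀ y ∈ D, dz i (fun x => conj (h x)) y = 0 := fun y hy => by
    rw [dz_conj, dzbar_hol i (hf.differentiableAt (hD.mem_nhds hy)), map_zero]
  rw [dzbar_congr_on hD h1 hb, dzbar_const]

private theorem pos_dbZ (hD : IsOpen D) (hb : b ∈ D) (i j : ι) : mdb j (mdz i (omg T)) b = 0 := by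
  ext k l
  rcases k with k | k <;> rcases l with l | l
  · exact pos_hol hD hb (T.Z₁_hol k l) i j
  · exact pos_hol hD hb (T.Z₂_hol k l) i j
  · exact pos_hol' hD hb (T.Z₁_hol k l) i j
  · exact pos_hol' hD hb (T.Z₂_hol k l) i j

private theorem pos_nn (hD : IsOpen D) (hb : b ∈ D) (i : ι) :
    mdz i (omg T) b * (omg T b)⁻¹ = fromBlocks (mM T b i) (mB T b i) 0 0 := by
  have hu : IsUnit (omg T b).det := isUnit_iff_ne_zero.2 (omg_det_ne hb)
  rw [mdz_omg hD hb i, Matrix.mul_assoc, Matrix.mul_nonsing_inv _ hu, Matrix.mul_one]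

private theorem pos_main (hD : IsOpen D) (hb : b ∈ D) (i j : ι) :
    mdb j (fun y => mdz i (omg T) y * (omg T y)⁻¹) b =
      -fromBlocks (mB T b i * mconj (mB T b j)) (mB T b i * mconj (mM T b j)) 0 0 := by
  have hu : IsUnit (omg T b).det := isUnit_iff_ne_zero.2 (omg_det_ne hb)
  rw [mdb_mul (pos_mdiffZ hD hb i) (pos_mdiffI hD hb), pos_dbZ hD hb i j, Matrix.zero_mul, zero_add, pos_dbI hD hb j,
    Matrix.mul_neg, mdb_omg hD hb j]
  congr 1
  rw [← Matrix.mul_assoc, ← Matrix.mul_assoc, pos_nn hD hb i, ← Matrix.mul_assoc, Matrix.mul_assoc _ (omg T b),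
    Matrix.mul_nonsing_inv _ hu, Matrix.mul_one, fromBlocks_multiply]
  simp only [Matrix.mul_zero, Matrix.zero_mul, zero_add, add_zero]

private theorem pos_nnS (hD : IsOpen D) (i : ι) (k l : κ ⊕ κ) :
    ContDiffOn ℝ ∞ (fun y => (mdz i (omg T) y * (omg T y)⁻¹) k l) D := by
  have h1 : (fun y => (mdz i (omg T) y * (omg T y)⁻¹) k l) = fun y => ∑ m, mdz i (omg T) y k m * (omg T y)⁻¹ m l := by
    funext y
    rw [Matrix.mul_apply]
  rw [h1]
  exact ContDiffOn.sum fun m _ => (dz_contDiffOn hD (pos_smooth hD k m) i).mul (pos_inv (pos_smooth hD) (fun _ hy => omg_det_ne hy) m l)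

theorem mM_smooth (hD : IsOpen D) (i : ι) (k l : κ) : ContDiffOn ℝ ∞ (fun b => mM T b i k l) D := by
  refine (pos_nnS (T := T) hD i (Sum.inl k) (Sum.inl l)).congr fun y hy => ?_
  rw [pos_nn hD hy i]
  rfl

theorem mB_smooth (hD : IsOpen D) (i : ι) (k l : κ) : ContDiffOn ℝ ∞ (fun b => mB T b i k l) D := by
  refine (pos_nnS (T := T) hD i (Sum.inl k) (Sum.inr l)).congr fun y hy => ?_
  rw [pos_nn hD hy i]
  rfl

theorem mdb_mM (hD : IsOpen D) (hb : b ∈ D) (i j : ι) : mdb j (fun y => mM T y i) b = -(mB T b i * mconj (mB T b j)) := by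
  ext k l
  have h1 : ∀ y ∈ D, mM T y i k l = (mdz i (omg T) y * (omg T y)⁻¹) (Sum.inl k) (Sum.inl l) := fun y hy => by
    rw [pos_nn hD hy i]
    rfl
  show dzbar j (fun y => mM T y i k l) b = (-(mB T b i * mconj (mB T b j))) k l
  rw [dzbar_congr_on hD h1 hb]
  exact congrFun (congrFun (pos_main (T := T) hD hb i j) (Sum.inl k)) (Sum.inl l)

theorem mdb_mB (hD : IsOpen D) (hb : b ∈ D) (i j : ι) : mdb j (fun y => mB T y i) b = -(mB T b i * mconj (mM T b j)) := by
  ext k l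
  have h1 : ∀ y ∈ D, mB T y i k l = (mdz i (omg T) y * (omg T y)⁻¹) (Sum.inl k) (Sum.inr l) := fun y hy => by
    rw [pos_nn hD hy i]
    rfl
  show dzbar j (fun y => mB T y i k l) b = (-(mB T b i * mconj (mM T b j))) k l
  rw [dzbar_congr_on hD h1 hb]
  exact congrFun (congrFun (pos_main (T := T) hD hb i j) (Sum.inl k)) (Sum.inr l)

/-- `∂̄_j trace mM_i = -trace (mB_i mconj mB_j)`. -/
theorem trace_dzbar (hD : IsOpen D) (hb : b ∈ D) (i j : ι) :
    dzbar j (fun y => (mM T y i).trace) b = -(mB T b i * mconj (mB T b j)).trace := by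
  have h1 : ∀ y ∈ D, (mM T y i).trace = ∑ k : κ, (mdz i (omg T) y * (omg T y)⁻¹) (Sum.inl k) (Sum.inl k) := fun y hy => by
    rw [pos_nn hD hy i]
    rfl
  have h2 : MDiff (fun y => mdz i (omg T) y * (omg T y)⁻¹) b := (pos_mdiffZ hD hb i).mul (pos_mdiffI hD hb)
  rw [dzbar_congr_on hD h1 hb, dzbar_sum Finset.univ (fun (k : κ) y => (mdz i (omg T) y * (omg T y)⁻¹) (Sum.inl k) (Sum.inl k)) j
    fun k _ => h2 (Sum.inl k) (Sum.inl k), Matrix.trace, ← Finset.sum_neg_distrib]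
  refine Finset.sum_congr rfl fun k _ => ?_
  have h3 := congrFun (congrFun (pos_main (T := T) hD hb i j) (Sum.inl k)) (Sum.inl k)
  exact h3

theorem wp_formula (hD : IsOpen D) (hb : b ∈ D) (i j : ι) :
    -dz i (fun y => dzbar j (logP T) y) b = (mB T b i * mconj (mB T b j)).trace := by
  have h1 : ContDiffOn ℝ ∞ (fun y => (omg T y).det) D := pos_det (pos_smooth hD)
  have h2 : ContDiffOn ℝ ∞ (fun y => ‖(omg T y).det‖) D := h1.norm ℝ fun y hy => omg_det_ne hy
  have h3 : ContDiffOn ℝ ∞ (fun y => Real.log ‖(omg T y).det‖) D := h2.log fun y hy => norm_ne_zero_iff.2 (omg_det_ne hy)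
  have h4 : ContDiffOn ℝ ∞ (logP T) D := Complex.ofRealCLM.contDiff.comp_contDiffOn h3
  rw [dz_dzbar_comm hD h4 hb i j, dzbar_congr_on hD (fun y hy => dz_logP hD hy i) hb, trace_dzbar hD hb i j, neg_neg]

theorem trace_sym {B h : Matrix κ κ ℂ} (hh : h.PosDef) (hs : (B * h⁻¹)ᵀ = B * h⁻¹) : 0 ≤ (B * mconj B).trace := by
  have hu : IsUnit h.det := isUnit_iff_ne_zero.mpr (ne_of_gt hh.det_pos)
  have hB : B = B * h⁻¹ * h := by rw [Matrix.mul_assoc, Matrix.nonsing_inv_mul _ hu, Matrix.mul_one]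
  have h1 : mconj (B * h⁻¹) = (B * h⁻¹)ᴴ := by
    rw [← hs]
    ext k l
    simp only [mconj, Matrix.map_apply, Matrix.conjTranspose_apply, Matrix.transpose_apply, RCLike.star_def]
    rw [← Matrix.transpose_apply (B * h⁻¹), hs]
  have h2 : mconj h = hᵀ := by
    have h3 := hh.isHermitian
    ext k l
    have h4 := congrFun (congrFun h3 l) k
    rw [Matrix.conjTranspose_apply] at h4
    exact h4
  have h3 : mconj B = (B * h⁻¹)ᴴ * hᵀ := by
    conv_lhs => rw [hB]
    rw [pos_mul, h1, h2]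
  have hX : ((B * h⁻¹) * h * (B * h⁻¹)ᴴ).PosSemidef := hh.posSemidef.mul_mul_conjTranspose_same _
  obtain ⟨m, v, hv⟩ := Matrix.posSemidef_iff_eq_sum_vecMulVec.mp hh.posSemidef.transpose
  rw [← hB] at hX
  rw [h3, ← Matrix.mul_assoc, hv, Matrix.mul_sum, Matrix.trace_sum]
  refine Finset.sum_nonneg fun i _ => ?_
  rw [Matrix.mul_vecMulVec, Matrix.trace_vecMulVec, dotProduct_comm]
  exact hX.dotProduct_mulVec_nonneg (v i)

private theorem pos_ctr (M : Matrix κ κ ℂ) : conj M.trace = (mconj M).trace := by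
  simp only [Matrix.trace, Matrix.diag_apply, map_sum, mconj, Matrix.map_apply]

/-- The twisting form is semipositive. -/
theorem wp_posSemidef (hD : IsOpen D) (hg : IsKahler (tot κ D) S gm) (hf : FibreFlat T gm) (hb : b ∈ D) :
    (wpf T b).PosSemidef := by
  have hW : ∀ i j, wpf T b i j = (mB T b i * mconj (mB T b j)).trace := fun i j => wp_formula hD hb i j
  refine Matrix.PosSemidef.of_dotProduct_mulVec_nonneg ?_ fun a => ?_
  · ext i j
    rw [Matrix.conjTranspose_apply, hW, hW, RCLike.star_def, pos_ctr, pos_mul, pos_invol, Matrix.trace_mul_comm]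
  · have hs : ((∑ i, conj (a i) • mB T b i) * (hv gm b)⁻¹)ᵀ = (∑ i, conj (a i) • mB T b i) * (hv gm b)⁻¹ := by
      rw [Matrix.sum_mul, Matrix.transpose_sum]
      refine Finset.sum_congr rfl fun i _ => ?_
      rw [Matrix.smul_mul, Matrix.transpose_smul, hinv_B' hD hg hf hb i]
    have hp := trace_sym (hv_posDefR hg hb) hs
    have h1 : mconj (∑ i, conj (a i) • mB T b i) = ∑ i, a i • mconj (mB T b i) := by
      ext k l
      simp only [mconj, Matrix.map_apply, Matrix.sum_apply, Matrix.smul_apply, smul_eq_mul, map_sum, map_mul, Complex.conj_conj]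
    rw [h1, Matrix.sum_mul, Matrix.trace_sum] at hp
    have h2 : star a ⬝ᵥ wpf T b *ᵥ a = ∑ i, ((conj (a i) • mB T b i) * ∑ j, a j • mconj (mB T b j)).trace := by
      rw [dotProduct]
      refine Finset.sum_congr rfl fun i _ => ?_
      rw [Matrix.mulVec, dotProduct, Matrix.mul_sum, Matrix.trace_sum, Finset.mul_sum]
      refine Finset.sum_congr rfl fun j _ => ?_
      rw [hW, Matrix.smul_mul, Matrix.mul_smul, Matrix.trace_smul, Matrix.trace_smul, Pi.star_apply, RCLike.star_def, smul_eq_mul,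
        smul_eq_mul]
      ring
    rw [h2]
    exact hp

end TRed
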