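import Pool.Agent.Lib.MP_464db4_gt.TR.Iff
import Pool.Agent.Lib.MP_464db4_gt.TR.Pos
import Pool.Agent.Lib.MP_464db4_gt.TR.Flat

/-!
# TR-Res: the reduction with the twisted scalar curvature of the family
-/

namespace TRed

open Complex Matrix MeasureTheory YT
open scoped ContDiff ComplexConjugate ComplexOrder

variable {ι κ : Type} [Fintype ι] [DecidableEq ι] [Fintype κ] [DecidableEq κ] {G : Type} [Group G] {D : Set (ι → ℂ)}
  {f : G → (ι → ℂ) → (ι → ℂ)} {T : TorusFamily κ D f} {g gm g' : (ι ⊕ κ → ℂ) → Matrix (ι ⊕ κ) (ι ⊕ κ) ℂ}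

theorem flat_iff_twsc (hB : CompactBase D f) (hg : IsKahler (tot κ D) T.total gm) (hf : FibreFlat T gm)
    (hcoh : Cohomologous (tot κ D) T.total g gm) (c : ℝ) :
    (∃ β', IsKahler D (Set.range f) β' ∧ Cohomologous D (Set.range f) (sch gm) β' ∧ ∀ b ∈ D, twsc T β' b = c) ↔
    (∃ g', IsKahler (tot κ D) T.total g' ∧ FibreFlat T g' ∧ Cohomologous (tot κ D) T.total g g' ∧ ∀ x ∈ tot κ D, scal g' x = c) := by
  rw [← flat_iff hB hg hf hcoh c]
  refine exists_congr fun β' => and_congr_right fun _ => and_congr_right fun _ => forall₂_congr fun b hb => ?_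
  rw [twscal_eq hB.isOpen hg hf hb]

/-- The twisting form is semipositive. -/
theorem wpf_posSemidef (hB : CompactBase D f) (T : TorusFamily κ D f) (hg : IsKahler (tot κ D) T.total g) : ∀ b ∈ D, (wpf T b).PosSemidef := by
  obtain ⟨gm, hgm, hf, -⟩ := exists_flat hB T hg
  exact fun b hb => wp_posSemidef hB.isOpen hgm hf hb

/-- The class of the form induced on the base depends only on the class of `g`. -/
theorem sch_coh_of (hB : CompactBase D f) (hg : IsKahler (tot κ D) T.total gm) (hg' : IsKahler (tot κ D) T.total g') (hf : FibreFlat T gm)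
    (hf' : FibreFlat T g') (h : Cohomologous (tot κ D) T.total g gm) (h' : Cohomologous (tot κ D) T.total g g') :
    Cohomologous D (Set.range f) (sch gm) (sch g') ∧ ∀ b ∈ D, hv g' b = hv gm b := by
  have hU : IsOpen (tot κ D) := isOpen_tot hB.isOpen
  exact sch_coh hB hg hg' hf hf' (coh_trans hU (coh_symm hU h) h')

end TRed
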