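import Pool.Agent.Lib.MP_464db4_gt.TR.HomA
import Pool.Agent.Lib.MP_464db4_gt.TR.Avg
import Pool.Agent.Lib.MP_464db4_gt.YT.ExA

/-!
# TR-HomB: a primitive of `kavg μ g - g`
Port of TF/HomB.lean (same statements with `T`): `kp μ g x i = ∫ ct p.2 (pbt (p.1 • p.2) g) x i d(muI μ)(p)`.
-/

namespace TRed

open Complex Matrix MeasureTheory YT
open scoped ContDiff ComplexConjugate ComplexOrder

variable {ι κ : Type} [Fintype ι] [DecidableEq ι] [Fintype κ] [DecidableEq κ] {G : Type} [Group G] {D : Set (ι → ℂ)} {f : G → (ι → ℂ) → (ι → ℂ)} {T : TorusFamily κ D f}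
  {g : (ι ⊕ κ → ℂ) → Matrix (ι ⊕ κ) (ι ⊕ κ) ℂ} {μ : Measure (κ → ℂ)}

/-- The primitive of `kavg μ g - g`. -/
noncomputable def kp (T : TorusFamily κ D f) (μ : Measure (κ → ℂ)) (g : (ι ⊕ κ → ℂ) → Matrix (ι ⊕ κ) (ι ⊕ κ) ℂ)
    (x : ι ⊕ κ → ℂ) (i : ι ⊕ κ) : ℂ :=
  ∫ p, ct T p.2 (pbt T (p.1 • p.2) g) x i ∂(muI μ)

theorem muI_compact (hμ : IsMean T.Λ μ) : IsFiniteMeasure (muI μ) ∧ ∃ K : Set (ℝ × (κ → ℂ)), IsCompact K ∧ ∀ᵐ p ∂(muI μ), p ∈ K := by
  have hprob := hμ.prob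
  obtain ⟨K0, hK0, hae⟩ := hμ.exists_compact
  refine ⟨by unfold muI; infer_instance, Set.Icc 0 1 ×ˢ K0, isCompact_Icc.prod hK0, ?_⟩
  unfold muI
  filter_upwards [Measure.quasiMeasurePreserving_fst.ae (ae_restrict_mem (μ := (volume : Measure ℝ))
    (measurableSet_Icc (a := (0 : ℝ)) (b := 1))), Measure.quasiMeasurePreserving_snd.ae hae] with p h1 h2
  exact ⟨h1, h2⟩

private theorem hb_open (hD : IsOpen D) : IsOpen (tot κ D) := isOpen_tot hD

private theorem hb_conj_joint (hD : IsOpen D) (hg : IsKahler (tot κ D) T.total g) (i : ι ⊕ κ) :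
    ContDiffOn ℝ ∞ (fun q : (ι ⊕ κ → ℂ) × (ℝ × (κ → ℂ)) => conj (ct T q.2.2 (pbt T (q.2.1 • q.2.2) g) q.1 i))
      (tot κ D ×ˢ Set.univ) :=
  Complex.conjCLE.contDiff.comp_contDiffOn (ct_joint (T := T) hD hg i)

/-- A jointly smooth function is continuous in the parameter. -/
private theorem hb_cont {F : (ι ⊕ κ → ℂ) × (ℝ × (κ → ℂ)) → ℂ} (hF : ContDiffOn ℝ ∞ F (tot κ D ×ˢ Set.univ))
    {x : ι ⊕ κ → ℂ} (hx : x ∈ tot κ D) : Continuous (fun p : ℝ × (κ → ℂ) => F (x, p)) :=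
  hF.continuousOn.comp_continuous (continuous_const.prodMk continuous_id) (fun _ => ⟨hx, Set.mem_univ _⟩)

theorem kp_smooth (hD : IsOpen D) (hμ : IsMean T.Λ μ) (hg : IsKahler (tot κ D) T.total g) (i : ι ⊕ κ) :
    ContDiffOn ℝ ∞ (fun x => kp T μ g x i) (tot κ D) := by
  obtain ⟨hfin, K, hK, hae⟩ := muI_compact hμ
  exact par_smooth (hb_open hD) hK hae (ct_joint (T := T) hD hg i)

theorem kp_sym (hD : IsOpen D) (hμ : IsMean T.Λ μ) (hg : IsKahler (tot κ D) T.total g) {x : ι ⊕ κ → ℂ} (hx : x ∈ tot κ D) (i j : ι ⊕ κ) :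
    dz i (fun y => kp T μ g y j) x = dz j (fun y => kp T μ g y i) x := by
  obtain ⟨hfin, K, hK, hae⟩ := muI_compact hμ
  have h1 := par_dz (hb_open hD) hK hae (ct_joint (T := T) hD hg j) hx i
  have h2 := par_dz (hb_open hD) hK hae (ct_joint (T := T) hD hg i) hx j
  unfold kp
  refine h1.trans (Eq.trans ?_ h2.symm)
  refine integral_congr_ae (Filter.Eventually.of_forall fun p => ?_)
  exact ct_sym (T := T) hD (pbt_isKahler (T := T) hD hg (p.1 • p.2)) p.2 hx i j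

/-- The Lie derivatives are jointly continuous in the parameters. -/
private theorem hb_lie_cont (hD : IsOpen D) (hg : IsKahler (tot κ D) T.total g) {x : ι ⊕ κ → ℂ} (hx : x ∈ tot κ D) (i j : ι ⊕ κ) :
    Continuous (fun p : ℝ × (κ → ℂ) => lie T p.2 (pbt T (p.1 • p.2) g) x i j) := by
  have h1 := hb_cont (par_dz_joint (hb_open hD) (hb_conj_joint (T := T) hD hg j) i) hx
  have h2 := hb_cont (par_dzbar_joint (hb_open hD) (ct_joint (T := T) hD hg i) j) hx
  have h3 : (fun p : ℝ × (κ → ℂ) => lie T p.2 (pbt T (p.1 • p.2) g) x i j) = fun p : ℝ × (κ → ℂ) =>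
      -I * (dz i (fun y => conj (ct T p.2 (pbt T (p.1 • p.2) g) y j)) x - dzbar j (fun y => ct T p.2 (pbt T (p.1 • p.2) g) y i) x) := by
    funext p
    exact (ct_lie (T := T) hD (pbt_isKahler (T := T) hD hg (p.1 • p.2)) p.2 hx i j).symm
  rw [h3]
  exact continuous_const.mul (h1.sub h2)

/-- The fundamental theorem of calculus along the flow. -/
private theorem hb_ftc (hD : IsOpen D) (hg : IsKahler (tot κ D) T.total g) {x : ι ⊕ κ → ℂ} (hx : x ∈ tot κ D) (i j : ι ⊕ κ)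
    (v : κ → ℂ) : ∫ s in Set.Icc (0 : ℝ) 1, lie T v (pbt T (s • v) g) x i j = pbt T v g x i j - g x i j := by
  rw [integral_Icc_eq_integral_Ioc, ← intervalIntegral.integral_of_le zero_le_one]
  have hc : Continuous (fun s : ℝ => lie T v (pbt T (s • v) g) x i j) :=
    Continuous.comp (g := fun p : ℝ × (κ → ℂ) => lie T p.2 (pbt T (p.1 • p.2) g) x i j) (f := fun s : ℝ => (s, v))
      (hb_lie_cont hD hg hx i j) (by fun_prop)
  rw [intervalIntegral.integral_eq_sub_of_hasDerivAt (fun s _ => pbt_deriv (T := T) hD hg v hx i j s) (hc.intervalIntegrable _ _)]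
  simp only [one_smul, zero_smul, pbt_zero]

private theorem hb_avg (hD : IsOpen D) (hμ : IsMean T.Λ μ) (hg : IsKahler (tot κ D) T.total g) {x : ι ⊕ κ → ℂ} (hx : x ∈ tot κ D)
    (i j : ι ⊕ κ) : ∫ p, lie T p.2 (pbt T (p.1 • p.2) g) x i j ∂(muI μ) = kavg T μ g x i j - g x i j := by
  have hprob := hμ.prob
  obtain ⟨hfin, K, hK, hae⟩ := muI_compact hμ
  have hc := hb_lie_cont hD hg hx i j
  have hI : Integrable (fun p : ℝ × (κ → ℂ) => lie T p.2 (pbt T (p.1 • p.2) g) x i j) (muI μ) := by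
    obtain ⟨C, hC⟩ := hK.exists_bound_of_continuousOn hc.continuousOn
    refine Integrable.of_bound hc.aestronglyMeasurable C ?_
    filter_upwards [hae] with p hp
    exact hC p hp
  unfold muI at hI ⊢
  rw [integral_prod_symm _ hI]
  simp only [hb_ftc hD hg hx i j]
  rw [integral_sub (hμ.integrable (pbt_cont hD hg hx i j)) (integrable_const _)]
  simp [kavg]

theorem kp_eq (hD : IsOpen D) (hμ : IsMean T.Λ μ) (hg : IsKahler (tot κ D) T.total g) {x : ι ⊕ κ → ℂ} (hx : x ∈ tot κ D) (i j : ι ⊕ κ) :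
    kavg T μ g x i j - g x i j = -I * (dz i (fun y => conj (kp T μ g y j)) x - dzbar j (fun y => kp T μ g y i) x) := by
  obtain ⟨hfin, K, hK, hae⟩ := muI_compact hμ
  have e1 : dz i (fun y => conj (kp T μ g y j)) x =
      ∫ p, dz i (fun y => conj (ct T p.2 (pbt T (p.1 • p.2) g) y j)) x ∂(muI μ) := by
    rw [← par_dz (hb_open hD) hK hae (hb_conj_joint (T := T) hD hg j) hx i]
    refine congrArg (fun u => dz i u x) ?_
    funext y
    exact integral_conj.symm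
  have e2 : dzbar j (fun y => kp T μ g y i) x = ∫ p, dzbar j (fun y => ct T p.2 (pbt T (p.1 • p.2) g) y i) x ∂(muI μ) :=
    par_dzbar (hb_open hD) hK hae (ct_joint (T := T) hD hg i) hx j
  have c1 : Integrable (fun p : ℝ × (κ → ℂ) => dz i (fun y => conj (ct T p.2 (pbt T (p.1 • p.2) g) y j)) x) (muI μ) :=
    par_integrable (hb_open hD) hK hae (par_dz_joint (hb_open hD) (hb_conj_joint (T := T) hD hg j) i) hx
  have c2 : Integrable (fun p : ℝ × (κ → ℂ) => dzbar j (fun y => ct T p.2 (pbt T (p.1 • p.2) g) y i) x) (muI μ) :=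
    par_integrable (hb_open hD) hK hae (par_dzbar_joint (hb_open hD) (ct_joint (T := T) hD hg i) j) hx
  rw [← hb_avg hD hμ hg hx i j, e1, e2, ← integral_sub c1 c2, ← integral_const_mul]
  refine integral_congr_ae (Filter.Eventually.of_forall fun p => ?_)
  exact (ct_lie (T := T) hD (pbt_isKahler (T := T) hD hg (p.1 • p.2)) p.2 hx i j).symm

theorem ct_pbt (v w : κ → ℂ) (h : (ι ⊕ κ → ℂ) → Matrix (ι ⊕ κ) (ι ⊕ κ) ℂ) (x : ι ⊕ κ → ℂ) (i : ι ⊕ κ) :
    ∑ k, ct T w h (T.tr v x) k * trJ T (bas x) v k i = ct T w (pbt T v h) x i := by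
  have h1 : ∀ l : κ, pbt T v h x i (Sum.inr l) = ∑ k, trJ T (bas x) v k i * h (T.tr v x) k (Sum.inr l) := by
    intro l
    unfold pbt
    rw [Matrix.mul_apply]
    have h2 : ∀ m, ((trJ T (bas x) v)ᵀ * h (T.tr v x)) i m * mconj (trJ T (bas x) v) m (Sum.inr l) =
        if m = Sum.inr l then ((trJ T (bas x) v)ᵀ * h (T.tr v x)) i m else 0 := by
      intro m
      rw [mconj, Matrix.map_apply, trJ_inr]
      split_ifs <;> simp
    rw [Finset.sum_congr rfl fun m _ => h2 m, Finset.sum_ite_eq' Finset.univ, if_pos (Finset.mem_univ _), Matrix.mul_apply]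
    rfl
  unfold ct
  simp only [h1, bas_tr]
  simp only [mul_assoc, ← Finset.mul_sum, Finset.sum_mul]
  congr 1
  rw [Finset.sum_comm]
  refine Finset.sum_congr rfl fun l _ => Finset.sum_congr rfl fun k _ => ?_
  ring

theorem kp_isPrimitive (hD : IsOpen D) (hμ : IsMean T.Λ μ) (hg : IsKahler (tot κ D) T.total g) :
    IsPrimitive (tot κ D) T.trans g (kavg T μ g) (kp T μ g) := by
  refine ⟨fun i => kp_smooth hD hμ hg i, ?_, fun x hx i j => kp_sym hD hμ hg hx i j, fun x hx i j => kp_eq hD hμ hg hx i j⟩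
  rintro F ⟨v, hv, rfl⟩ x hx i
  obtain ⟨hfin, K, hK, hae⟩ := muI_compact hμ
  rw [jac_tr T hD v hx]
  unfold kp
  have h1 : ∀ k, Integrable (fun p : ℝ × (κ → ℂ) => ct T p.2 (pbt T (p.1 • p.2) g) (T.tr v x) k * trJ T (bas x) v k i) (muI μ) := fun k =>
    (par_integrable (hb_open hD) hK hae (ct_joint (T := T) hD hg k) (tr_mem T v hx)).mul_const _
  rw [Finset.sum_congr rfl fun k _ => (integral_mul_const (trJ T (bas x) v k i) (fun p : ℝ × (κ → ℂ) =>
    ct T p.2 (pbt T (p.1 • p.2) g) (T.tr v x) k)).symm, ← integral_finsetSum _ fun k _ => h1 k]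
  refine integral_congr_ae (Filter.Eventually.of_forall fun p => ?_)
  show ∑ k, ct T p.2 (pbt T (p.1 • p.2) g) (T.tr v x) k * trJ T (bas x) v k i = ct T p.2 (pbt T (p.1 • p.2) g) x i
  rw [ct_pbt]
  have h2 : pbt T v (pbt T (p.1 • p.2) g) x = pbt T (p.1 • p.2) g x := by
    rw [pbt_pbt hD v (p.1 • p.2) hx, add_comm, pbt_period hD hg (p.1 • p.2) hv hx]
  unfold ct
  rw [h2]

end TRed
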