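import Pool.Agent.Lib.MP_464db4_gt.TR.One
import Pool.Agent.Lib.MP_464db4_gt.TR.HomB
import Pool.Agent.Lib.MP_464db4_gt.KG.Nat

/-!
# TR-Pot: real primitives of closed 1-forms
-/

namespace TRed

open Complex Matrix MeasureTheory YT
open scoped ContDiff ComplexConjugate ComplexOrder

variable {ι κ : Type} [Fintype ι] [DecidableEq ι] [Fintype κ] [DecidableEq κ] {G : Type} [Group G] {D : Set (ι → ℂ)} {f : G → (ι → ℂ) → (ι → ℂ)} {T : TorusFamily κ D f}
  {μ : Measure (κ → ℂ)} {e : (ι ⊕ κ → ℂ) → (ι ⊕ κ → ℂ)}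

/-- A real function with differential `e - kavg1 μ e`. -/
noncomputable def pot (T : TorusFamily κ D f) (μ : Measure (κ → ℂ)) (e : (ι ⊕ κ → ℂ) → (ι ⊕ κ → ℂ)) (x : ι ⊕ κ → ℂ) : ℝ :=
  -2 * (∫ p, ∑ l, e (T.tr (p.1 • p.2) x) (Sum.inr l) * T.per (bas x) p.2 l ∂(muI μ)).re

/-- The integrand of `pot`. -/
private noncomputable def potF (T : TorusFamily κ D f) (e : (ι ⊕ κ → ℂ) → (ι ⊕ κ → ℂ)) (q : (ι ⊕ κ → ℂ) × (ℝ × (κ → ℂ))) : ℂ :=
  ∑ l, e (T.tr (q.2.1 • q.2.2) q.1) (Sum.inr l) * T.per (bas q.1) q.2.2 l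

private theorem pot_open (hD : IsOpen D) : IsOpen (tot κ D) := isOpen_tot hD

private theorem pot_bas {x : ι ⊕ κ → ℂ} (hx : x ∈ tot κ D) : bas x ∈ D := hx

private theorem potF_joint (hD : IsOpen D) (he : ∀ i, ContDiffOn ℝ ∞ (fun x => e x i) (tot κ D)) :
    ContDiffOn ℝ ∞ (potF T e) (tot κ D ×ˢ Set.univ) := by
  unfold potF
  refine ContDiffOn.sum fun l _ => ContDiffOn.mul ?_ ?_
  · have h1 : ContDiffOn ℝ ∞ (fun q : (ι ⊕ κ → ℂ) × (ℝ × (κ → ℂ)) => T.tr (q.2.1 • q.2.2) q.1) (tot κ D ×ˢ Set.univ) :=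
      (tr_joint T hD).comp (s := tot κ D ×ˢ Set.univ)
        (f := fun q : (ι ⊕ κ → ℂ) × (ℝ × (κ → ℂ)) => (q.1, q.2.1 • q.2.2))
        (contDiff_fst.prodMk (contDiff_snd.fst.smul contDiff_snd.snd)).contDiffOn (fun q hq => ⟨hq.1, Set.mem_univ _⟩)
    exact (he (Sum.inr l)).comp h1 (fun q hq => tr_mem T _ hq.1)
  · exact (per_joint T hD l).comp (s := tot κ D ×ˢ Set.univ)
      (f := fun q : (ι ⊕ κ → ℂ) × (ℝ × (κ → ℂ)) => (q.1, q.2.2))
      (contDiff_fst.prodMk contDiff_snd.snd).contDiffOn (fun q hq => ⟨hq.1, Set.mem_univ _⟩)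

private theorem pot_eq (x : ι ⊕ κ → ℂ) : ((pot T μ e x : ℝ) : ℂ) =
    -((∫ p, potF T e (x, p) ∂(muI μ)) + conj (∫ p, potF T e (x, p) ∂(muI μ))) := by
  have h : pot T μ e x = -2 * (∫ p, potF T e (x, p) ∂(muI μ)).re := rfl
  rw [h, Complex.add_conj]
  push_cast
  ring

theorem pot_smooth (hD : IsOpen D) (hμ : IsMean T.Λ μ) (he : IsPer T e) : ContDiffOn ℝ ∞ (fun x => ((pot T μ e x : ℝ) : ℂ)) (tot κ D) := by
  obtain ⟨hfin, K, hK, hKae⟩ := muI_compact hμ
  have h := par_smooth (pot_open hD) hK hKae (potF_joint (T := T) hD he.smooth)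
  exact ((h.add (conj_contDiffOn h)).neg).congr fun x _ => pot_eq x

private theorem pot_line (w : κ → ℂ) (x : ι ⊕ κ → ℂ) (s : ℝ) : T.tr (s • w) x = x + s • pt 0 (T.per (bas x) w) := by
  rw [TorusFamily.tr, per_smul, smul_pt]
  rfl

private theorem pot_trJ (hD : IsOpen D) (w : κ → ℂ) {b : ι → ℂ} (hb : b ∈ D) (k i : ι ⊕ κ) (s : ℝ) :
    HasDerivAt (fun s : ℝ => trJ T b (s • w) k i) (trN T b w k i) s := by
  have e1 : (fun s : ℝ => trJ T b (s • w) k i) = fun s : ℝ => (1 : Matrix (ι ⊕ κ) (ι ⊕ κ) ℂ) k i + (s : ℂ) * trN T b w k i := by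
    funext s
    rw [trJ_smul T hD hb]
    rfl
  rw [e1]
  simpa using ((Complex.ofRealCLM.hasDerivAt (x := s)).mul_const (trN T b w k i)).const_add ((1 : Matrix (ι ⊕ κ) (ι ⊕ κ) ℂ) k i)

private theorem pot_trJN (hD : IsOpen D) {b : ι → ℂ} (hb : b ∈ D) (s : ℝ) (w : κ → ℂ) : trJ T b (s • w) * trN T b w = trN T b w := by
  rw [trJ_smul T hD hb, add_mul, one_mul, smul_mul_assoc, trN_sq, smul_zero, add_zero]

private theorem pot_diff (hD : IsOpen D) (he : ∀ i, ContDiffOn ℝ ∞ (fun x => e x i) (tot κ D)) {x : ι ⊕ κ → ℂ} (hx : x ∈ tot κ D)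
    (k : ι ⊕ κ) : DifferentiableAt ℝ (fun y => e y k) x :=
  ((he k).contDiffAt ((pot_open hD).mem_nhds hx)).differentiableAt (by simp)

private theorem pbt1_smooth (hD : IsOpen D) (he : ∀ i, ContDiffOn ℝ ∞ (fun x => e x i) (tot κ D)) (v : κ → ℂ) (k : ι ⊕ κ) :
    ContDiffOn ℝ ∞ (fun y => pbt1 T v e y k) (tot κ D) :=
  (pbt1_joint (T := T) hD he k).comp (t := tot κ D ×ˢ Set.univ) (s := tot κ D)
    (f := fun y : ι ⊕ κ → ℂ => (y, v)) (contDiffOn_id.prodMk contDiffOn_const) (fun y hy => ⟨hy, Set.mem_univ _⟩)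

private theorem pbt1_diffAt (hD : IsOpen D) (he : ∀ i, ContDiffOn ℝ ∞ (fun x => e x i) (tot κ D)) (v : κ → ℂ) {x : ι ⊕ κ → ℂ}
    (hx : x ∈ tot κ D) (k : ι ⊕ κ) : DifferentiableAt ℝ (fun y => pbt1 T v e y k) x :=
  ((pbt1_smooth hD he v k).contDiffAt ((pot_open hD).mem_nhds hx)).differentiableAt (by simp)

private theorem pbt1_fderiv (hD : IsOpen D) (he : ∀ i, ContDiffOn ℝ ∞ (fun x => e x i) (tot κ D)) (v : κ → ℂ) {x : ι ⊕ κ → ℂ}
    (hx : x ∈ tot κ D) (i : ι ⊕ κ) (a : κ → ℂ) :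
    fderiv ℝ (fun y => pbt1 T v e y i) x (pt 0 a) = ∑ k, fderiv ℝ (fun y => e y k) (T.tr v x) (pt 0 a) * trJ T (bas x) v k i := by
  have hline : ∀ y : ι ⊕ κ → ℂ, HasDerivAt (fun s : ℝ => y + s • (pt 0 a : ι ⊕ κ → ℂ)) (pt 0 a) 0 := fun y => by
    simpa using ((hasDerivAt_id (0 : ℝ)).smul_const (pt 0 a : ι ⊕ κ → ℂ)).const_add y
  have h1 : HasDerivAt (fun s : ℝ => pbt1 T v e (x + s • pt 0 a) i) (fderiv ℝ (fun y => pbt1 T v e y i) x (pt 0 a)) 0 := by
    have hf : HasFDerivAt (fun y => pbt1 T v e y i) (fderiv ℝ (fun y => pbt1 T v e y i) x) (x + (0 : ℝ) • (pt 0 a : ι ⊕ κ → ℂ)) := by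
      rw [zero_smul, add_zero]
      exact (pbt1_diffAt hD he v hx i).hasFDerivAt
    exact HasFDerivAt.comp_hasDerivAt (0 : ℝ) (l := fun y => pbt1 T v e y i) hf (hline x)
  have h2 : HasDerivAt (fun s : ℝ => ∑ k, e (T.tr v x + s • pt 0 a) k * trJ T (bas x) v k i)
      (∑ k, fderiv ℝ (fun y => e y k) (T.tr v x) (pt 0 a) * trJ T (bas x) v k i) 0 := by
    refine HasDerivAt.fun_sum (u := Finset.univ) fun k _ => HasDerivAt.mul_const ?_ _
    have hf : HasFDerivAt (fun y => e y k) (fderiv ℝ (fun y => e y k) (T.tr v x)) (T.tr v x + (0 : ℝ) • (pt 0 a : ι ⊕ κ → ℂ)) := by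
      rw [zero_smul, add_zero]
      exact (pot_diff hD he (tr_mem T v hx) k).hasFDerivAt
    exact HasFDerivAt.comp_hasDerivAt (0 : ℝ) (l := fun y => e y k) hf (hline (T.tr v x))
  have e1 : (fun s : ℝ => pbt1 T v e (x + s • pt 0 a) i) = fun s : ℝ => ∑ k, e (T.tr v x + s • pt 0 a) k * trJ T (bas x) v k i := by
    funext s
    have hb : bas (x + s • (pt 0 a : ι ⊕ κ → ℂ)) = bas x := by
      rw [smul_pt, bas_add_pt]
    have ht : T.tr v (x + s • (pt 0 a : ι ⊕ κ → ℂ)) = T.tr v x + s • (pt 0 a : ι ⊕ κ → ℂ) := by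
      simp only [TorusFamily.tr, hb]
      abel
    simp only [pbt1, hb, ht]
  rw [e1] at h1
  exact h1.unique h2

theorem pbt1_deriv (hD : IsOpen D) (he : ∀ i, ContDiffOn ℝ ∞ (fun x => e x i) (tot κ D)) (w : κ → ℂ) {x : ι ⊕ κ → ℂ} (hx : x ∈ tot κ D)
    (i : ι ⊕ κ) (s : ℝ) : HasDerivAt (fun s : ℝ => pbt1 T (s • w) e x i)
      (fderiv ℝ (fun y => pbt1 T (s • w) e y i) x (pt 0 (T.per (bas x) w)) + ∑ k, pbt1 T (s • w) e x k * trN T (bas x) w k i) s := by
  have hb := pot_bas hx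
  have h1 : HasDerivAt (fun s : ℝ => T.tr (s • w) x) (pt 0 (T.per (bas x) w)) s := by
    have e1 : (fun s : ℝ => T.tr (s • w) x) = fun s : ℝ => x + s • pt 0 (T.per (bas x) w) := by
      funext s
      exact pot_line w x s
    rw [e1]
    simpa using ((hasDerivAt_id s).smul_const (pt 0 (T.per (bas x) w) : ι ⊕ κ → ℂ)).const_add x
  have h2 : ∀ k, HasDerivAt (fun s : ℝ => e (T.tr (s • w) x) k)
      (fderiv ℝ (fun y => e y k) (T.tr (s • w) x) (pt 0 (T.per (bas x) w))) s := fun k =>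
    HasFDerivAt.comp_hasDerivAt s (l := fun y => e y k) (pot_diff hD he (tr_mem T (s • w) hx) k).hasFDerivAt h1
  have h3 := HasDerivAt.fun_sum (u := Finset.univ) (fun k _ => (h2 k).mul (pot_trJ (T := T) hD w hb k i s))
  refine h3.congr_deriv ?_
  rw [pbt1_fderiv hD he (s • w) hx i, Finset.sum_add_distrib]
  congr 1
  have e2 : ∀ k, pbt1 T (s • w) e x k * trN T (bas x) w k i =
      ∑ m, e (T.tr (s • w) x) m * (trJ T (bas x) (s • w) m k * trN T (bas x) w k i) := by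
    intro k
    rw [pbt1, Finset.sum_mul]
    exact Finset.sum_congr rfl fun m _ => by ring
  rw [Finset.sum_congr rfl fun k _ => e2 k, Finset.sum_comm]
  refine Finset.sum_congr rfl fun m _ => ?_
  rw [← Finset.mul_sum, ← mul_apply, pot_trJN hD hb]

private theorem pbt1_inr (v : κ → ℂ) (y : ι ⊕ κ → ℂ) (l : κ) : pbt1 T v e y (Sum.inr l) = e (T.tr v y) (Sum.inr l) := by
  rw [pbt1]
  simp only [trJ_inr, mul_ite, mul_one, mul_zero]
  rw [Finset.sum_ite_eq' Finset.univ (Sum.inr l)]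
  simp

private theorem pot_closed (hD : IsOpen D) (hc : IsPrimitive (tot κ D) ∅ (fun _ => 0) (fun _ => 0) e) (v : κ → ℂ) {x : ι ⊕ κ → ℂ}
    (hx : x ∈ tot κ D) (i j : ι ⊕ κ) :
    dz i (fun y => pbt1 T v e y j) x = dz j (fun y => pbt1 T v e y i) x ∧
      dz i (fun y => conj (pbt1 T v e y j)) x = dzbar j (fun y => pbt1 T v e y i) x := by
  have h := hc.comp (pot_open hD) (F := T.tr v) (tr_hol T v) (fun y hy => tr_mem T v hy)
  have e1 : ∀ (j : ι ⊕ κ), ∀ y ∈ tot κ D, ∑ k, e (T.tr v y) k * jac (T.tr v) y k j = pbt1 T v e y j := by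
    intro j y hy
    rw [pbt1]
    simp only [jac_tr T hD v hy]
  have h1 := h.sym x hx i j
  have h2 := h.eq x hx i j
  rw [dz_congr_on (pot_open hD) (e1 j) hx i, dz_congr_on (pot_open hD) (e1 i) hx j] at h1
  have e2 : ∀ y ∈ tot κ D, conj (∑ k, e (T.tr v y) k * jac (T.tr v) y k j) = conj (pbt1 T v e y j) := fun y hy => by
    rw [e1 j y hy]
  rw [dz_congr_on (pot_open hD) e2 hx i, dzbar_congr_on (pot_open hD) (e1 i) hx j] at h2
  refine ⟨h1, ?_⟩
  have h3 : -I * (dz i (fun y => conj (pbt1 T v e y j)) x - dzbar j (fun y => pbt1 T v e y i) x) = 0 := by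
    rw [← h2]
    simp
  have h4 := (mul_eq_zero.1 h3).resolve_left (neg_ne_zero.2 I_ne_zero)
  exact sub_eq_zero.1 h4

private theorem pot_pt (hD : IsOpen D) (he : ∀ i, ContDiffOn ℝ ∞ (fun x => e x i) (tot κ D))
    (hc : IsPrimitive (tot κ D) ∅ (fun _ => 0) (fun _ => 0) e) (s : ℝ) (w : κ → ℂ) {x : ι ⊕ κ → ℂ}
    (hx : x ∈ tot κ D) (i : ι ⊕ κ) :
    dz i (fun y => potF T e (y, (s, w))) x + conj (dzbar i (fun y => potF T e (y, (s, w))) x) =
      fderiv ℝ (fun y => pbt1 T (s • w) e y i) x (pt 0 (T.per (bas x) w)) + ∑ k, pbt1 T (s • w) e x k * trN T (bas x) w k i := by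
  have hd : ∀ k, DifferentiableAt ℝ (fun y => pbt1 T (s • w) e y k) x := fun k => pbt1_diffAt hD he _ hx k
  have hX : ∀ l, DifferentiableAt ℝ (fun y : ι ⊕ κ → ℂ => T.per (bas y) w l) x := fun l =>
    (((per_bas_hol T w l) x hx).differentiableAt ((pot_open hD).mem_nhds hx)).restrictScalars ℝ
  have e1 : (fun y => potF T e (y, (s, w))) =
      fun y => ∑ l, pbt1 T (s • w) e y (Sum.inr l) * T.per (bas y) w l := by
    funext y
    simp only [potF, pbt1_inr]
  have hdX : ∀ l, DifferentiableAt ℝ (fun y => pbt1 T (s • w) e y (Sum.inr l) * T.per (bas y) w l) x := fun l =>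
    (hd (Sum.inr l)).mul (hX l)
  have s1 : dz i (fun y => ∑ l, pbt1 T (s • w) e y (Sum.inr l) * T.per (bas y) w l) x =
      ∑ l, dz i (fun y => pbt1 T (s • w) e y (Sum.inr l) * T.per (bas y) w l) x :=
    dz_sum Finset.univ (fun l y => pbt1 T (s • w) e y (Sum.inr l) * T.per (bas y) w l) i (fun l _ => hdX l)
  have s2 : dzbar i (fun y => ∑ l, pbt1 T (s • w) e y (Sum.inr l) * T.per (bas y) w l) x =
      ∑ l, dzbar i (fun y => pbt1 T (s • w) e y (Sum.inr l) * T.per (bas y) w l) x :=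
    dzbar_sum Finset.univ (fun l y => pbt1 T (s • w) e y (Sum.inr l) * T.per (bas y) w l) i (fun l _ => hdX l)
  rw [e1, s1, s2, map_sum, ← Finset.sum_add_distrib, fderiv_eq_sum, Fintype.sum_sum_type, Fintype.sum_sum_type]
  have e2 : ∑ k : ι, (pt 0 (T.per (bas x) w) (Sum.inl k) * dz (Sum.inl k) (fun y => pbt1 T (s • w) e y i) x +
      conj ((pt 0 (T.per (bas x) w) : ι ⊕ κ → ℂ) (Sum.inl k)) * dzbar (Sum.inl k) (fun y => pbt1 T (s • w) e y i) x) = 0 := by
    simp [pt]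
  have e3 : ∑ k : ι, pbt1 T (s • w) e x (Sum.inl k) * trN T (bas x) w (Sum.inl k) i = 0 := by
    refine Finset.sum_eq_zero fun k _ => ?_
    rcases i with i | i <;> simp [trN]
  rw [e2, e3, zero_add, zero_add, ← Finset.sum_add_distrib]
  refine Finset.sum_congr rfl fun l _ => ?_
  rw [dz_mul i (hd _) (hX l), dzbar_mul i (hd _) (hX l), dz_per T hD w hx, dzbar_per T hD w hx, mul_zero, add_zero, map_mul,
    ← dz_conj, (pot_closed hD hc (s • w) hx i (Sum.inr l)).1, (pot_closed hD hc (s • w) hx i (Sum.inr l)).2]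
  show _ = (pt 0 (T.per (bas x) w) : ι ⊕ κ → ℂ) (Sum.inr l) * _ + _ + _
  simp only [pt, Sum.elim_inr]
  ring

theorem pot_dz (hD : IsOpen D) (hμ : IsMean T.Λ μ) (he : IsPer T e) (hc : IsPrimitive (tot κ D) ∅ (fun _ => 0) (fun _ => 0) e) {x : ι ⊕ κ → ℂ}
    (hx : x ∈ tot κ D) (i : ι ⊕ κ) : dz i (fun y => ((pot T μ e y : ℝ) : ℂ)) x = e x i - kavg1 T μ e x i := by
  obtain ⟨hfin, K, hK, hKae⟩ := muI_compact hμ
  have hprob := hμ.prob
  have hj := potF_joint (T := T) hD he.smooth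
  have hG := par_smooth (pot_open hD) hK hKae hj
  have hGd : DifferentiableAt ℝ (fun y => ∫ p, potF T e (y, p) ∂(muI μ)) x :=
    (hG.contDiffAt ((pot_open hD).mem_nhds hx)).differentiableAt (by simp)
  have hGc : DifferentiableAt ℝ (fun y => conj (∫ p, potF T e (y, p) ∂(muI μ))) x :=
    Complex.conjCLE.differentiableAt.comp x hGd
  have e1 : (fun y => ((pot T μ e y : ℝ) : ℂ)) = fun y => (-1 : ℂ) * ((∫ p, potF T e (y, p) ∂(muI μ)) + conj (∫ p, potF T e (y, p) ∂(muI μ))) := by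
    funext y
    rw [pot_eq, neg_one_mul]
  have hs : DifferentiableAt ℝ (fun y => (∫ p, potF T e (y, p) ∂(muI μ)) + conj (∫ p, potF T e (y, p) ∂(muI μ))) x := hGd.add hGc
  rw [e1, dz_const_mul i (-1) hs, dz_add i hGd hGc, dz_conj, par_dz (pot_open hD) hK hKae hj hx i,
    par_dzbar (pot_open hD) hK hKae hj hx i]
  have i1 : Integrable (fun p => dz i (fun y => potF T e (y, p)) x) (muI μ) :=
    par_integrable (pot_open hD) hK hKae (par_dz_joint (pot_open hD) hj i) hx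
  have i2 : Integrable (fun p => dzbar i (fun y => potF T e (y, p)) x) (muI μ) :=
    par_integrable (pot_open hD) hK hKae (par_dzbar_joint (pot_open hD) hj i) hx
  have i3 : Integrable (fun p => conj (dzbar i (fun y => potF T e (y, p)) x)) (muI μ) :=
    Complex.conjCLE.toContinuousLinearMap.integrable_comp i2
  rw [← integral_conj, ← integral_add i1 i3]
  -- the derivative in `s`
  have c1 : Continuous (fun p : ℝ × (κ → ℂ) => dz i (fun y => potF T e (y, p)) x) := by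
    have h := (par_dz_joint (pot_open hD) hj i).continuousOn.comp_continuous (f := fun p : ℝ × (κ → ℂ) => (x, p)) (by fun_prop)
      (fun p => ⟨hx, Set.mem_univ _⟩)
    exact h
  have c2 : Continuous (fun p : ℝ × (κ → ℂ) => dzbar i (fun y => potF T e (y, p)) x) := by
    have h := (par_dzbar_joint (pot_open hD) hj i).continuousOn.comp_continuous (f := fun p : ℝ × (κ → ℂ) => (x, p)) (by fun_prop)
      (fun p => ⟨hx, Set.mem_univ _⟩)
    exact h
  have hDer : ∀ (w : κ → ℂ), ∫ s in Set.Icc (0 : ℝ) 1, (dz i (fun y => potF T e (y, (s, w))) x + conj (dzbar i (fun y => potF T e (y, (s, w))) x)) =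
      pbt1 T w e x i - e x i := by
    intro w
    rw [integral_Icc_eq_integral_Ioc, ← intervalIntegral.integral_of_le zero_le_one]
    rw [intervalIntegral.integral_eq_sub_of_hasDerivAt (f := fun s : ℝ => pbt1 T (s • w) e x i)]
    · simp only [one_smul, zero_smul]
      congr 1
      rw [pbt1]
      simp only [tr_zero, trJ_zero]
      simp [Matrix.one_apply]
    · intro s _
      rw [pot_pt hD he.smooth hc s w hx i]
      exact pbt1_deriv hD he.smooth w hx i s
    · refine Continuous.intervalIntegrable ?_ _ _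
      exact (c1.comp (Continuous.prodMk continuous_id continuous_const)).add
        (Complex.continuous_conj.comp (c2.comp (Continuous.prodMk continuous_id continuous_const)))
  have e2 : ∫ p, (dz i (fun y => potF T e (y, p)) x + conj (dzbar i (fun y => potF T e (y, p)) x)) ∂(muI μ) =
      ∫ w, (pbt1 T w e x i - e x i) ∂μ := by
    have i4 : Integrable (fun p => dz i (fun y => potF T e (y, p)) x + conj (dzbar i (fun y => potF T e (y, p)) x)) (muI μ) := i1.add i3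
    rw [muI] at i4 ⊢
    rw [integral_prod_symm _ i4]
    refine integral_congr_ae (Filter.Eventually.of_forall fun w => ?_)
    exact hDer w
  have i5 : Integrable (fun w => pbt1 T w e x i) μ := by
    have h := (pbt1_joint (T := T) hD he.smooth i).continuousOn.comp_continuous (f := fun w : κ → ℂ => (x, w)) (by fun_prop)
      (fun w => ⟨hx, Set.mem_univ _⟩)
    exact hμ.integrable h
  rw [e2, integral_sub i5 (integrable_const _), integral_const, probReal_univ, one_smul, kavg1]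
  ring

theorem pot_per (he : IsPer T e) {v : κ → ℂ} (hv : v ∈ T.Λ) {x : ι ⊕ κ → ℂ} (hx : x ∈ tot κ D) :
    pot T μ e (T.tr v x) = pot T μ e x := by
  unfold pot
  congr 2
  refine integral_congr_ae (Filter.Eventually.of_forall fun p => ?_)
  refine Finset.sum_congr rfl fun l _ => ?_
  rw [bas_tr, tr_tr, add_comm, ← tr_tr, ← pbt1_inr (T := T) (e := e), he.per v hv _ (tr_mem T _ hx)]

theorem pot_mean (hD : IsOpen D) (hμ : IsMean T.Λ μ) (he : IsPer T e) (h0 : ∀ x ∈ tot κ D, kavg1 T μ e x = 0) {x : ι ⊕ κ → ℂ}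
    (hx : x ∈ tot κ D) : ∫ v, ((pot T μ e (T.tr v x) : ℝ) : ℂ) ∂μ = 0 := by
  obtain ⟨hfin, K, hK, hKae⟩ := muI_compact hμ
  have hprob := hμ.prob
  obtain ⟨K0, hK0, hK0ae⟩ := hμ.exists_compact
  have hj := potF_joint (T := T) hD he.smooth
  have htrc : ∀ y ∈ tot κ D, Continuous (fun v : κ → ℂ => T.tr v y) := by
    intro y hy
    exact (tr_joint T hD).continuousOn.comp_continuous (f := fun v : κ → ℂ => (y, v)) (by fun_prop)
      (fun v => ⟨hy, Set.mem_univ _⟩)
  -- the function `(v, p) ↦ potF (tr v x, p)`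
  have hcont : Continuous (fun q : (κ → ℂ) × (ℝ × (κ → ℂ)) => potF T e (T.tr q.1 x, q.2)) := by
    have htr : Continuous (fun q : (κ → ℂ) × (ℝ × (κ → ℂ)) => (T.tr q.1 x, q.2)) :=
      ((htrc x hx).comp continuous_fst).prodMk continuous_snd
    exact hj.continuousOn.comp_continuous htr (fun q => ⟨tr_mem T _ hx, Set.mem_univ _⟩)
  have hint : Integrable (Function.uncurry fun (v : κ → ℂ) (p : ℝ × (κ → ℂ)) => potF T e (T.tr v x, p)) (μ.prod (muI μ)) := by
    obtain ⟨C, hC⟩ := (hK0.prod hK).exists_bound_of_continuousOn hcont.continuousOn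
    refine Integrable.of_bound (C := C) hcont.aestronglyMeasurable ?_
    filter_upwards [Measure.quasiMeasurePreserving_fst.ae hK0ae, Measure.quasiMeasurePreserving_snd.ae hKae] with q h1 h2
    exact hC q ⟨h1, h2⟩
  have hG : Integrable (fun v => ∫ p, potF T e (T.tr v x, p) ∂(muI μ)) μ := hint.integral_prod_left
  have hz : ∫ v, ∫ p, potF T e (T.tr v x, p) ∂(muI μ) ∂μ = 0 := by
    rw [integral_integral_swap hint]
    have h1 : ∀ p : ℝ × (κ → ℂ), ∫ v, potF T e (T.tr v x, p) ∂μ = 0 := by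
      intro p
      have h2 : ∀ l, Integrable (fun v => e (T.tr v (T.tr (p.1 • p.2) x)) (Sum.inr l) * T.per (bas x) p.2 l) μ := by
        intro l
        refine Integrable.mul_const (hμ.integrable ?_) _
        exact (he.smooth (Sum.inr l)).continuousOn.comp_continuous (htrc _ (tr_mem T _ hx)) (fun v => tr_mem T _ (tr_mem T _ hx))
      have h4 : (fun v => potF T e (T.tr v x, p)) =
          fun v => ∑ l, e (T.tr v (T.tr (p.1 • p.2) x)) (Sum.inr l) * T.per (bas x) p.2 l := by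
        funext v
        simp only [potF, bas_tr]
        refine Finset.sum_congr rfl fun l _ => ?_
        rw [tr_tr, add_comm, ← tr_tr]
      rw [h4, integral_finsetSum _ fun l _ => h2 l]
      refine Finset.sum_eq_zero fun l _ => ?_
      rw [integral_mul_const]
      have h5 := congrFun (h0 _ (tr_mem T (p.1 • p.2) hx)) (Sum.inr l)
      simp only [kavg1, pbt1_inr] at h5
      rw [h5]
      simp
    simp [h1]
  have e1 : ∀ v, ((pot T μ e (T.tr v x) : ℝ) : ℂ) =
      -((∫ p, potF T e (T.tr v x, p) ∂(muI μ)) + conj (∫ p, potF T e (T.tr v x, p) ∂(muI μ))) := fun v => pot_eq _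
  have hGc : Integrable (fun v => conj (∫ p, potF T e (T.tr v x, p) ∂(muI μ))) μ :=
    Complex.conjCLE.toContinuousLinearMap.integrable_comp hG
  simp only [e1]
  rw [integral_neg, integral_add hG hGc, integral_conj, hz]
  simp

end TRed
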