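import Pool.Agent.Lib.MP_464db4_gt.TR.Zero
import Pool.Agent.Lib.MP_464db4_gt.TR.Pot

/-!
# TR-Coc: the primitive changes under `T.F γ` by the differential of a cocycle
Port of TF/Coc.lean (word by word, `F_tr`, `mean_rho` with `T.ρ`).
-/

namespace TRed

open Complex Matrix MeasureTheory YT
open scoped ContDiff ComplexConjugate ComplexOrder

variable {ι κ : Type} [Fintype ι] [DecidableEq ι] [Fintype κ] [DecidableEq κ] {G : Type} [Group G] {D : Set (ι → ℂ)} {f : G → (ι → ℂ) → (ι → ℂ)} {T : TorusFamily κ D f}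
  {g : (ι ⊕ κ → ℂ) → Matrix (ι ⊕ κ) (ι ⊕ κ) ℂ} {μ : Measure (κ → ℂ)}

/-- `F_γ^*(kp) - kp` -/
noncomputable def kap (T : TorusFamily κ D f) (μ : Measure (κ → ℂ)) (g : (ι ⊕ κ → ℂ) → Matrix (ι ⊕ κ) (ι ⊕ κ) ℂ) (γ : G)
    (x : ι ⊕ κ → ℂ) : ι ⊕ κ → ℂ := fun i => pbF1 T γ (kp T μ g) x i - kp T μ g x i

/-- The real function with differential `kap γ`. -/
noncomputable def fg (T : TorusFamily κ D f) (μ : Measure (κ → ℂ)) (g : (ι ⊕ κ → ℂ) → Matrix (ι ⊕ κ) (ι ⊕ κ) ℂ) (γ : G)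
    (x : ι ⊕ κ → ℂ) : ℝ := pot T μ (kap T μ g γ) x

private theorem Coc_open (hD : IsOpen D) : IsOpen (tot κ D) := isOpen_tot hD

theorem tot_connected (hc : IsConnected D) : IsConnected (tot κ D) := by
  have h0 : IsConnected (Set.univ : Set (κ → ℂ)) := ⟨⟨0, Set.mem_univ _⟩, (convex_univ (𝕜 := ℝ)).isPreconnected⟩
  have h1 : IsConnected (D ×ˢ (Set.univ : Set (κ → ℂ))) := hc.prod h0
  have h2 : Continuous (fun q : (ι → ℂ) × (κ → ℂ) => (pt q.1 q.2 : ι ⊕ κ → ℂ)) := by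
    refine continuous_pi fun k => ?_
    rcases k with k | k
    · exact (continuous_apply k).comp continuous_fst
    · exact (continuous_apply k).comp continuous_snd
  have h3 := h1.image _ h2.continuousOn
  have h4 : (fun q : (ι → ℂ) × (κ → ℂ) => (pt q.1 q.2 : ι ⊕ κ → ℂ)) '' (D ×ˢ Set.univ) = tot κ D := by
    ext x
    constructor
    · rintro ⟨q, hq, rfl⟩
      exact hq.1
    · intro hx
      exact ⟨(bas x, fib x), ⟨hx, Set.mem_univ _⟩, pt_bas_fib x⟩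
  rw [h4] at h3
  exact h3

theorem kap_closed (hB : CompactBase D f) (hμ : IsMean T.Λ μ) (hg : IsKahler (tot κ D) T.total g) (γ : G) :
    IsPrimitive (tot κ D) ∅ (fun _ => 0) (fun _ => 0) (kap T μ g γ) := by
  have h0 := kp_isPrimitive hB.isOpen hμ hg
  have h1 : IsPrimitive (tot κ D) ∅ g (kavg T μ g) (kp T μ g) :=
    ⟨h0.smooth, fun F hF => absurd hF (Set.notMem_empty F), h0.sym, h0.eq⟩
  have h2 := IsPrimitive.comp (Coc_open hB.isOpen) (F_hol T hB.hol γ) (fun x hx => F_mem T hB.maps γ hx) h1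
  have h3 : IsPrimitive (tot κ D) ∅ g (kavg T μ g) (fun x i => ∑ k, kp T μ g (T.F γ x) k * jac (T.F γ) x k i) :=
    IsPrimitive.congr (Coc_open hB.isOpen) (fun x hx => (hg.inv (T.F γ) (Or.inl ⟨γ, rfl⟩) x hx).symm)
      (fun x hx => ((kavg_isKahler hB hμ hg).inv (T.F γ) (Or.inl ⟨γ, rfl⟩) x hx).symm) h2
  exact IsPrimitive.sub (Coc_open hB.isOpen) h1 h3

theorem kap_isPer (hB : CompactBase D f) (hμ : IsMean T.Λ μ) (hg : IsKahler (tot κ D) T.total g) (γ : G) : IsPer T (kap T μ g γ) := by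
  have h1 := kp_isPer hB.isOpen hμ hg
  have h2 := pbF1_isPer hB h1 γ
  refine ⟨fun i => (h2.smooth i).sub (h1.smooth i), fun v hv x hx => ?_⟩
  have e1 := h1.per v hv x hx
  have e2 := h2.per v hv x hx
  funext i
  have e1i := congrFun e1 i
  have e2i := congrFun e2 i
  simp only [pbt1] at e1i e2i
  simp only [pbt1, kap, sub_mul, Finset.sum_sub_distrib]
  rw [e1i, e2i]

theorem kap_mean (hB : CompactBase D f) (hμ : IsMean T.Λ μ) (hc : ∀ k, ∫ v, v k ∂μ = 0) (hg : IsKahler (tot κ D) T.total g) (γ : G) {x : ι ⊕ κ → ℂ}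
    (hx : x ∈ tot κ D) : kavg1 T μ (kap T μ g γ) x = 0 := by
  have h1 := kp_isPer hB.isOpen hμ hg
  have h2 := pbF1_isPer hB h1 γ
  funext i
  have e1 := kavg1_sub hB.isOpen hμ h1 h2 hx i
  have e2 := kavg1_F hB hμ h1 γ hx
  have e3 : pbF1 T γ (kavg1 T μ (kp T μ g)) x i = 0 := by
    simp only [pbF1]
    refine Finset.sum_eq_zero fun k _ => ?_
    rw [kavg1_kp hB.isOpen hμ hc hg (F_mem T hB.maps γ hx)]
    simp
  have e4 : kavg1 T μ (kap T μ g γ) x i = kavg1 T μ (fun y i => pbF1 T γ (kp T μ g) y i - kp T μ g y i) x i := rfl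
  rw [e4, e1, e2, e3, kavg1_kp hB.isOpen hμ hc hg hx]
  simp

theorem kap_coc (hB : CompactBase D f) (hμ : IsMean T.Λ μ) (hg : IsKahler (tot κ D) T.total g) (γ δ : G) {x : ι ⊕ κ → ℂ}
    (hx : x ∈ tot κ D) (i : ι ⊕ κ) : kap T μ g (γ * δ) x i = pbF1 T δ (kap T μ g γ) x i + kap T μ g δ x i := by
  have h1 := congrFun (pbF1_mul hB (kp_isPer hB.isOpen hμ hg) γ δ hx) i
  have h2 : pbF1 T δ (kap T μ g γ) x i = pbF1 T δ (pbF1 T γ (kp T μ g)) x i - pbF1 T δ (kp T μ g) x i := by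
    unfold pbF1 kap pbF1
    simp only [sub_mul, Finset.sum_sub_distrib]
  rw [h2, h1]
  show pbF1 T (γ * δ) (kp T μ g) x i - kp T μ g x i = _ + (pbF1 T δ (kp T μ g) x i - kp T μ g x i)
  ring

theorem fg_smooth (hB : CompactBase D f) (hμ : IsMean T.Λ μ) (hg : IsKahler (tot κ D) T.total g) (γ : G) :
    ContDiffOn ℝ ∞ (fun x => ((fg T μ g γ x : ℝ) : ℂ)) (tot κ D) :=
  pot_smooth hB.isOpen hμ (kap_isPer hB hμ hg γ)

theorem fg_dz (hB : CompactBase D f) (hμ : IsMean T.Λ μ) (hc : ∀ k, ∫ v, v k ∂μ = 0) (hg : IsKahler (tot κ D) T.total g) (γ : G) {x : ι ⊕ κ → ℂ}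
    (hx : x ∈ tot κ D) (i : ι ⊕ κ) : dz i (fun y => ((fg T μ g γ y : ℝ) : ℂ)) x = kap T μ g γ x i := by
  have h1 := pot_dz hB.isOpen hμ (kap_isPer hB hμ hg γ) (kap_closed hB hμ hg γ) hx i
  rw [kap_mean hB hμ hc hg γ hx] at h1
  show dz i (fun y => ((pot T μ (kap T μ g γ) y : ℝ) : ℂ)) x = _
  rw [h1]
  simp

theorem fg_per (hB : CompactBase D f) (hμ : IsMean T.Λ μ) (hg : IsKahler (tot κ D) T.total g) (γ : G) {v : κ → ℂ} (hv : v ∈ T.Λ) {x : ι ⊕ κ → ℂ}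
    (hx : x ∈ tot κ D) : fg T μ g γ (T.tr v x) = fg T μ g γ x :=
  pot_per (kap_isPer hB hμ hg γ) hv hx

private theorem Coc_cont (hB : CompactBase D f) (hμ : IsMean T.Λ μ) (hg : IsKahler (tot κ D) T.total g) (γ : G) {x : ι ⊕ κ → ℂ}
    (hx : x ∈ tot κ D) : Continuous (fun v : κ → ℂ => ((fg T μ g γ (T.tr v x) : ℝ) : ℂ)) := by
  have h1 : Continuous (fun v : κ → ℂ => T.tr v x) :=
    (tr_joint T hB.isOpen).continuousOn.comp_continuous (continuous_const.prodMk continuous_id) fun v => ⟨hx, Set.mem_univ _⟩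
  exact (fg_smooth hB hμ hg γ).continuousOn.comp_continuous h1 fun v => tr_mem T v hx

private theorem Coc_mean (hB : CompactBase D f) (hμ : IsMean T.Λ μ) (hc : ∀ k, ∫ v, v k ∂μ = 0) (hg : IsKahler (tot κ D) T.total g) (γ : G)
    {x : ι ⊕ κ → ℂ} (hx : x ∈ tot κ D) : ∫ v, ((fg T μ g γ (T.tr v x) : ℝ) : ℂ) ∂μ = 0 :=
  pot_mean hB.isOpen hμ (kap_isPer hB hμ hg γ) (fun y hy => kap_mean hB hμ hc hg γ hy) hx

private theorem Coc_mid (hB : CompactBase D f) (hμ : IsMean T.Λ μ) (hc : ∀ k, ∫ v, v k ∂μ = 0) (hg : IsKahler (tot κ D) T.total g) (γ δ : G)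
    {x : ι ⊕ κ → ℂ} (hx : x ∈ tot κ D) :
    Continuous (fun v : κ → ℂ => ((fg T μ g γ (T.F δ (T.tr v x)) : ℝ) : ℂ)) ∧
      ∫ v, ((fg T μ g γ (T.F δ (T.tr v x)) : ℝ) : ℂ) ∂μ = 0 := by
  have hy := F_mem T hB.maps δ hx
  have hu := Coc_cont hB hμ hg γ hy
  have hr : (fun v : κ → ℂ => ((fg T μ g γ (T.F δ (T.tr v x)) : ℝ) : ℂ)) =
      fun v => (fun w : κ → ℂ => ((fg T μ g γ (T.tr w (T.F δ x)) : ℝ) : ℂ)) (T.ρ δ v) := by
    funext v
    simp only [F_tr T δ v hx]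
  refine ⟨?_, ?_⟩
  · rw [hr]
    exact hu.comp (rho_continuous δ)
  · rw [hr, mean_rho δ hμ hu, Coc_mean hB hμ hc hg γ hy]
    intro v hv a
    rw [add_comm a v, ← tr_tr, fg_per hB hμ hg γ hv (tr_mem T a hy)]

theorem fg_coc (hB : CompactBase D f) (hμ : IsMean T.Λ μ) (hc : ∀ k, ∫ v, v k ∂μ = 0) (hg : IsKahler (tot κ D) T.total g) (γ δ : G) {x : ι ⊕ κ → ℂ}
    (hx : x ∈ tot κ D) : fg T μ g (γ * δ) x = fg T μ g γ (T.F δ x) + fg T μ g δ x := by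
  set c : (ι ⊕ κ → ℂ) → ℂ := fun y => ((fg T μ g (γ * δ) y : ℝ) : ℂ) - ((fg T μ g γ (T.F δ y) : ℝ) : ℂ) -
    ((fg T μ g δ y : ℝ) : ℂ) with hcdef
  have dd : ∀ (η : G), ∀ y ∈ tot κ D, DifferentiableAt ℝ (fun y => ((fg T μ g η y : ℝ) : ℂ)) y := fun η y hy =>
    (((fg_smooth hB hμ hg η).differentiableOn (by simp)) y hy).differentiableAt ((Coc_open hB.isOpen).mem_nhds hy)
  have dF : ∀ y ∈ tot κ D, DifferentiableAt ℂ (T.F δ) y := fun _ hy =>
    (F_hol T hB.hol δ).differentiableAt ((Coc_open hB.isOpen).mem_nhds hy)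
  have dm : ∀ y ∈ tot κ D, DifferentiableAt ℝ (fun y => ((fg T μ g γ (T.F δ y) : ℝ) : ℂ)) y := fun y hy =>
    DifferentiableAt.comp y (g := fun y => ((fg T μ g γ y : ℝ) : ℂ)) (dd γ _ (F_mem T hB.maps δ hy)) ((dF y hy).restrictScalars ℝ)
  have dc : ∀ y ∈ tot κ D, DifferentiableAt ℝ c y := fun y hy => ((dd _ y hy).sub (dm y hy)).sub (dd _ y hy)
  have h1 : ∀ y ∈ tot κ D, ∀ i, dz i c y = 0 := by
    intro y hy i
    have e1 : dz i c y = dz i (fun y => ((fg T μ g (γ * δ) y : ℝ) : ℂ) - ((fg T μ g γ (T.F δ y) : ℝ) : ℂ)) y -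
        dz i (fun y => ((fg T μ g δ y : ℝ) : ℂ)) y := dz_sub i ((dd _ y hy).sub (dm y hy)) (dd _ y hy)
    rw [e1, dz_sub i (dd _ y hy) (dm y hy), fg_dz hB hμ hc hg (γ * δ) hy, fg_dz hB hμ hc hg δ hy,
      dz_comp (f := fun y => ((fg T μ g γ y : ℝ) : ℂ)) (F := T.F δ) (dF y hy) (dd γ _ (F_mem T hB.maps δ hy)),
      kap_coc hB hμ hg γ δ hy]
    have e2 : ∑ k, dz k (fun y => ((fg T μ g γ y : ℝ) : ℂ)) (T.F δ y) * jac (T.F δ) y k i = pbF1 T δ (kap T μ g γ) y i := by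
      unfold pbF1
      exact Finset.sum_congr rfl fun k _ => by rw [fg_dz hB hμ hc hg γ (F_mem T hB.maps δ hy)]
    rw [e2]
    ring
  have h2 : ∀ y ∈ tot κ D, ∀ i, dzbar i c y = 0 := by
    intro y hy i
    have e1 : c = fun y => conj (c y) := by
      funext z
      simp only [hcdef, map_sub, Complex.conj_ofReal]
    rw [e1, dzbar_conj, h1 y hy i, map_zero]
  have h3 : ∀ y ∈ tot κ D, c y = c x := by
    intro y hy
    exact (Coc_open hB.isOpen).is_const_of_fderiv_eq_zero (𝕜 := ℝ) (tot_connected hB.conn).isPreconnected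
      (fun z hz => (dc z hz).differentiableWithinAt) (fun z hz => fderiv_eq_zero (h1 z hz) (h2 z hz)) hy hx
  have hprob := hμ.prob
  have h4 : ∫ v, c (T.tr v x) ∂μ = c x := by
    have : (fun v : κ → ℂ => c (T.tr v x)) = fun _ => c x := funext fun v => h3 _ (tr_mem T v hx)
    rw [this]
    simp
  have h5 : ∫ v, c (T.tr v x) ∂μ = 0 := by
    have k1 := hμ.integrable (Coc_cont hB hμ hg (γ * δ) hx)
    have k2 := hμ.integrable (Coc_mid hB hμ hc hg γ δ hx).1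
    have k3 := hμ.integrable (Coc_cont hB hμ hg δ hx)
    simp only [hcdef]
    have k4 : Integrable (fun v => ((fg T μ g (γ * δ) (T.tr v x) : ℝ) : ℂ) - ((fg T μ g γ (T.F δ (T.tr v x)) : ℝ) : ℂ)) μ := k1.sub k2
    rw [integral_sub k4 k3, integral_sub k1 k2, Coc_mean hB hμ hc hg (γ * δ) hx, (Coc_mid hB hμ hc hg γ δ hx).2,
      Coc_mean hB hμ hc hg δ hx]
    simp
  have h6 : c x = 0 := h4.symm.trans h5
  have h7 : ((fg T μ g (γ * δ) x - fg T μ g γ (T.F δ x) - fg T μ g δ x : ℝ) : ℂ) = ((0 : ℝ) : ℂ) := by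
    push_cast
    exact h6
  have h8 := Complex.ofReal_injective h7
  linarith

end TRed
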