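import Pool.Agent.Lib.MP_464db4_gt.YT.Defs

/-!
# Holomorphic families of complex tori over compact complex manifolds of any dimension which are covered by domains of `ℂ^n`

`D` is a connected open subset of `ℂ^ι` and a group `G` acts on `D` by holomorphic maps `f γ`, properly and with compact quotient `B`.  A family of
complex tori over `B` is described on `D × ℂ^κ`: the fibre over `b ∈ D` is (up to the elements of `G` which act trivially on `D`) the quotient of `ℂ^κ`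
by the lattice of the vectors `per b v = Z₁(b) re v + Z₂(b) im v`, `v ∈ Λ ⊂ ℂ^κ = ℝ^(2m)`, with holomorphic matrices `Z₁`, `Z₂`; the elements `γ` of `G`
act by `(b,z) ↦ (f_γ(b), A_γ(b) z + σ_γ(b))`.
-/

namespace TRed

open Complex Matrix MeasureTheory YT
open scoped ContDiff ComplexConjugate ComplexOrder

variable {ι κ : Type} [Fintype ι] [DecidableEq ι] [Fintype κ] [DecidableEq κ]

/-- The group `G` acts on the connected open set `D` by the holomorphic maps `f γ`, properly and cocompactly. -/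
structure CompactBase {G : Type} [Group G] (D : Set (ι → ℂ)) (f : G → (ι → ℂ) → (ι → ℂ)) : Prop where
  isOpen : IsOpen D
  conn : IsConnected D
  maps : ∀ γ, ∀ b ∈ D, f γ b ∈ D
  hol : ∀ γ, DifferentiableOn ℂ (f γ) D
  one : ∀ b ∈ D, f 1 b = b
  mul : ∀ γ δ, ∀ b ∈ D, f (γ * δ) b = f γ (f δ b)
  proper : ∀ K : Set (ι → ℂ), K ⊆ D → IsCompact K → {γ : G | ∃ b ∈ K, f γ b ∈ K}.Finite
  cocompact : ∃ K : Set (ι → ℂ), K ⊆ D ∧ IsCompact K ∧ ∀ b ∈ D, ∃ γ, f γ b ∈ K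

/-- The real-linear map `v ↦ Z₁ re v + Z₂ im v`. -/
noncomputable def perOf (Z₁ Z₂ : Matrix κ κ ℂ) (v : κ → ℂ) : κ → ℂ :=
  Z₁ *ᵥ (fun k => (((v k).re : ℝ) : ℂ)) + Z₂ *ᵥ (fun k => (((v k).im : ℝ) : ℂ))

/-- Data of a holomorphic family of (finite quotients of) complex tori: periods `Z₁`, `Z₂`, a full lattice `Λ`, for `γ ∈ G` a real-linear map `ρ γ` which
preserves `Λ`, and holomorphic functions `A γ`, `σ γ` with `A_γ(b) per b v = per (f_γ b) (ρ_γ v)`, such that the maps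
`F_γ(b,z) = (f_γ b, A_γ(b) z + σ_γ(b))` satisfy `F_γ F_δ = F_(γδ)` up to a translation by an element of `Λ`. -/
structure TorusFamily (κ : Type) [Fintype κ] [DecidableEq κ] {G : Type} [Group G] (D : Set (ι → ℂ)) (f : G → (ι → ℂ) → (ι → ℂ)) where
  Z₁ : (ι → ℂ) → Matrix κ κ ℂ
  Z₂ : (ι → ℂ) → Matrix κ κ ℂ
  Λ : Submodule ℤ (κ → ℂ)
  ρ : G → (κ → ℂ) →ₗ[ℝ] (κ → ℂ)
  A : G → (ι → ℂ) → Matrix κ κ ℂ
  σ : G → (ι → ℂ) → (κ → ℂ)
  Z₁_hol : ∀ k l, DifferentiableOn ℂ (fun b => Z₁ b k l) D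
  Z₂_hol : ∀ k l, DifferentiableOn ℂ (fun b => Z₂ b k l) D
  bij : ∀ b ∈ D, Function.Bijective (perOf (Z₁ b) (Z₂ b))
  disc : DiscreteTopology Λ
  span : Submodule.span ℝ (Λ : Set (κ → ℂ)) = ⊤
  pres : ∀ γ, ρ γ '' (Λ : Set (κ → ℂ)) = Λ
  A_hol : ∀ γ k l, DifferentiableOn ℂ (fun b => A γ b k l) D
  σ_hol : ∀ γ k, DifferentiableOn ℂ (fun b => σ γ b k) D
  A_per : ∀ (γ : G), ∀ b ∈ D, ∀ v, A γ b *ᵥ perOf (Z₁ b) (Z₂ b) v = perOf (Z₁ (f γ b)) (Z₂ (f γ b)) (ρ γ v)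
  comp : ∀ γ δ : G, ∃ v ∈ Λ, ∀ b ∈ D, ∀ z : κ → ℂ,
    A γ (f δ b) *ᵥ (A δ b *ᵥ z + σ δ b) + σ γ (f δ b) =
      A (γ * δ) b *ᵥ z + σ (γ * δ) b + perOf (Z₁ (f (γ * δ) b)) (Z₂ (f (γ * δ) b)) v

section family

variable {G : Type} [Group G] {D : Set (ι → ℂ)} {f : G → (ι → ℂ) → (ι → ℂ)}

/-- The vector `per b v = Z₁(b) re v + Z₂(b) im v`. -/
noncomputable def TorusFamily.per (T : TorusFamily κ D f) (b : ι → ℂ) (v : κ → ℂ) : κ → ℂ := perOf (T.Z₁ b) (T.Z₂ b) v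

/-- The translation `(b,z) ↦ (b, z + per b v)`. -/
noncomputable def TorusFamily.tr (T : TorusFamily κ D f) (v : κ → ℂ) (x : ι ⊕ κ → ℂ) : ι ⊕ κ → ℂ := x + pt 0 (T.per (bas x) v)

/-- The map `(b,z) ↦ (f_γ b, A_γ(b) z + σ_γ(b))`. -/
noncomputable def TorusFamily.F (T : TorusFamily κ D f) (γ : G) (x : ι ⊕ κ → ℂ) : ι ⊕ κ → ℂ :=
  pt (f γ (bas x)) (T.A γ (bas x) *ᵥ fib x + T.σ γ (bas x))

/-- The translations of the lattice. -/
def TorusFamily.trans (T : TorusFamily κ D f) : Set ((ι ⊕ κ → ℂ) → (ι ⊕ κ → ℂ)) := {F | ∃ v ∈ T.Λ, F = T.tr v}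

/-- The maps defining the total space. -/
def TorusFamily.total (T : TorusFamily κ D f) : Set ((ι ⊕ κ → ℂ) → (ι ⊕ κ → ℂ)) := Set.range T.F ∪ T.trans

/-- The form `gm` on the total space is invariant under all the translations `(b,z) ↦ (b, z + per b w)`, `w ∈ ℝ^(2m)`, of the fibres. -/
def FibreFlat (T : TorusFamily κ D f) (gm : (ι ⊕ κ → ℂ) → Matrix (ι ⊕ κ) (ι ⊕ κ) ℂ) : Prop :=
  ∀ w, ∀ x ∈ tot κ D, (jac (T.tr w) x)ᵀ * gm (T.tr w x) * mconj (jac (T.tr w) x) = gm x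

end family

/-- The block of the fibre directions, as a function on the base. -/
noncomputable def hv (gm : (ι ⊕ κ → ℂ) → Matrix (ι ⊕ κ) (ι ⊕ κ) ℂ) (b : ι → ℂ) : Matrix κ κ ℂ := (gm (pt b 0)).toBlocks₂₂

/-- The form induced on the base: for `gm = [[P, Q], [Q^*, h]]` the Schur complement `P - Q h⁻¹ Q^*` at the point `(b,0)`. -/
noncomputable def sch (gm : (ι ⊕ κ → ℂ) → Matrix (ι ⊕ κ) (ι ⊕ κ) ℂ) (b : ι → ℂ) : Matrix ι ι ℂ :=
  (gm (pt b 0)).toBlocks₁₁ - (gm (pt b 0)).toBlocks₁₂ * (hv gm b)⁻¹ * ((gm (pt b 0)).toBlocks₁₂)ᴴ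

/-- `log det` of a matrix valued function on the base. -/
noncomputable def ldm (h : (ι → ℂ) → Matrix κ κ ℂ) (b : ι → ℂ) : ℂ := ((Real.log (h b).det.re : ℝ) : ℂ)

/-- The scalar curvature of the form `β` on the base, minus the trace with respect to `β` of the form `i ∂∂̄ log det h`, `h = hv gm`. -/
noncomputable def twscal (gm : (ι ⊕ κ → ℂ) → Matrix (ι ⊕ κ) (ι ⊕ κ) ℂ) (β : (ι → ℂ) → Matrix ι ι ℂ) (b : ι → ℂ) : ℂ :=
  scal β b - ∑ i, ∑ j, (β b)⁻¹ j i * dz i (fun y => dzbar j (ldm (hv gm)) y) b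

end TRed
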