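import Pool.Agent.Lib.MP_464db4_gt.TR.Defs

/-!
# The Weil-Petersson type form of the family and the twisted scalar curvature
-/

namespace TRed

open Complex Matrix MeasureTheory YT
open scoped ContDiff ComplexConjugate ComplexOrder

variable {ι κ : Type} [Fintype ι] [DecidableEq ι] [Fintype κ] [DecidableEq κ] {G : Type} [Group G] {D : Set (ι → ℂ)} {f : G → (ι → ℂ) → (ι → ℂ)}

/-- The matrix `[[Z₁, Z₂], [conj Z₁, conj Z₂]]`; the absolute value of its determinant is `2^m` times that of the determinant of the real-linear map `per b`. -/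
noncomputable def omg (T : TorusFamily κ D f) (b : ι → ℂ) : Matrix (κ ⊕ κ) (κ ⊕ κ) ℂ :=
  fromBlocks (T.Z₁ b) (T.Z₂ b) (mconj (T.Z₁ b)) (mconj (T.Z₂ b))

/-- The function `log |det [[Z₁, Z₂], [conj Z₁, conj Z₂]]|`. -/
noncomputable def logP (T : TorusFamily κ D f) (b : ι → ℂ) : ℂ := ((Real.log ‖(omg T b).det‖ : ℝ) : ℂ)

/-- The coefficient matrix of the form `w = -i ∂∂̄ log |det [[Z₁, Z₂], [conj Z₁, conj Z₂]]|`. -/
noncomputable def wpf (T : TorusFamily κ D f) (b : ι → ℂ) : Matrix ι ι ℂ := Matrix.of fun i j => -dz i (fun y => dzbar j (logP T) y) b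

/-- The twisted scalar curvature `scal β - tr_β w` of a form `β` on the base, where `w = -i ∂∂̄ log |det [[Z₁, Z₂], [conj Z₁, conj Z₂]]|`. -/
noncomputable def twsc (T : TorusFamily κ D f) (β : (ι → ℂ) → Matrix ι ι ℂ) (b : ι → ℂ) : ℂ :=
  scal β b - ∑ i, ∑ j, (β b)⁻¹ j i * wpf T b i j

end TRed
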