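import Pool.Agent.Lib.MP_464db4_gt.TR.EpsS

/-!
# TR-EpsA: the primitive on the base is closed

`ε = q - Σ h⁻¹ p`, `Σ = (Q + Q')/2` (`sgm`).  `mdz j (Σ h⁻¹ p) = (mdz j Σ) h⁻¹ p + Σ (h⁻¹ mM_jᵀ) p + Σ h⁻¹ (-mM_jᵀ p) = (mdz j Σ) h⁻¹ p` (`mdz_mul`, `hinv_dz`, `rel_pp`), and the entry `(i,())` of this is
symmetric in `i`, `j` by `rel_q` for `gm` and `g'`; with `rel_qq` this is `epsR_sym`.
`sgm_dzbar`: `rel_qb` for `gm` and `g'` (`eB` is additive and real-homogeneous in `Q`: `conj (1/2) = 1/2`).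
-/

namespace TRed

open Complex Matrix MeasureTheory YT
open scoped ContDiff ComplexConjugate ComplexOrder

variable {ι κ : Type} [Fintype ι] [DecidableEq ι] [Fintype κ] [DecidableEq κ] {G : Type} [Group G] {D : Set (ι → ℂ)}
  {f : G → (ι → ℂ) → (ι → ℂ)} {T : TorusFamily κ D f} {gm g' : (ι ⊕ κ → ℂ) → Matrix (ι ⊕ κ) (ι ⊕ κ) ℂ} {S : Set ((ι ⊕ κ → ℂ) → (ι ⊕ κ → ℂ))} {b : ι → ℂ}
  {e : (ι ⊕ κ → ℂ) → (ι ⊕ κ → ℂ)}

/-- The half sum of the mixed blocks. -/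
noncomputable def sgm (gm g' : (ι ⊕ κ → ℂ) → Matrix (ι ⊕ κ) (ι ⊕ κ) ℂ) (b : ι → ℂ) : Matrix ι κ ℂ := (1 / 2 : ℂ) • (qb gm b + qb g' b)

/-- The column `Σ h⁻¹ p`. -/
noncomputable def spv (gm g' : (ι ⊕ κ → ℂ) → Matrix (ι ⊕ κ) (ι ⊕ κ) ℂ) (e : (ι ⊕ κ → ℂ) → (ι ⊕ κ → ℂ)) (b : ι → ℂ) : Matrix ι Unit ℂ :=
  sgm gm g' b * (hv gm b)⁻¹ * pv e b

/-- The primitive on the base. -/
noncomputable def epsR (gm g' : (ι ⊕ κ → ℂ) → Matrix (ι ⊕ κ) (ι ⊕ κ) ℂ) (e : (ι ⊕ κ → ℂ) → (ι ⊕ κ → ℂ)) (b : ι → ℂ) : ι → ℂ :=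
  fun i => qv e b i () - spv gm g' e b i ()

theorem mdiff_sgm (hD : IsOpen D) (hg : IsKahler (tot κ D) S gm) (hg' : IsKahler (tot κ D) S g') (hb : b ∈ D) : MDiff (sgm gm g') b := by
  exact ((mdiff_qb hD hg hb).add (mdiff_qb hD hg' hb)).smul (1 / 2)

theorem mdiff_spv (hD : IsOpen D) (hg : IsKahler (tot κ D) S gm) (hg' : IsKahler (tot κ D) S g') (he : IsPrimitive (tot κ D) S gm g' e) (hb : b ∈ D) :
    MDiff (spv gm g' e) b := by
  exact ((mdiff_sgm hD hg hg' hb).mul (mdiff_hinv hD hg hb)).mul (mdiff_pv hD he hb)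

theorem sgm_dz (hD : IsOpen D) (hg : IsKahler (tot κ D) S gm) (hg' : IsKahler (tot κ D) S g') (hb : b ∈ D) (i j : ι) (m : κ) :
    mdz j (sgm gm g') b i m = mdz i (sgm gm g') b j m := by
  have e1 : ∀ k, mdz k (sgm gm g') b = (1 / 2 : ℂ) • (mdz k (qb gm) b + mdz k (qb g') b) := by
    intro k
    have h1 : mdz k (sgm gm g') b = (1 / 2 : ℂ) • mdz k (fun y => qb gm y + qb g' y) b :=
      mdz_smul (1 / 2) ((mdiff_qb hD hg hb).add (mdiff_qb hD hg' hb)) k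
    rw [h1, mdz_add (mdiff_qb hD hg hb) (mdiff_qb hD hg' hb) k]
  rw [e1, e1, Matrix.smul_apply, Matrix.smul_apply, Matrix.add_apply, Matrix.add_apply, rel_q hD hg hb i j m, rel_q hD hg' hb i j m]

theorem sgm_dzbar (hD : IsOpen D) (hg : IsKahler (tot κ D) S gm) (hg' : IsKahler (tot κ D) S g') (hf : FibreFlat T gm) (hf' : FibreFlat T g') (hb : b ∈ D) (j : ι) :
    mdb j (sgm gm g') b = -eB T b (sgm gm g' b) j - sgm gm g' b * mconj (mM T b j) := by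
  have h1 : mdb j (sgm gm g') b = (1 / 2 : ℂ) • mdb j (fun y => qb gm y + qb g' y) b :=
    mdb_smul (1 / 2) ((mdiff_qb hD hg hb).add (mdiff_qb hD hg' hb)) j
  have h2 : eB T b (sgm gm g' b) j = (1 / 2 : ℂ) • (eB T b (qb gm b) j + eB T b (qb g' b) j) := by
    ext i m
    simp only [eB, sgm, Matrix.of_apply, Matrix.smul_apply, Matrix.add_apply, smul_eq_mul, map_mul, map_add, map_div₀, map_one, map_ofNat]
    rw [← Finset.sum_add_distrib, Finset.mul_sum]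
    refine Finset.sum_congr rfl fun l _ => ?_
    ring
  have h3 : sgm gm g' b = (1 / 2 : ℂ) • (qb gm b + qb g' b) := rfl
  rw [h1, mdb_add (mdiff_qb hD hg hb) (mdiff_qb hD hg' hb) j, rel_qb hD hg hf hb j, rel_qb hD hg' hf' hb j, h2, h3, Matrix.smul_mul,
    Matrix.add_mul, ← smul_neg, ← smul_sub]
  congr 1
  abel

theorem spv_dz (hD : IsOpen D) (hg : IsKahler (tot κ D) S gm) (hg' : IsKahler (tot κ D) S g') (hf : FibreFlat T gm)
    (he : IsPrimitive (tot κ D) S gm g' e) (hfe : Flat1 T e) (hb : b ∈ D) (j : ι) :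
    mdz j (spv gm g' e) b = mdz j (sgm gm g') b * (hv gm b)⁻¹ * pv e b := by
  have h1 : mdz j (spv gm g' e) b = mdz j (fun y => sgm gm g' y * (hv gm y)⁻¹) b * pv e b + sgm gm g' b * (hv gm b)⁻¹ * mdz j (pv e) b :=
    mdz_mul ((mdiff_sgm hD hg hg' hb).mul (mdiff_hinv hD hg hb)) (mdiff_pv hD he hb) j
  have h2 : mdz j (fun y => sgm gm g' y * (hv gm y)⁻¹) b =
      mdz j (sgm gm g') b * (hv gm b)⁻¹ + sgm gm g' b * mdz j (fun y => (hv gm y)⁻¹) b :=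
    mdz_mul (mdiff_sgm hD hg hg' hb) (mdiff_hinv hD hg hb) j
  rw [h1, h2, hinv_dz hD hg hf hb j, rel_pp hD he hfe hb j, Matrix.add_mul, Matrix.mul_neg]
  simp only [Matrix.mul_assoc]
  abel

theorem epsR_sym (hD : IsOpen D) (hg : IsKahler (tot κ D) S gm) (hg' : IsKahler (tot κ D) S g') (hf : FibreFlat T gm) (hf' : FibreFlat T g')
    (he : IsPrimitive (tot κ D) S gm g' e) (hfe : Flat1 T e) (hb : b ∈ D) (i j : ι) :
    dz i (fun y => epsR gm g' e y j) b = dz j (fun y => epsR gm g' e y i) b := by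
  show dz i (fun y => qv e y j () - spv gm g' e y j ()) b = dz j (fun y => qv e y i () - spv gm g' e y i ()) b
  rw [dz_sub i (mdiff_qv hD he hb j ()) (mdiff_spv hD hg hg' he hb j ()), dz_sub j (mdiff_qv hD he hb i ()) (mdiff_spv hD hg hg' he hb i ())]
  have h1 : dz i (fun y => qv e y j ()) b = dz j (fun y => qv e y i ()) b := rel_qq hD he hb i j
  have h2 : ∀ k l : ι, dz k (fun y => spv gm g' e y l ()) b = (mdz k (sgm gm g') b * ((hv gm b)⁻¹ * pv e b)) l () := by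
    intro k l
    have h3 : dz k (fun y => spv gm g' e y l ()) b = mdz k (spv gm g' e) b l () := rfl
    rw [h3, spv_dz hD hg hg' hf he hfe hb k, Matrix.mul_assoc]
  rw [h1, h2, h2, Matrix.mul_apply, Matrix.mul_apply]
  congr 1
  exact Finset.sum_congr rfl fun m _ => by rw [sgm_dz hD hg hg' hb j i m]

end TRed
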