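import Pool.Agent.Lib.MP_464db4_gt.TR.EpsA

/-!
# TR-EpsB: the equation of the primitive on the base

`Δ = Q' - Q` (`dlt`), `Δ i m = -I (conj (mdb i p m) + ∑ k, p k mB_i k m)` (`rel_dq`).  `Q' h⁻¹ Q'ᴴ - Q h⁻¹ Qᴴ = Σ h⁻¹ Δᴴ + Δ h⁻¹ Σᴴ`.
`mdb j (spv) = (mdb j Σ) h⁻¹ p + Σ (mconj mM_j h⁻¹) p + Σ h⁻¹ (mdb j p) = -(eB Σ j) h⁻¹ p + Σ h⁻¹ (mdb j p)` (`mdb_mul`, `hinv_dzbar`, `sgm_dzbar`), the entry `(i,())`:
`spv_dzbar`: `mdb j spv i = -∑ l m, conj (Σ j l) (mB_i h⁻¹) l m p m + ∑ l m, Σ i l h⁻¹ l m (mdb j p) m`.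
`epsR_eq`: `sch g' - sch gm = (P' - P) - (Σ h⁻¹ Δᴴ + Δ h⁻¹ Σᴴ)`, `hv g' b = hv gm b` (`rel_ph`), and
`-I (dz i (conj ε_j) - dzbar j ε_i) = (P' - P) i j + I (conj (mdb i spv j) - mdb j spv i)` (`rel_dp`, `dz_conj`), so the claim is
`I (conj (mdb i spv j) - mdb j spv i) = -(Σ h⁻¹ Δᴴ + Δ h⁻¹ Σᴴ) i j`: compare the four terms, the two with `mB` with `hinv_B'` and `hinv_B`, `conj (h⁻¹ l m) = h⁻¹ m l`.
-/

namespace TRed

open Complex Matrix MeasureTheory YT
open scoped ContDiff ComplexConjugate ComplexOrder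

variable {ι κ : Type} [Fintype ι] [DecidableEq ι] [Fintype κ] [DecidableEq κ] {G : Type} [Group G] {D : Set (ι → ℂ)}
  {f : G → (ι → ℂ) → (ι → ℂ)} {T : TorusFamily κ D f} {gm g' : (ι ⊕ κ → ℂ) → Matrix (ι ⊕ κ) (ι ⊕ κ) ℂ} {S : Set ((ι ⊕ κ → ℂ) → (ι ⊕ κ → ℂ))} {b : ι → ℂ}
  {e : (ι ⊕ κ → ℂ) → (ι ⊕ κ → ℂ)}

/-- The difference of the mixed blocks. -/
noncomputable def dlt (gm g' : (ι ⊕ κ → ℂ) → Matrix (ι ⊕ κ) (ι ⊕ κ) ℂ) (b : ι → ℂ) : Matrix ι κ ℂ := qb g' b - qb gm b

private theorem EpsB_half : star (1 / 2 : ℂ) = 1 / 2 := by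
  rw [Complex.star_def, map_div₀, map_one, map_ofNat]

omit [Fintype ι] [DecidableEq ι] [DecidableEq κ] in
private theorem EpsB_sch (Q Q' : Matrix ι κ ℂ) (hi : Matrix κ κ ℂ) :
    Q' * hi * Q'ᴴ - Q * hi * Qᴴ = ((1 / 2 : ℂ) • (Q + Q')) * hi * (Q' - Q)ᴴ + (Q' - Q) * hi * ((1 / 2 : ℂ) • (Q + Q'))ᴴ := by
  rw [Matrix.conjTranspose_smul, EpsB_half, Matrix.conjTranspose_sub, Matrix.conjTranspose_add, Matrix.smul_mul, Matrix.smul_mul,
    Matrix.mul_smul, Matrix.add_mul, Matrix.sub_mul, Matrix.add_mul, Matrix.mul_sub, Matrix.mul_sub, Matrix.sub_mul, Matrix.mul_add,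
    Matrix.mul_add]
  module

theorem sch_diff (hh : hv g' b = hv gm b) : sch g' b - sch gm b =
    (pb g' b - pb gm b) - (sgm gm g' b * (hv gm b)⁻¹ * (dlt gm g' b)ᴴ + dlt gm g' b * (hv gm b)⁻¹ * (sgm gm g' b)ᴴ) := by
  unfold sgm dlt
  rw [← EpsB_sch, sch_eq, sch_eq, hh]
  abel

theorem spv_dzbar (hD : IsOpen D) (hg : IsKahler (tot κ D) S gm) (hg' : IsKahler (tot κ D) S g') (hf : FibreFlat T gm) (hf' : FibreFlat T g')
    (he : IsPrimitive (tot κ D) S gm g' e) (hb : b ∈ D) (j : ι) :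
    mdb j (spv gm g' e) b = -(eB T b (sgm gm g' b) j * (hv gm b)⁻¹ * pv e b) + sgm gm g' b * (hv gm b)⁻¹ * mdb j (pv e) b := by
  have hs := mdiff_sgm hD hg hg' hb
  have hh := mdiff_hinv hD hg hb
  have hp := mdiff_pv hD he hb
  have h1 : mdb j (fun y => sgm gm g' y * (hv gm y)⁻¹) b = -(eB T b (sgm gm g' b) j * (hv gm b)⁻¹) := by
    have h2 := mdb_mul (b := b) hs hh j
    rw [h2, sgm_dzbar hD hg hg' hf hf' hb j, hinv_dzbar hD hg hf hb j, Matrix.sub_mul, ← Matrix.mul_assoc, sub_add_cancel,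
      Matrix.neg_mul]
  have h3 : spv gm g' e = fun y => (sgm gm g' y * (hv gm y)⁻¹) * pv e y := rfl
  have h4 := mdb_mul (b := b) (hs.mul hh) hp j
  rw [h3, h4, h1, Matrix.neg_mul]

omit [Fintype ι] [DecidableEq ι] [DecidableEq κ] in
/-- The algebraic identity, in general form. -/
private theorem EpsB_alg (Sg : Matrix ι κ ℂ) (hi : Matrix κ κ ℂ) (hh : hiᴴ = hi) (B : ι → Matrix κ κ ℂ)
    (hB : ∀ i, (B i * hi)ᵀ = B i * hi) (p : Matrix κ Unit ℂ) (X : ι → Matrix κ Unit ℂ) (E : ι → Matrix ι κ ℂ)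
    (hE : ∀ j i m, E j i m = ∑ l, conj (Sg j l) * B i l m) (Δ : Matrix ι κ ℂ)
    (hΔ : ∀ i m, Δ i m = -I * (conj (X i m ()) + ∑ k, p k () * B i k m)) (i j : ι) :
    I * (conj ((-(E i * hi * p) + Sg * hi * X i) j ()) - (-(E j * hi * p) + Sg * hi * X j) i ()) =
      -(Sg * hi * Δᴴ + Δ * hi * Sgᴴ) i j := by
  have hEp : ∀ i j, (E j * hi * p) i () = ∑ l, conj (Sg j l) * (B i * hi * p) l () := by
    intro i j
    rw [Matrix.mul_assoc, Matrix.mul_apply]
    simp only [hE, Matrix.mul_assoc (B i) hi p, Matrix.mul_apply (M := B i)]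
    simp only [Finset.sum_mul, Finset.mul_sum]
    rw [Finset.sum_comm]
    exact Finset.sum_congr rfl fun l _ => Finset.sum_congr rfl fun m _ => by ring
  have hC : ∀ j l k, (hi * (B j)ᴴ) l k = conj ((B j * hi) l k) := by
    intro j l k
    have h1 : hi * (B j)ᴴ = (B j * hi)ᴴ := by rw [Matrix.conjTranspose_mul, hh]
    have h2 : (B j * hi) k l = (B j * hi) l k := congrFun (congrFun (hB j) l) k
    rw [h1, Matrix.conjTranspose_apply, h2]
    rfl
  -- the first product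
  have h1 : (Sg * hi * Δᴴ) i j = I * ((Sg * hi * X j) i () + ∑ l, Sg i l * conj ((B j * hi * p) l ())) := by
    have e1 : (Sg * hi * Δᴴ) i j = ∑ m, (Sg * hi) i m * conj (Δ j m) := by
      rw [Matrix.mul_apply]
      rfl
    have e2 : ∀ m, conj (Δ j m) = I * (X j m () + ∑ k, conj (p k ()) * conj (B j k m)) := by
      intro m
      rw [hΔ, map_mul, map_neg, Complex.conj_I, neg_neg, map_add, Complex.conj_conj, map_sum]
      simp only [map_mul]
    have e3 : (Sg * hi * X j) i () = ∑ m, (Sg * hi) i m * X j m () := Matrix.mul_apply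
    have e4 : ∑ m, (Sg * hi) i m * ∑ k, conj (p k ()) * conj (B j k m) = ∑ l, Sg i l * conj ((B j * hi * p) l ()) := by
      have f1 : ∀ l, conj ((B j * hi * p) l ()) = ∑ k, (hi * (B j)ᴴ) l k * conj (p k ()) := by
        intro l
        rw [Matrix.mul_apply, map_sum]
        exact Finset.sum_congr rfl fun k _ => by rw [map_mul, hC]
      have f2 : ∑ l, Sg i l * conj ((B j * hi * p) l ()) = ∑ k, (Sg * (hi * (B j)ᴴ)) i k * conj (p k ()) := by
        simp only [f1, Matrix.mul_apply (M := Sg), Finset.mul_sum, Finset.sum_mul]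
        rw [Finset.sum_comm]
        exact Finset.sum_congr rfl fun l _ => Finset.sum_congr rfl fun k _ => by ring
      rw [f2, ← Matrix.mul_assoc]
      simp only [Matrix.mul_apply (M := Sg * hi), Matrix.conjTranspose_apply, Finset.mul_sum, Finset.sum_mul]
      rw [Finset.sum_comm]
      refine Finset.sum_congr rfl fun l _ => Finset.sum_congr rfl fun k _ => ?_
      rw [Complex.star_def]
      ring
    rw [e1, e3, ← e4]
    simp only [e2, mul_add, Finset.mul_sum, ← Finset.sum_add_distrib]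
    refine Finset.sum_congr rfl fun m _ => ?_
    rw [← Finset.mul_sum]
    simp only [Finset.mul_sum]
    congr 1
    · ring
    · exact Finset.sum_congr rfl fun k _ => by ring
  -- the second product
  have h2 : (Δ * hi * Sgᴴ) i j = -I * (conj ((Sg * hi * X i) j ()) + ∑ l, conj (Sg j l) * (B i * hi * p) l ()) := by
    have e1 : (Δ * hi * Sgᴴ) i j = ∑ m, Δ i m * conj ((Sg * hi) j m) := by
      rw [Matrix.mul_assoc, Matrix.mul_apply]
      refine Finset.sum_congr rfl fun m _ => ?_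
      have : hi * Sgᴴ = (Sg * hi)ᴴ := by rw [Matrix.conjTranspose_mul, hh]
      rw [this, Matrix.conjTranspose_apply]
      rfl
    have e3 : conj ((Sg * hi * X i) j ()) = ∑ m, conj (X i m ()) * conj ((Sg * hi) j m) := by
      rw [Matrix.mul_apply, map_sum]
      exact Finset.sum_congr rfl fun m _ => by rw [map_mul, mul_comm]
    have e4 : ∑ m, (∑ k, p k () * B i k m) * conj ((Sg * hi) j m) = ∑ l, conj (Sg j l) * (B i * hi * p) l () := by
      have f0 : ∀ m, conj ((Sg * hi) j m) = ∑ l, hi m l * conj (Sg j l) := by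
        intro m
        have : conj ((Sg * hi) j m) = (Sg * hi)ᴴ m j := by rw [Matrix.conjTranspose_apply]; rfl
        rw [this, Matrix.conjTranspose_mul, hh, Matrix.mul_apply]
        rfl
      have f1 : ∀ l, (B i * hi * p) l () = ∑ k, (B i * hi) k l * p k () := by
        intro l
        rw [Matrix.mul_apply]
        refine Finset.sum_congr rfl fun k _ => ?_
        have := congrFun (congrFun (hB i) k) l
        rw [Matrix.transpose_apply] at this
        rw [this]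
      simp only [f0, f1, Matrix.mul_apply (M := B i), Finset.mul_sum, Finset.sum_mul]
      have g1 : ∀ l : κ, ∑ k, ∑ m, conj (Sg j l) * (B i k m * hi m l * p k ()) =
          ∑ m, ∑ k, conj (Sg j l) * (B i k m * hi m l * p k ()) := fun l => Finset.sum_comm
      simp only [g1]
      have g2 : ∀ m : κ, ∑ l, ∑ k, p k () * B i k m * (hi m l * conj (Sg j l)) =
          ∑ l, ∑ k, p k () * B i k m * (hi m l * conj (Sg j l)) := fun m => rfl
      rw [Finset.sum_comm]
      refine Finset.sum_congr rfl fun l _ => Finset.sum_congr rfl fun m _ => Finset.sum_congr rfl fun k _ => ?_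
      ring
    rw [e1, e3, ← e4]
    simp only [hΔ]
    rw [← Finset.sum_add_distrib, Finset.mul_sum]
    exact Finset.sum_congr rfl fun m _ => by ring
  have h3 : conj ((E i * hi * p) j ()) = ∑ l, Sg i l * conj ((B j * hi * p) l ()) := by
    rw [hEp, map_sum]
    exact Finset.sum_congr rfl fun l _ => by rw [map_mul, Complex.conj_conj]
  rw [Matrix.add_apply (Sg * hi * Δᴴ), h1, h2, Matrix.add_apply, Matrix.add_apply, Matrix.neg_apply, Matrix.neg_apply, map_add, map_neg,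
    h3, hEp i j]
  ring

/-- The algebraic identity. -/
theorem epsR_alg (hD : IsOpen D) (hg : IsKahler (tot κ D) S gm) (hg' : IsKahler (tot κ D) S g') (hf : FibreFlat T gm) (hf' : FibreFlat T g')
    (he : IsPrimitive (tot κ D) S gm g' e) (hfe : Flat1 T e) (hb : b ∈ D) (i j : ι) :
    I * (conj (mdb i (spv gm g' e) b j ()) - mdb j (spv gm g' e) b i ()) =
      -(sgm gm g' b * (hv gm b)⁻¹ * (dlt gm g' b)ᴴ + dlt gm g' b * (hv gm b)⁻¹ * (sgm gm g' b)ᴴ) i j := by
  rw [spv_dzbar hD hg hg' hf hf' he hb i, spv_dzbar hD hg hg' hf hf' he hb j]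
  exact EpsB_alg (sgm gm g' b) (hv gm b)⁻¹ (hv_posDefR hg hb).1.inv (fun i => mB T b i) (fun i => hinv_B' hD hg hf hb i) (pv e b)
    (fun i => mdb i (pv e) b) (fun j => eB T b (sgm gm g' b) j) (fun j i m => rfl) (dlt gm g' b)
    (fun i m => rel_dq hD he hfe hb i m) i j

theorem epsR_eq (hD : IsOpen D) (hg : IsKahler (tot κ D) S gm) (hg' : IsKahler (tot κ D) S g') (hf : FibreFlat T gm) (hf' : FibreFlat T g')
    (he : IsPrimitive (tot κ D) S gm g' e) (hfe : Flat1 T e) (hb : b ∈ D) (i j : ι) :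
    sch g' b i j - sch gm b i j = -I * (dz i (fun y => conj (epsR gm g' e y j)) b - dzbar j (fun y => epsR gm g' e y i) b) := by
  have h1 := congrFun (congrFun (sch_diff (rel_ph hD he hfe hb)) i) j
  rw [Matrix.sub_apply, Matrix.sub_apply, Matrix.sub_apply] at h1
  have h2 := epsR_alg hD hg hg' hf hf' he hfe hb i j
  have h3 := rel_dp hD he hb i j
  have hq := mdiff_qv hD he hb
  have hs := mdiff_spv hD hg hg' he hb
  have h4 : ∀ i j, dzbar j (fun y => epsR gm g' e y i) b = mdb j (qv e) b i () - mdb j (spv gm g' e) b i () := by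
    intro i j
    exact dzbar_sub j (hq i ()) (hs i ())
  rw [dz_conj, h4, h4, map_sub, h1, h3]
  linear_combination -h2

end TRed
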