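import Pool.Agent.Lib.MP_464db4_gt.TR.SchA

/-!
# TR-EpsS: a primitive which is flat along the fibres

`e` is a primitive of `g' - gm` with `(tr w)^* e = e` for all `w` (`Flat1`).  At `pt b 0`, `w = pinv T b z`, `jac_tr`, `tr_pinv`: `p(b,z) = p(b,0)`, `q_i(b,z) = q_i(b,0) - ∑ k, kk T b z k i * p_k(b,0)`.
The relations at the points `pt b 0` (`line_dz`, `line_dzbar`, `dz_pt`, `dzbar_pt`, `dz_conj`; `N = 0` in `line_dz`):
* `rel_ph`: `he.eq` with `inr l`, `inr m`: `dz (inr l) (conj e_m) = conj (dzbar (inr l) e_m) = 0`.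
* `rel_pp`: `he.sym` with `inl i`, `inr l`.  `rel_qq`: `he.sym` with `inl i`, `inl j`.
* `rel_dq`: `he.eq` with `inl i`, `inr m`: `g' - g = -I (conj (dzbar (inl i) e_m) - dzbar (inr m) e_i)`, `dzbar (inr m) e_i = -∑ k, mB i k m p_k`.
* `rel_dp`: `he.eq` with `inl i`, `inl j`.
-/

namespace TRed

open Complex Matrix MeasureTheory YT
open scoped ContDiff ComplexConjugate ComplexOrder

variable {ι κ : Type} [Fintype ι] [DecidableEq ι] [Fintype κ] [DecidableEq κ] {G : Type} [Group G] {D : Set (ι → ℂ)}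
  {f : G → (ι → ℂ) → (ι → ℂ)} {T : TorusFamily κ D f} {gm g' : (ι ⊕ κ → ℂ) → Matrix (ι ⊕ κ) (ι ⊕ κ) ℂ} {S : Set ((ι ⊕ κ → ℂ) → (ι ⊕ κ → ℂ))} {b : ι → ℂ}
  {e : (ι ⊕ κ → ℂ) → (ι ⊕ κ → ℂ)}

/-- The 1-form is invariant under all real translations of the fibres. -/
def Flat1 (T : TorusFamily κ D f) (e : (ι ⊕ κ → ℂ) → (ι ⊕ κ → ℂ)) : Prop :=
  ∀ w, ∀ x ∈ tot κ D, ∀ i, ∑ k, e (T.tr w x) k * jac (T.tr w) x k i = e x i

/-- The fibre components at `(b,0)`, a column. -/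
noncomputable def pv (e : (ι ⊕ κ → ℂ) → (ι ⊕ κ → ℂ)) (b : ι → ℂ) : Matrix κ Unit ℂ := Matrix.of fun k _ => e (pt b 0) (Sum.inr k)

/-- The base components at `(b,0)`, a column. -/
noncomputable def qv (e : (ι ⊕ κ → ℂ) → (ι ⊕ κ → ℂ)) (b : ι → ℂ) : Matrix ι Unit ℂ := Matrix.of fun i _ => e (pt b 0) (Sum.inl i)

private theorem epsS_sum (hD : IsOpen D) (hf : Flat1 T e) (hb : b ∈ D) (z : κ → ℂ) (i : ι ⊕ κ) :
    ∑ j : ι, e (pt b z) (Sum.inl j) * trJ T b (pinv T b z) (Sum.inl j) i +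
      ∑ k : κ, e (pt b z) (Sum.inr k) * trJ T b (pinv T b z) (Sum.inr k) i = e (pt b 0) i := by
  have hm : (pt b 0 : ι ⊕ κ → ℂ) ∈ tot κ D := pt_mem_tot hb 0
  have h := hf (pinv T b z) (pt b 0) hm i
  rw [tr_pinv hb, jac_tr T hD _ hm] at h
  rw [Fintype.sum_sum_type] at h
  exact h

theorem flat1_p (hD : IsOpen D) (hf : Flat1 T e) (hb : b ∈ D) (z : κ → ℂ) (k : κ) : e (pt b z) (Sum.inr k) = pv e b k () := by
  have h := epsS_sum hD hf hb z (Sum.inr k)
  simp only [trJ, fromBlocks_apply₁₂, fromBlocks_apply₂₂, Matrix.zero_apply, mul_zero, Finset.sum_const_zero, zero_add,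
    Matrix.one_apply, mul_ite, mul_one, Finset.sum_ite_eq', Finset.mem_univ, if_true] at h
  exact h

theorem flat1_q (hD : IsOpen D) (hf : Flat1 T e) (hb : b ∈ D) (z : κ → ℂ) (i : ι) :
    e (pt b z) (Sum.inl i) = qv e b i () - ∑ k, kk T b z k i * pv e b k () := by
  have h := epsS_sum hD hf hb z (Sum.inl i)
  simp only [trJ, fromBlocks_apply₁₁, fromBlocks_apply₂₁, Matrix.of_apply,
    Matrix.one_apply, mul_ite, mul_one, mul_zero, Finset.sum_ite_eq', Finset.mem_univ, if_true] at h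
  have h2 : qv e b i () = e (pt b 0) (Sum.inl i) := rfl
  rw [h2, ← h]
  have h3 : ∑ k : κ, e (pt b z) (Sum.inr k) * dper T b (pinv T b z) k i = ∑ k, kk T b z k i * pv e b k () := by
    refine Finset.sum_congr rfl fun k _ => ?_
    rw [flat1_p hD hf hb z k, mul_comm]
    rfl
  rw [h3]
  ring

private theorem epsS_diff (hD : IsOpen D) (he : IsPrimitive (tot κ D) S gm g' e) (hb : b ∈ D) (i : ι ⊕ κ) :
    DifferentiableAt ℝ (fun x => e x i) (pt b 0) :=
  ((he.smooth i).contDiffAt ((isOpen_tot hD).mem_nhds (pt_mem_tot hb 0))).differentiableAt (by simp)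

private theorem epsS_linep (hD : IsOpen D) (hf : Flat1 T e) (hb : b ∈ D) (m : κ) (a : κ → ℂ) (s : ℝ) :
    e (pt b (s • a)) (Sum.inr m) = e (pt b 0) (Sum.inr m) + s * (fun _ : κ → ℂ => (0 : ℂ)) a + s ^ 2 * (fun _ : κ → ℂ => (0 : ℂ)) a := by
  rw [flat1_p hD hf hb (s • a) m]
  simp [pv]

private theorem epsS_lineq (hD : IsOpen D) (hf : Flat1 T e) (hb : b ∈ D) (i : ι) (a : κ → ℂ) (s : ℝ) :
    e (pt b (s • a)) (Sum.inl i) = e (pt b 0) (Sum.inl i) + s * (fun a : κ → ℂ => -∑ k, kk T b a k i * pv e b k ()) a +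
      s ^ 2 * (fun _ : κ → ℂ => (0 : ℂ)) a := by
  have h2 : qv e b i () = e (pt b 0) (Sum.inl i) := rfl
  rw [flat1_q hD hf hb (s • a) i, kk_smul hD hb, h2]
  simp only [Matrix.smul_apply, smul_eq_mul, mul_zero, add_zero, mul_neg, Finset.mul_sum]
  rw [sub_eq_add_neg]
  congr 2
  refine Finset.sum_congr rfl fun k _ => ?_
  ring

private theorem epsS_dzbarp (hD : IsOpen D) (he : IsPrimitive (tot κ D) S gm g' e) (hf : Flat1 T e) (hb : b ∈ D) (l m : κ) :
    dzbar (Sum.inr l) (fun y => e y (Sum.inr m)) (pt b 0) = 0 := by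
  rw [line_dzbar (φ := fun y => e y (Sum.inr m)) (epsS_diff hD he hb _) (fun a s => epsS_linep hD hf hb m a s) l]
  simp

private theorem epsS_dzq (hD : IsOpen D) (he : IsPrimitive (tot κ D) S gm g' e) (hf : Flat1 T e) (hb : b ∈ D) (i : ι) (m : κ) :
    dz (Sum.inr m) (fun y => e y (Sum.inl i)) (pt b 0) = -∑ k, mM T b i k m * pv e b k () := by
  rw [line_dz (φ := fun y => e y (Sum.inl i)) (epsS_diff hD he hb _) (fun a s => epsS_lineq hD hf hb i a s) m]
  simp only [mM, Matrix.of_apply]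
  rw [mul_neg, sub_neg_eq_add, Finset.mul_sum, ← Finset.sum_neg_distrib, ← Finset.sum_add_distrib, Finset.sum_div, ← Finset.sum_neg_distrib]
  refine Finset.sum_congr rfl fun k _ => ?_
  ring

private theorem epsS_dzbarq (hD : IsOpen D) (he : IsPrimitive (tot κ D) S gm g' e) (hf : Flat1 T e) (hb : b ∈ D) (i : ι) (m : κ) :
    dzbar (Sum.inr m) (fun y => e y (Sum.inl i)) (pt b 0) = -∑ k, pv e b k () * mB T b i k m := by
  rw [line_dzbar (φ := fun y => e y (Sum.inl i)) (epsS_diff hD he hb _) (fun a s => epsS_lineq hD hf hb i a s) m]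
  simp only [mB, Matrix.of_apply]
  rw [mul_neg, Finset.mul_sum, ← Finset.sum_neg_distrib, ← Finset.sum_neg_distrib, ← Finset.sum_add_distrib, Finset.sum_div, ← Finset.sum_neg_distrib]
  refine Finset.sum_congr rfl fun k _ => ?_
  ring

theorem rel_ph (hD : IsOpen D) (he : IsPrimitive (tot κ D) S gm g' e) (hf : Flat1 T e) (hb : b ∈ D) : hv g' b = hv gm b := by
  ext l m
  have h := he.eq (pt b 0) (pt_mem_tot hb 0) (Sum.inr l) (Sum.inr m)
  rw [dz_conj, epsS_dzbarp hD he hf hb, epsS_dzbarp hD he hf hb, map_zero, sub_zero, mul_zero] at h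
  exact sub_eq_zero.1 h

theorem rel_pp (hD : IsOpen D) (he : IsPrimitive (tot κ D) S gm g' e) (hf : Flat1 T e) (hb : b ∈ D) (i : ι) :
    mdz i (pv e) b = -((mM T b i)ᵀ * pv e b) := by
  ext m u
  have h := he.sym (pt b 0) (pt_mem_tot hb 0) (Sum.inl i) (Sum.inr m)
  rw [epsS_dzq hD he hf hb] at h
  have h1 : mdz i (pv e) b m u = dz i (fun y => (fun x : ι ⊕ κ → ℂ => e x (Sum.inr m)) (pt y 0)) b := rfl
  rw [h1, dz_pt (f := fun x : ι ⊕ κ → ℂ => e x (Sum.inr m)) (epsS_diff hD he hb _) i, h]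
  rfl

theorem rel_qq (hD : IsOpen D) (he : IsPrimitive (tot κ D) S gm g' e) (hb : b ∈ D) (i j : ι) : mdz i (qv e) b j () = mdz j (qv e) b i () := by
  have h := he.sym (pt b 0) (pt_mem_tot hb 0) (Sum.inl i) (Sum.inl j)
  have h1 : ∀ i j : ι, mdz i (qv e) b j () = dz i (fun y => (fun x : ι ⊕ κ → ℂ => e x (Sum.inl j)) (pt y 0)) b := fun i j => rfl
  rw [h1, h1, dz_pt (f := fun x : ι ⊕ κ → ℂ => e x (Sum.inl j)) (epsS_diff hD he hb _) i,
    dz_pt (f := fun x : ι ⊕ κ → ℂ => e x (Sum.inl i)) (epsS_diff hD he hb _) j]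
  exact h

theorem rel_dq (hD : IsOpen D) (he : IsPrimitive (tot κ D) S gm g' e) (hf : Flat1 T e) (hb : b ∈ D) (i : ι) (m : κ) :
    qb g' b i m - qb gm b i m = -I * (conj (mdb i (pv e) b m ()) + ∑ k, pv e b k () * mB T b i k m) := by
  have h := he.eq (pt b 0) (pt_mem_tot hb 0) (Sum.inl i) (Sum.inr m)
  rw [dz_conj, epsS_dzbarq hD he hf hb, sub_neg_eq_add] at h
  have h1 : mdb i (pv e) b m () = dzbar i (fun y => (fun x : ι ⊕ κ → ℂ => e x (Sum.inr m)) (pt y 0)) b := rfl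
  rw [h1, dzbar_pt (f := fun x : ι ⊕ κ → ℂ => e x (Sum.inr m)) (epsS_diff hD he hb _) i]
  exact h

theorem rel_dp (hD : IsOpen D) (he : IsPrimitive (tot κ D) S gm g' e) (hb : b ∈ D) (i j : ι) :
    pb g' b i j - pb gm b i j = -I * (conj (mdb i (qv e) b j ()) - mdb j (qv e) b i ()) := by
  have h := he.eq (pt b 0) (pt_mem_tot hb 0) (Sum.inl i) (Sum.inl j)
  rw [dz_conj] at h
  have h1 : ∀ i j : ι, mdb i (qv e) b j () = dzbar i (fun y => (fun x : ι ⊕ κ → ℂ => e x (Sum.inl j)) (pt y 0)) b := fun i j => rfl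
  rw [h1, h1, dzbar_pt (f := fun x : ι ⊕ κ → ℂ => e x (Sum.inl j)) (epsS_diff hD he hb _) i,
    dzbar_pt (f := fun x : ι ⊕ κ → ℂ => e x (Sum.inl i)) (epsS_diff hD he hb _) j]
  exact h

theorem mdiff_pv (hD : IsOpen D) (he : IsPrimitive (tot κ D) S gm g' e) (hb : b ∈ D) : MDiff (pv e) b := by
  intro k u
  have h := contDiffOn_pt (he.smooth (Sum.inr k))
  exact (h.contDiffAt (hD.mem_nhds hb)).differentiableAt (by simp)

theorem mdiff_qv (hD : IsOpen D) (he : IsPrimitive (tot κ D) S gm g' e) (hb : b ∈ D) : MDiff (qv e) b := by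
  intro k u
  have h := contDiffOn_pt (he.smooth (Sum.inl k))
  exact (h.contDiffAt (hD.mem_nhds hb)).differentiableAt (by simp)

end TRed
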