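import Pool.Agent.Lib.MP_464db4_gt.TR.Defs
import Pool.Agent.Lib.MP_464db4_gt.YT.Geo
import Pool.Agent.Lib.MP_464db4_gt.YT.WirtB

/-!
# TR-Geo: the fibre translations
`per` depends on the point `b` of the base `D` by the holomorphic matrices `Z₁`, `Z₂`.
`dper b v k i` is the derivative of `per · v k` in the direction `i`; the Jacobian of `tr v` at `x` is `trJ (bas x) v = fromBlocks 1 0 (dper) 1`.
-/

namespace TRed

open Complex Matrix MeasureTheory YT
open scoped ContDiff ComplexConjugate ComplexOrder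

variable {ι κ : Type} [Fintype ι] [DecidableEq ι] [Fintype κ] [DecidableEq κ] {G : Type} [Group G] {D : Set (ι → ℂ)} {f : G → (ι → ℂ) → (ι → ℂ)}
  (T : TorusFamily κ D f)

private theorem per_apply0 (b : ι → ℂ) (v : κ → ℂ) (k : κ) :
    T.per b v k = ∑ l, T.Z₁ b k l * (((v l).re : ℝ) : ℂ) + ∑ l, T.Z₂ b k l * (((v l).im : ℝ) : ℂ) := rfl

theorem per_add (b : ι → ℂ) (v w : κ → ℂ) : T.per b (v + w) = T.per b v + T.per b w := by
  funext k
  simp only [per_apply0, Pi.add_apply, Complex.add_re, Complex.add_im, Complex.ofReal_add, mul_add, Finset.sum_add_distrib]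
  ring

theorem per_smul (b : ι → ℂ) (s : ℝ) (v : κ → ℂ) : T.per b (s • v) = (s : ℂ) • T.per b v := by
  funext k
  simp only [per_apply0, Pi.smul_apply, Complex.smul_re, Complex.smul_im, smul_eq_mul, Complex.ofReal_mul, mul_add, Finset.mul_sum]
  congr 1
  · exact Finset.sum_congr rfl fun l _ => by ring
  · exact Finset.sum_congr rfl fun l _ => by ring

theorem per_apply (b : ι → ℂ) (v : κ → ℂ) (k : κ) :
    T.per b v k = ∑ l, T.Z₁ b k l * (((v l).re : ℝ) : ℂ) + ∑ l, T.Z₂ b k l * (((v l).im : ℝ) : ℂ) := by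
  rfl

theorem per_hol (v : κ → ℂ) (k : κ) : DifferentiableOn ℂ (fun b => T.per b v k) D := by
  have e : (fun b => T.per b v k) = fun b => ∑ l, T.Z₁ b k l * (((v l).re : ℝ) : ℂ) + ∑ l, T.Z₂ b k l * (((v l).im : ℝ) : ℂ) := by
    funext b
    exact per_apply T b v k
  rw [e]
  exact (DifferentiableOn.fun_sum fun l _ => (T.Z₁_hol k l).mul_const _).add
    (DifferentiableOn.fun_sum fun l _ => (T.Z₂_hol k l).mul_const _)

/-- A holomorphic function on the open set `D` is smooth. -/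
theorem geo_hsm (hD : IsOpen D) {h : (ι → ℂ) → ℂ} (hf : DifferentiableOn ℂ h D) : ContDiffOn ℝ ∞ h D := by
  have h1 : ContDiffOn ℝ ∞ (fun b (_ : Unit) => h b) D :=
    hol_contDiffOn hD (differentiableOn_pi.2 fun _ => hf)
  exact contDiffOn_pi.1 h1 ()

private theorem geo_lift {h : (ι → ℂ) → ℂ} (hf : ContDiffOn ℝ ∞ h D) :
    ContDiffOn ℝ ∞ (fun q : (ι ⊕ κ → ℂ) × (κ → ℂ) => h (bas q.1)) (tot κ D ×ˢ Set.univ) :=
  (contDiffOn_bas (κ := κ) hf).comp contDiffOn_fst (fun _ hq => hq.1)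

private theorem geo_re (l : κ) : ContDiff ℝ ∞ (fun q : (ι ⊕ κ → ℂ) × (κ → ℂ) => (((q.2 l).re : ℝ) : ℂ)) :=
  Complex.ofRealCLM.contDiff.comp (Complex.reCLM.contDiff.comp ((contDiff_apply ℝ ℂ l).comp contDiff_snd))

private theorem geo_im (l : κ) : ContDiff ℝ ∞ (fun q : (ι ⊕ κ → ℂ) × (κ → ℂ) => (((q.2 l).im : ℝ) : ℂ)) :=
  Complex.ofRealCLM.contDiff.comp (Complex.imCLM.contDiff.comp ((contDiff_apply ℝ ℂ l).comp contDiff_snd))

theorem per_joint (hD : IsOpen D) (k : κ) :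
    ContDiffOn ℝ ∞ (fun q : (ι ⊕ κ → ℂ) × (κ → ℂ) => T.per (bas q.1) q.2 k) (tot κ D ×ˢ Set.univ) := by
  have e : (fun q : (ι ⊕ κ → ℂ) × (κ → ℂ) => T.per (bas q.1) q.2 k) = fun q =>
      ∑ l, T.Z₁ (bas q.1) k l * (((q.2 l).re : ℝ) : ℂ) + ∑ l, T.Z₂ (bas q.1) k l * (((q.2 l).im : ℝ) : ℂ) := by
    funext q
    exact per_apply T _ _ k
  rw [e]
  exact (ContDiffOn.sum fun l _ => (geo_lift (geo_hsm hD (T.Z₁_hol k l))).mul (geo_re l).contDiffOn).add
    (ContDiffOn.sum fun l _ => (geo_lift (geo_hsm hD (T.Z₂_hol k l))).mul (geo_im l).contDiffOn)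

theorem tr_inl (v : κ → ℂ) (x : ι ⊕ κ → ℂ) (i : ι) : T.tr v x (Sum.inl i) = x (Sum.inl i) := by
  show x (Sum.inl i) + 0 = x (Sum.inl i)
  rw [add_zero]

theorem tr_inr (v : κ → ℂ) (x : ι ⊕ κ → ℂ) (k : κ) : T.tr v x (Sum.inr k) = x (Sum.inr k) + T.per (bas x) v k := by
  rfl

theorem bas_tr (v : κ → ℂ) (x : ι ⊕ κ → ℂ) : bas (T.tr v x) = bas x := by
  exact bas_add_pt x _

theorem tr_mem (v : κ → ℂ) {x : ι ⊕ κ → ℂ} (hx : x ∈ tot κ D) : T.tr v x ∈ tot κ D := by
  exact add_mem_tot hx _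

theorem tr_tr (v w : κ → ℂ) (x : ι ⊕ κ → ℂ) : T.tr v (T.tr w x) = T.tr (v + w) x := by
  funext k
  rcases k with k | k
  · rw [tr_inl, tr_inl, tr_inl]
  · rw [tr_inr, tr_inr, tr_inr, bas_tr, per_add, Pi.add_apply]
    ring

theorem tr_zero (x : ι ⊕ κ → ℂ) : T.tr 0 x = x := by
  funext k
  rcases k with k | k
  · rw [tr_inl]
  · rw [tr_inr, per_apply]
    simp

private theorem geo_per_bas (v : κ → ℂ) (k : κ) :
    DifferentiableOn ℂ (fun x : ι ⊕ κ → ℂ => T.per (bas x) v k) (tot κ D) := by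
  have h := (per_hol T v k).comp (geo_basL ι κ).differentiable.differentiableOn (s := tot κ D) (fun x hx => hx)
  exact h

theorem tr_hol (v : κ → ℂ) : DifferentiableOn ℂ (T.tr v) (tot κ D) := by
  rw [differentiableOn_pi]
  rintro (k | k)
  · have e : (fun x : ι ⊕ κ → ℂ => T.tr v x (Sum.inl k)) = fun x => x (Sum.inl k) := by
      funext x
      exact tr_inl T v x k
    rw [e]
    fun_prop
  · have e : (fun x : ι ⊕ κ → ℂ => T.tr v x (Sum.inr k)) = fun x => x (Sum.inr k) + T.per (bas x) v k := by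
      funext x
      rfl
    rw [e]
    exact DifferentiableOn.add (by fun_prop) (geo_per_bas T v k)

theorem tr_joint (hD : IsOpen D) : ContDiffOn ℝ ∞ (fun q : (ι ⊕ κ → ℂ) × (κ → ℂ) => T.tr q.2 q.1) (tot κ D ×ˢ Set.univ) := by
  rw [contDiffOn_pi]
  have hc : ∀ j : ι ⊕ κ, ContDiff ℝ ∞ (fun q : (ι ⊕ κ → ℂ) × (κ → ℂ) => q.1 j) := fun j =>
    (contDiff_apply ℝ ℂ j).comp contDiff_fst
  rintro (k | k)
  · have e : (fun q : (ι ⊕ κ → ℂ) × (κ → ℂ) => T.tr q.2 q.1 (Sum.inl k)) = fun q => q.1 (Sum.inl k) := by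
      funext q
      exact tr_inl T q.2 q.1 k
    rw [e]
    exact (hc _).contDiffOn
  · exact (hc _).contDiffOn.add (per_joint T hD k)

/-- The derivative of the period vector in the direction `i`. -/
noncomputable def dper (b : ι → ℂ) (v : κ → ℂ) (k : κ) (i : ι) : ℂ := dz i (fun c => T.per c v k) b

private theorem geo_diffR (hD : IsOpen D) {b : ι → ℂ} (hb : b ∈ D) (v : κ → ℂ) (k : κ) : DifferentiableAt ℝ (fun c => T.per c v k) b :=
  ((per_hol T v k).differentiableAt (hD.mem_nhds hb)).restrictScalars ℝ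

theorem dper_add (hD : IsOpen D) {b : ι → ℂ} (hb : b ∈ D) (v w : κ → ℂ) (k : κ) (i : ι) :
    dper T b (v + w) k i = dper T b v k i + dper T b w k i := by
  have e : (fun c => T.per c (v + w) k) = fun c => T.per c v k + T.per c w k := by
    funext c
    rw [per_add, Pi.add_apply]
  unfold dper
  rw [e, dz_add i (geo_diffR T hD hb v k) (geo_diffR T hD hb w k)]

theorem dper_smul (hD : IsOpen D) {b : ι → ℂ} (hb : b ∈ D) (s : ℝ) (v : κ → ℂ) (k : κ) (i : ι) :
    dper T b (s • v) k i = (s : ℂ) * dper T b v k i := by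
  have e : (fun c => T.per c (s • v) k) = fun c => (s : ℂ) * T.per c v k := by
    funext c
    rw [per_smul, Pi.smul_apply, smul_eq_mul]
  unfold dper
  rw [e, dz_const_mul i _ (geo_diffR T hD hb v k)]

theorem geo_dper (hD : IsOpen D) {b : ι → ℂ} (hb : b ∈ D) (v : κ → ℂ) (k : κ) (i : ι) :
    dper T b v k i = ∑ l, dz i (fun c => T.Z₁ c k l) b * (((v l).re : ℝ) : ℂ) +
      ∑ l, dz i (fun c => T.Z₂ c k l) b * (((v l).im : ℝ) : ℂ) := by
  have hn := hD.mem_nhds hb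
  have h1 : ∀ l, DifferentiableAt ℝ (fun c => T.Z₁ c k l) b := fun l =>
    ((T.Z₁_hol k l).differentiableAt hn).restrictScalars ℝ
  have h2 : ∀ l, DifferentiableAt ℝ (fun c => T.Z₂ c k l) b := fun l =>
    ((T.Z₂_hol k l).differentiableAt hn).restrictScalars ℝ
  have h1' : ∀ l, DifferentiableAt ℝ (fun c => T.Z₁ c k l * (((v l).re : ℝ) : ℂ)) b := fun l => (h1 l).mul_const _
  have h2' : ∀ l, DifferentiableAt ℝ (fun c => T.Z₂ c k l * (((v l).im : ℝ) : ℂ)) b := fun l => (h2 l).mul_const _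
  have e : (fun c => T.per c v k) = fun c => ∑ l, T.Z₁ c k l * (((v l).re : ℝ) : ℂ) + ∑ l, T.Z₂ c k l * (((v l).im : ℝ) : ℂ) := by
    funext c
    exact per_apply T c v k
  unfold dper
  rw [e, dz_add i (DifferentiableAt.fun_sum fun l _ => h1' l) (DifferentiableAt.fun_sum fun l _ => h2' l),
    dz_sum _ _ _ (fun l _ => h1' l), dz_sum _ _ _ (fun l _ => h2' l)]
  congr 1
  · exact Finset.sum_congr rfl fun l _ => dz_mul_const i _ (h1 l)
  · exact Finset.sum_congr rfl fun l _ => dz_mul_const i _ (h2 l)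

theorem dper_joint (hD : IsOpen D) (k : κ) (i : ι) :
    ContDiffOn ℝ ∞ (fun q : (ι ⊕ κ → ℂ) × (κ → ℂ) => dper T (bas q.1) q.2 k i) (tot κ D ×ˢ Set.univ) := by
  have h : ContDiffOn ℝ ∞ (fun q : (ι ⊕ κ → ℂ) × (κ → ℂ) =>
      ∑ l, dz i (fun c => T.Z₁ c k l) (bas q.1) * (((q.2 l).re : ℝ) : ℂ) +
        ∑ l, dz i (fun c => T.Z₂ c k l) (bas q.1) * (((q.2 l).im : ℝ) : ℂ)) (tot κ D ×ˢ Set.univ) :=
    (ContDiffOn.sum fun l _ => (geo_lift (dz_contDiffOn hD (geo_hsm hD (T.Z₁_hol k l)) i)).mul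
      (geo_re l).contDiffOn).add (ContDiffOn.sum fun l _ =>
        (geo_lift (dz_contDiffOn hD (geo_hsm hD (T.Z₂_hol k l)) i)).mul (geo_im l).contDiffOn)
  exact h.congr fun q hq => geo_dper T hD hq.1 q.2 k i

theorem dper_contDiffOn (hD : IsOpen D) (v : κ → ℂ) (k : κ) (i : ι) : ContDiffOn ℝ ∞ (fun b => dper T b v k i) D :=
  dz_contDiffOn hD (geo_hsm hD (per_hol T v k)) i

theorem dzbar_dper (hD : IsOpen D) (v : κ → ℂ) (k : κ) (j : ι) {x : ι ⊕ κ → ℂ} (hx : x ∈ tot κ D) (i : ι ⊕ κ) :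
    dzbar i (fun y => dper T (bas y) v k j) x = 0 := by
  have hp : ContDiffOn ℝ ∞ (fun b => T.per b v k) D := geo_hsm hD (per_hol T v k)
  have hd : ContDiffOn ℝ ∞ (fun b => dper T b v k j) D := dz_contDiffOn hD hp j
  have hx' : bas x ∈ D := hx
  have hda : DifferentiableAt ℝ (fun b => dper T b v k j) (bas x) :=
    (hd.contDiffAt (hD.mem_nhds hx')).differentiableAt (by simp)
  rcases i with i | i
  · refine (dzbar_bas_inl hda i).trans ?_
    have h1 := dz_dzbar_comm hD hp hx' j i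
    refine h1.symm.trans ?_
    rw [dz_congr_on (h := fun _ => 0) hD (fun b hb => dzbar_hol i
      ((per_hol T v k).differentiableAt (hD.mem_nhds hb))) hx' j]
    exact dz_const j 0
  · exact dzbar_bas_inr hda i

theorem per_bas_hol (v : κ → ℂ) (k : κ) : DifferentiableOn ℂ (fun x : ι ⊕ κ → ℂ => T.per (bas x) v k) (tot κ D) := by
  exact geo_per_bas T v k

/-- The Jacobian of `tr v`. -/
noncomputable def trJ (b : ι → ℂ) (v : κ → ℂ) : Matrix (ι ⊕ κ) (ι ⊕ κ) ℂ :=
  fromBlocks 1 0 (Matrix.of fun k i => dper T b v k i) 1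

/-- `trJ b v - 1` -/
noncomputable def trN (b : ι → ℂ) (v : κ → ℂ) : Matrix (ι ⊕ κ) (ι ⊕ κ) ℂ :=
  fromBlocks 0 0 (Matrix.of fun k i => dper T b v k i) 0

theorem jac_tr (hD : IsOpen D) (v : κ → ℂ) {x : ι ⊕ κ → ℂ} (hx : x ∈ tot κ D) : jac (T.tr v) x = trJ T (bas x) v := by
  have hx' : bas x ∈ D := hx
  ext k i
  show dz i (fun y => T.tr v y k) x = trJ T (bas x) v k i
  unfold trJ
  rcases k with k | k
  · have e : (fun y : ι ⊕ κ → ℂ => T.tr v y (Sum.inl k)) = fun y => y (Sum.inl k) := by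
      funext y
      exact tr_inl T v y k
    rw [e, geo_dz_coord]
    rcases i with i | i
    · rw [fromBlocks_apply₁₁, Matrix.one_apply]
      by_cases h : k = i
      · subst h
        simp
      · simp [h]
    · simp
  · have e : (fun y : ι ⊕ κ → ℂ => T.tr v y (Sum.inr k)) = fun y => y (Sum.inr k) + T.per (bas y) v k := by
      funext y
      rfl
    have h1 : DifferentiableAt ℝ (fun y : ι ⊕ κ → ℂ => y (Sum.inr k)) x := by fun_prop
    have h2 : DifferentiableAt ℝ (fun y : ι ⊕ κ → ℂ => T.per (bas y) v k) x :=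
      ((geo_per_bas T v k).differentiableAt ((isOpen_tot hD).mem_nhds hx)).restrictScalars ℝ
    rw [e, dz_add i h1 h2, geo_dz_coord]
    rcases i with i | i
    · have h3 := dz_bas_inl (κ := κ) (geo_diffR T hD hx' v k) i
      refine (congrArg (fun z => (if (Sum.inr k : ι ⊕ κ) = Sum.inl i then (1 : ℂ) else 0) + z) h3).trans ?_
      simp [dper]
    · have h3 := dz_bas_inr (κ := κ) (geo_diffR T hD hx' v k) i
      refine (congrArg (fun z => (if (Sum.inr k : ι ⊕ κ) = Sum.inr i then (1 : ℂ) else 0) + z) h3).trans ?_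
      by_cases h : k = i
      · subst h
        simp
      · simp [h]

theorem trJ_mul (hD : IsOpen D) {b : ι → ℂ} (hb : b ∈ D) (v w : κ → ℂ) : trJ T b v * trJ T b w = trJ T b (v + w) := by
  unfold trJ
  rw [fromBlocks_multiply]
  congr 1
  · simp
  · simp
  · ext k i
    simp [dper_add T hD hb]
  · simp

theorem trJ_zero (b : ι → ℂ) : trJ T b 0 = 1 := by
  have h : ∀ k i, dper T b 0 k i = 0 := by
    intro k i
    have e : (fun c => T.per c (0 : κ → ℂ) k) = fun _ => 0 := by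
      funext c
      rw [per_apply]
      simp
    unfold dper
    rw [e]
    exact dz_const i 0
  unfold trJ
  rw [← fromBlocks_one]
  congr 1
  ext k i
  simp [h]

theorem trJ_inr (b : ι → ℂ) (v : κ → ℂ) (k : ι ⊕ κ) (l : κ) : trJ T b v k (Sum.inr l) = if k = Sum.inr l then 1 else 0 := by
  unfold trJ
  rcases k with k | k
  · simp
  · by_cases h : k = l
    · subst h
      simp
    · simp [h]

theorem trJ_smul (hD : IsOpen D) {b : ι → ℂ} (hb : b ∈ D) (s : ℝ) (w : κ → ℂ) : trJ T b (s • w) = 1 + (s : ℂ) • trN T b w := by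
  unfold trJ trN
  rw [← fromBlocks_one, fromBlocks_smul, fromBlocks_add]
  congr 1
  · simp
  · simp
  · ext k i
    simp [dper_smul T hD hb]
  · simp

theorem trN_sq (b : ι → ℂ) (w : κ → ℂ) : trN T b w * trN T b w = 0 := by
  unfold trN
  rw [fromBlocks_multiply]
  simp

theorem dz_per (hD : IsOpen D) (w : κ → ℂ) {x : ι ⊕ κ → ℂ} (hx : x ∈ tot κ D) (i : ι ⊕ κ) (l : κ) :
    dz i (fun y => T.per (bas y) w l) x = trN T (bas x) w (Sum.inr l) i := by
  have hx' : bas x ∈ D := hx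
  unfold trN
  rcases i with i | i
  · exact dz_bas_inl (κ := κ) (geo_diffR T hD hx' w l) i
  · exact dz_bas_inr (κ := κ) (geo_diffR T hD hx' w l) i

theorem dzbar_per (hD : IsOpen D) (w : κ → ℂ) {x : ι ⊕ κ → ℂ} (hx : x ∈ tot κ D) (i : ι ⊕ κ) (l : κ) :
    dzbar i (fun y => T.per (bas y) w l) x = 0 := by
  exact dzbar_hol i ((geo_per_bas T w l).differentiableAt ((isOpen_tot hD).mem_nhds hx))

end TRed
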