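import Pool.Agent.Lib.MP_464db4_gt.TR.Geo

/-!
# TR-GeoF: the maps `T.F γ`
* `F_tr`: `A_γ(t) (z + per t v) + σ_γ(t) = (A_γ(t) z + σ_γ(t)) + per (f γ t) (ρ_γ v)` (`T.A_per`).
* `F_mul`: `T.comp` and `CompactBase.mul`.
* `jac_F_tr`: differentiate `F_tr` on the open set `tot κ D`.
-/

namespace TRed

open Complex Matrix MeasureTheory YT
open scoped ContDiff ComplexConjugate ComplexOrder

variable {ι κ : Type} [Fintype ι] [DecidableEq ι] [Fintype κ] [DecidableEq κ] {G : Type} [Group G] {D : Set (ι → ℂ)} {f : G → (ι → ℂ) → (ι → ℂ)}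
  (T : TorusFamily κ D f)

private theorem GeoF_inr (γ : G) (x : ι ⊕ κ → ℂ) (k : κ) :
    T.F γ x (Sum.inr k) = (∑ l, T.A γ (bas x) k l * x (Sum.inr l)) + T.σ γ (bas x) k := rfl

theorem bas_F (γ : G) (x : ι ⊕ κ → ℂ) : bas (T.F γ x) = f γ (bas x) := by
  rfl

theorem F_mem (hm : ∀ γ, ∀ b ∈ D, f γ b ∈ D) (γ : G) {x : ι ⊕ κ → ℂ} (hx : x ∈ tot κ D) : T.F γ x ∈ tot κ D := by
  show bas (T.F γ x) ∈ D
  rw [bas_F]
  exact hm γ _ hx

private theorem GeoF_A_hol (γ : G) (k l : κ) :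
    DifferentiableOn ℂ (fun x : ι ⊕ κ → ℂ => T.A γ (bas x) k l) (tot κ D) := by
  have hb : DifferentiableOn ℂ (fun x : ι ⊕ κ → ℂ => bas x) (tot κ D) :=
    (geo_basL ι κ).differentiable.differentiableOn
  exact (T.A_hol γ k l).comp hb (fun x hx => hx)

private theorem GeoF_σ_hol (γ : G) (k : κ) :
    DifferentiableOn ℂ (fun x : ι ⊕ κ → ℂ => T.σ γ (bas x) k) (tot κ D) := by
  have hb : DifferentiableOn ℂ (fun x : ι ⊕ κ → ℂ => bas x) (tot κ D) :=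
    (geo_basL ι κ).differentiable.differentiableOn
  exact (T.σ_hol γ k).comp hb (fun x hx => hx)

theorem F_hol (hh : ∀ γ, DifferentiableOn ℂ (f γ) D) (γ : G) : DifferentiableOn ℂ (T.F γ) (tot κ D) := by
  rw [differentiableOn_pi]
  have hb : DifferentiableOn ℂ (fun x : ι ⊕ κ → ℂ => bas x) (tot κ D) :=
    (geo_basL ι κ).differentiable.differentiableOn
  rintro (i | k)
  · exact (differentiableOn_pi.mp (hh γ) i).comp hb (fun x hx => hx)
  · have h2 : DifferentiableOn ℂ (fun x : ι ⊕ κ → ℂ => ∑ l, T.A γ (bas x) k l * x (Sum.inr l)) (tot κ D) := by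
      apply DifferentiableOn.fun_sum
      intro l _
      exact (GeoF_A_hol T γ k l).mul (differentiable_apply (𝕜 := ℂ) (Sum.inr l : ι ⊕ κ)).differentiableOn
    exact h2.add (GeoF_σ_hol T γ k)

theorem F_tr (γ : G) (v : κ → ℂ) {x : ι ⊕ κ → ℂ} (hx : x ∈ tot κ D) :
    T.F γ (T.tr v x) = T.tr (T.ρ γ v) (T.F γ x) := by
  have hA : T.A γ (bas x) *ᵥ T.per (bas x) v = T.per (f γ (bas x)) (T.ρ γ v) := T.A_per γ (bas x) hx v
  have h1 : T.F γ (T.tr v x) =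
      pt (f γ (bas x)) (T.A γ (bas x) *ᵥ (fib x + T.per (bas x) v) + T.σ γ (bas x)) := by
    unfold TorusFamily.F
    rw [bas_tr]
    rfl
  have h2 : T.tr (T.ρ γ v) (T.F γ x) =
      pt (f γ (bas x)) (T.A γ (bas x) *ᵥ fib x + T.σ γ (bas x)) + pt 0 (T.per (f γ (bas x)) (T.ρ γ v)) := rfl
  rw [h1, h2, ← hA, ← pt_add, add_zero, Matrix.mulVec_add]
  congr 1
  abel

theorem F_mul (hmul : ∀ γ δ, ∀ b ∈ D, f (γ * δ) b = f γ (f δ b)) (γ δ : G) :
    ∃ v ∈ T.Λ, ∀ x ∈ tot κ D, T.F γ (T.F δ x) = T.tr v (T.F (γ * δ) x) := by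
  obtain ⟨v, hv, h⟩ := T.comp γ δ
  refine ⟨v, hv, fun x hx => ?_⟩
  have h1 := h (bas x) hx (fib x)
  have h2 : T.F γ (T.F δ x) = pt (f γ (f δ (bas x)))
      (T.A γ (f δ (bas x)) *ᵥ (T.A δ (bas x) *ᵥ fib x + T.σ δ (bas x)) + T.σ γ (f δ (bas x))) := rfl
  have h3 : T.tr v (T.F (γ * δ) x) =
      pt (f (γ * δ) (bas x)) (T.A (γ * δ) (bas x) *ᵥ fib x + T.σ (γ * δ) (bas x)) +
        pt 0 (perOf (T.Z₁ (f (γ * δ) (bas x)))
          (T.Z₂ (f (γ * δ) (bas x))) v) := rfl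
  have h4 : f (γ * δ) (bas x) = f γ (f δ (bas x)) := hmul γ δ (bas x) hx
  rw [h2, h3, ← pt_add, add_zero, h1, h4]

theorem GeoF_jac_congr (hD : IsOpen D) {F H : (ι ⊕ κ → ℂ) → (ι ⊕ κ → ℂ)} (h : ∀ y ∈ tot κ D, F y = H y)
    {x : ι ⊕ κ → ℂ} (hx : x ∈ tot κ D) : jac F x = jac H x := by
  ext k i
  exact dz_congr_on (isOpen_tot hD) (fun y hy => congrFun (h y hy) k) hx i

private theorem GeoF_diffAt (hD : IsOpen D) (hh : ∀ γ, DifferentiableOn ℂ (f γ) D) (γ : G) {x : ι ⊕ κ → ℂ} (hx : x ∈ tot κ D) :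
    DifferentiableAt ℂ (T.F γ) x :=
  (F_hol T hh γ).differentiableAt ((isOpen_tot hD).mem_nhds hx)

private theorem GeoF_diffTr (hD : IsOpen D) (v : κ → ℂ) {x : ι ⊕ κ → ℂ} (hx : x ∈ tot κ D) : DifferentiableAt ℂ (T.tr v) x :=
  (tr_hol T v).differentiableAt ((isOpen_tot hD).mem_nhds hx)

theorem jac_F_tr (hB : CompactBase D f) (γ : G) (v : κ → ℂ) {x : ι ⊕ κ → ℂ} (hx : x ∈ tot κ D) :
    jac (T.F γ) (T.tr v x) * trJ T (bas x) v = trJ T (bas (T.F γ x)) (T.ρ γ v) * jac (T.F γ) x := by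
  have h1 := jac_comp (F := T.tr v) (H := T.F γ) (GeoF_diffTr T hB.isOpen v hx) (GeoF_diffAt T hB.isOpen hB.hol γ (tr_mem T v hx))
  have h2 := jac_comp (F := T.F γ) (H := T.tr (T.ρ γ v)) (GeoF_diffAt T hB.isOpen hB.hol γ hx)
    (GeoF_diffTr T hB.isOpen (T.ρ γ v) (F_mem T hB.maps γ hx))
  rw [jac_tr T hB.isOpen v hx] at h1
  rw [jac_tr T hB.isOpen (T.ρ γ v) (F_mem T hB.maps γ hx)] at h2
  rw [← h1, ← h2]
  exact GeoF_jac_congr hB.isOpen (fun y hy => F_tr T γ v hy) hx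

/-- The upper left block of the Jacobian of `T.F γ`. -/
theorem jac_F_inl_inl (hD : IsOpen D) (hh : ∀ γ, DifferentiableOn ℂ (f γ) D) (γ : G) {x : ι ⊕ κ → ℂ} (hx : x ∈ tot κ D) (j i : ι) :
    jac (T.F γ) x (Sum.inl j) (Sum.inl i) = jac (f γ) (bas x) j i := by
  have hx' : bas x ∈ D := hx
  have hn : D ∈ nhds (bas x) := hD.mem_nhds hx'
  have hm : DifferentiableAt ℝ (fun b => f γ b j) (bas x) :=
    ((differentiableOn_pi.mp (hh γ) j).differentiableAt hn).restrictScalars ℝ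
  exact dz_bas_inl (κ := κ) (x := x) hm i

/-- The upper right block of the Jacobian of `T.F γ`. -/
theorem jac_F_inl_inr (hD : IsOpen D) (hh : ∀ γ, DifferentiableOn ℂ (f γ) D) (γ : G) {x : ι ⊕ κ → ℂ} (hx : x ∈ tot κ D) (j : ι) (l : κ) :
    jac (T.F γ) x (Sum.inl j) (Sum.inr l) = 0 := by
  have hx' : bas x ∈ D := hx
  have hn : D ∈ nhds (bas x) := hD.mem_nhds hx'
  have hm : DifferentiableAt ℝ (fun b => f γ b j) (bas x) :=
    ((differentiableOn_pi.mp (hh γ) j).differentiableAt hn).restrictScalars ℝ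
  exact dz_bas_inr (κ := κ) (x := x) hm l

/-- The lower right block of the Jacobian of `T.F γ`. -/
theorem jac_F_inr (hD : IsOpen D) (γ : G) {x : ι ⊕ κ → ℂ} (hx : x ∈ tot κ D) (k l : κ) :
    jac (T.F γ) x (Sum.inr k) (Sum.inr l) = T.A γ (bas x) k l := by
  have hx' : bas x ∈ D := hx
  have hn : D ∈ nhds (bas x) := hD.mem_nhds hx'
  have hA : ∀ m, DifferentiableAt ℝ (fun b => T.A γ b k m) (bas x) := fun m =>
    ((T.A_hol γ k m).differentiableAt hn).restrictScalars ℝ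
  have hσ : DifferentiableAt ℝ (fun b => T.σ γ b k) (bas x) := ((T.σ_hol γ k).differentiableAt hn).restrictScalars ℝ
  have hb : DifferentiableAt ℝ (fun y : ι ⊕ κ → ℂ => bas y) x := ((geo_basL ι κ).restrictScalars ℝ).differentiableAt
  have hAb : ∀ m, DifferentiableAt ℝ (fun y : ι ⊕ κ → ℂ => T.A γ (bas y) k m) x := fun m =>
    DifferentiableAt.comp x (g := fun b : ι → ℂ => T.A γ b k m) (f := fun y : ι ⊕ κ → ℂ => bas y) (hA m) hb
  have hσb : DifferentiableAt ℝ (fun y : ι ⊕ κ → ℂ => T.σ γ (bas y) k) x :=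
    DifferentiableAt.comp x (g := fun b : ι → ℂ => T.σ γ b k) (f := fun y : ι ⊕ κ → ℂ => bas y) hσ hb
  have hc : ∀ m, DifferentiableAt ℝ (fun y : ι ⊕ κ → ℂ => y (Sum.inr m)) x := fun m => by fun_prop
  have hp : ∀ m ∈ (Finset.univ : Finset κ), DifferentiableAt ℝ (fun y : ι ⊕ κ → ℂ => T.A γ (bas y) k m * y (Sum.inr m)) x :=
    fun m _ => (hAb m).fun_mul (hc m)
  have e0 : jac (T.F γ) x (Sum.inr k) (Sum.inr l) =
      dz (Sum.inr l) (fun y : ι ⊕ κ → ℂ => (∑ m, T.A γ (bas y) k m * y (Sum.inr m)) + T.σ γ (bas y) k) x := rfl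
  rw [e0, dz_add (Sum.inr l) (DifferentiableAt.fun_sum hp) hσb, dz_sum _ _ _ hp,
    dz_bas_inr (f := fun b : ι → ℂ => T.σ γ b k) hσ l, add_zero]
  have h1 : ∀ m ∈ (Finset.univ : Finset κ), dz (Sum.inr l) (fun y : ι ⊕ κ → ℂ => T.A γ (bas y) k m * y (Sum.inr m)) x =
      if m = l then T.A γ (bas x) k m else 0 := by
    intro m _
    rw [dz_mul _ (hAb m) (hc m), dz_bas_inr (f := fun b : ι → ℂ => T.A γ b k m) (hA m) l, geo_dz_coord]
    by_cases hml : m = l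
    · subst hml
      rw [if_pos rfl, if_pos rfl]
      ring
    · rw [if_neg (by simpa using hml), if_neg hml]
      ring
  rw [Finset.sum_congr rfl h1, Finset.sum_ite_eq' Finset.univ l, if_pos (Finset.mem_univ l)]

end TRed
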