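import Pool.Agent.Lib.MP_464db4_gt.TR.SchB

/-!
# TR-Glue: gluing a form of the base into the total space
-/

namespace TRed

open Complex Matrix MeasureTheory YT
open scoped ContDiff ComplexConjugate ComplexOrder

variable {ι κ : Type} [Fintype ι] [DecidableEq ι] [Fintype κ] [DecidableEq κ] {G : Type} [Group G] {D : Set (ι → ℂ)}
  {f : G → (ι → ℂ) → (ι → ℂ)} {T : TorusFamily κ D f} {gm : (ι ⊕ κ → ℂ) → Matrix (ι ⊕ κ) (ι ⊕ κ) ℂ} {β' : (ι → ℂ) → Matrix ι ι ℂ} {b : ι → ℂ}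

/-- The form `gm + π^* (β' - β)`, `β = sch gm`. -/
noncomputable def glueR (gm : (ι ⊕ κ → ℂ) → Matrix (ι ⊕ κ) (ι ⊕ κ) ℂ) (β' : (ι → ℂ) → Matrix ι ι ℂ) (x : ι ⊕ κ → ℂ) : Matrix (ι ⊕ κ) (ι ⊕ κ) ℂ :=
  gm x + fromBlocks (β' (bas x) - sch gm (bas x)) 0 0 0

/-- The difference of the two forms: only the base block is nonzero. -/
private noncomputable def corrR (gm : (ι ⊕ κ → ℂ) → Matrix (ι ⊕ κ) (ι ⊕ κ) ℂ) (β' : (ι → ℂ) → Matrix ι ι ℂ) (x : ι ⊕ κ → ℂ) :
    Matrix (ι ⊕ κ) (ι ⊕ κ) ℂ := fromBlocks (β' (bas x) - sch gm (bas x)) 0 0 0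

private theorem Glue_corr (i j : ι ⊕ κ) (x : ι ⊕ κ → ℂ) : glueR gm β' x i j = gm x i j + corrR gm β' x i j := by
  rfl

private theorem Glue_smooth (hσ : IsKahler D (Set.range f) (sch gm)) (hβ : IsKahler D (Set.range f) β') (i j : ι ⊕ κ) :
    ContDiffOn ℝ ∞ (fun x => corrR gm β' x i j) (tot κ D) := by
  rcases i with i | i <;> rcases j with j | j
  · exact (contDiffOn_bas (hβ.smooth i j)).sub (contDiffOn_bas (hσ.smooth i j))
  all_goals exact contDiffOn_const

private theorem Glue_closed (hD : IsOpen D) (hσ : IsKahler D (Set.range f) (sch gm)) (hβ : IsKahler D (Set.range f) β')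
    {x : ι ⊕ κ → ℂ} (hx : x ∈ tot κ D) (i j k : ι ⊕ κ) :
    dz k (fun y => corrR gm β' y i j) x = dz i (fun y => corrR gm β' y k j) x := by
  have hb : bas x ∈ D := hx
  have h1 : ∀ i j, DifferentiableAt ℝ (fun b => β' b i j) (bas x) := fun i j => asm_diff hD (hβ.smooth i j) hb
  have h2 : ∀ i j, DifferentiableAt ℝ (fun b => sch gm b i j) (bas x) := fun i j => asm_diff hD (hσ.smooth i j) hb
  have h3 : ∀ i j, DifferentiableAt ℝ (fun b => β' b i j - sch gm b i j) (bas x) := fun i j => (h1 i j).fun_sub (h2 i j)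
  have e1 : ∀ i j, (fun y : ι ⊕ κ → ℂ => corrR gm β' y (Sum.inl i) (Sum.inl j)) =
      fun y => (fun b => β' b i j - sch gm b i j) (bas y) := fun i j => rfl
  have e2 : ∀ i j, (fun y : ι ⊕ κ → ℂ => corrR gm β' y (Sum.inr i) j) = fun _ => 0 := by
    intro i j
    rcases j with j | j <;> rfl
  have e3 : ∀ i j, (fun y : ι ⊕ κ → ℂ => corrR gm β' y i (Sum.inr j)) = fun _ => 0 := by
    intro i j
    rcases i with i | i <;> rfl
  rcases j with j | j
  · rcases i with i | i <;> rcases k with k | k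
    · rw [e1, e1, dz_bas_inl (h3 i j), dz_bas_inl (h3 k j), dz_sub _ (h1 i j) (h2 i j), dz_sub _ (h1 k j) (h2 k j),
        hβ.closed _ hb, hσ.closed _ hb]
    · rw [e1, e2, dz_const, dz_bas_inr (h3 i j)]
    · rw [e1, e2, dz_const, dz_bas_inr (h3 k j)]
    · rw [e2, e2, dz_const, dz_const]
  · rw [e3, e3, dz_const, dz_const]

private theorem Glue_tr (hD : IsOpen D) (T : TorusFamily κ D f) (w : κ → ℂ) {x : ι ⊕ κ → ℂ} (hx : x ∈ tot κ D) :
    (jac (T.tr w) x)ᵀ * corrR gm β' (T.tr w x) * mconj (jac (T.tr w) x) = corrR gm β' x := by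
  rw [jac_tr T hD w hx]
  unfold corrR trJ
  rw [bas_tr, asm_corr_block]
  congr 1
  unfold mconj
  simp

theorem glueR_eq (hD : IsOpen D) (hg : IsKahler (tot κ D) T.total gm) (hf : FibreFlat T gm) {x : ι ⊕ κ → ℂ} (hx : x ∈ tot κ D) :
    glueR gm β' x = fromBlocks (β' (bas x) + (gm x).toBlocks₁₂ * (hv gm (bas x))⁻¹ * ((gm x).toBlocks₁₂)ᴴ)
      (gm x).toBlocks₁₂ ((gm x).toBlocks₁₂)ᴴ (hv gm (bas x)) := by
  have h := blk_eqR hD hg hf hx
  generalize (gm x).toBlocks₁₂ = Q at h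
  unfold glueR
  rw [h, fromBlocks_add]
  congr 1
  · abel
  · rw [add_zero]
  · rw [add_zero]
  · rw [add_zero]

theorem glueR_isKahler (hB : CompactBase D f) (hg : IsKahler (tot κ D) T.total gm) (hf : FibreFlat T gm) (hβ : IsKahler D (Set.range f) β') :
    IsKahler (tot κ D) T.total (glueR gm β') := by
  have hD := hB.isOpen
  have hσ := sch_isKahler hB hg hf
  refine ⟨fun i j => ?_, fun x hx => ?_, fun x hx i j k => ?_, fun F hF x hx => ?_⟩
  · exact (hg.smooth i j).add (Glue_smooth hσ hβ i j)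
  · have hb : bas x ∈ D := hx
    rw [glueR_eq hD hg hf hx]
    exact glue_posDef (hβ.pos _ hb) (hv_posDefR hg hb)
  · have hU : IsOpen (tot κ D) := isOpen_tot hD
    have d1 : ∀ i j, DifferentiableAt ℝ (fun y => gm y i j) x := fun i j =>
      ((hg.smooth i j).contDiffAt (hU.mem_nhds hx)).differentiableAt (by simp)
    have d2 : ∀ i j, DifferentiableAt ℝ (fun y => corrR gm β' y i j) x := fun i j =>
      ((Glue_smooth hσ hβ i j).contDiffAt (hU.mem_nhds hx)).differentiableAt (by simp)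
    rw [dz_congr_on hU (fun y _ => Glue_corr i j y) hx k,
      dz_congr_on hU (fun y _ => Glue_corr k j y) hx i, dz_add _ (d1 i j) (d2 i j), dz_add _ (d1 k j) (d2 k j),
      hg.closed x hx, Glue_closed hD hσ hβ hx]
  · have hb : bas x ∈ D := hx
    have h1 := hg.inv F hF x hx
    have e : ∀ y, glueR gm β' y = gm y + corrR gm β' y := fun y => rfl
    rw [e, e, mul_add, add_mul, h1]
    congr 1
    rcases hF with ⟨γ, rfl⟩ | ⟨v, -, rfl⟩
    · have h2 := hβ.inv (f γ) ⟨γ, rfl⟩ (bas x) hb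
      have h3 := hσ.inv (f γ) ⟨γ, rfl⟩ (bas x) hb
      have hJ := jac_F_blk hB T γ hx
      rw [hJ]
      generalize (jac (T.F γ) x).toBlocks₂₁ = C
      generalize (jac (T.F γ) x).toBlocks₂₂ = A
      unfold corrR
      rw [bas_F, asm_corr_block, mul_sub, sub_mul, h2, h3]
    · exact Glue_tr hD T v hx

theorem glueR_flat (hB : CompactBase D f) (hf : FibreFlat T gm) : FibreFlat T (glueR gm β') := by
  intro w x hx
  have e : ∀ y, glueR gm β' y = gm y + corrR gm β' y := fun y => rfl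
  rw [e, e, mul_add, add_mul, hf w x hx, Glue_tr hB.isOpen T w hx]

theorem glueR_coh (hB : CompactBase D f) (hg : IsKahler (tot κ D) T.total gm) (hf : FibreFlat T gm) (hβ : IsKahler D (Set.range f) β')
    (hc : Cohomologous D (Set.range f) (sch gm) β') : Cohomologous (tot κ D) T.total gm (glueR gm β') := by
  have hD := hB.isOpen
  obtain ⟨ε, hε⟩ := hc
  refine ⟨fun x => Sum.elim (ε (bas x)) 0, ?_⟩
  have hd : ∀ x ∈ tot κ D, ∀ i, DifferentiableAt ℝ (fun b => ε b i) (bas x) := fun x hx i =>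
    asm_diff hD (hε.smooth i) hx
  have hdc : ∀ x ∈ tot κ D, ∀ i, DifferentiableAt ℝ (fun b => conj (ε b i)) (bas x) := fun x hx i =>
    asm_diff hD (conj_contDiffOn (hε.smooth i)) hx
  have e1 : ∀ i, (fun y : ι ⊕ κ → ℂ => (Sum.elim (ε (bas y)) 0 : ι ⊕ κ → ℂ) (Sum.inl i)) =
      fun y => (fun b => ε b i) (bas y) := fun i => rfl
  have e2 : ∀ i, (fun y : ι ⊕ κ → ℂ => (Sum.elim (ε (bas y)) 0 : ι ⊕ κ → ℂ) (Sum.inr i)) =
      fun _ => 0 := fun i => rfl
  have e3 : ∀ i, (fun y : ι ⊕ κ → ℂ => conj ((Sum.elim (ε (bas y)) 0 : ι ⊕ κ → ℂ) (Sum.inl i))) =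
      fun y => (fun b => conj (ε b i)) (bas y) := fun i => rfl
  have e4 : ∀ i, (fun y : ι ⊕ κ → ℂ => conj ((Sum.elim (ε (bas y)) 0 : ι ⊕ κ → ℂ) (Sum.inr i))) =
      fun _ => 0 := by
    intro i
    funext y
    simp
  refine ⟨fun i => ?_, fun F hF x hx i => ?_, fun x hx i j => ?_, fun x hx i j => ?_⟩
  · rcases i with i | i
    · exact contDiffOn_bas (hε.smooth i)
    · exact contDiffOn_const
  · have hb : bas x ∈ D := hx
    rcases hF with ⟨γ, rfl⟩ | ⟨v, -, rfl⟩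
    · have hJ := jac_F_blk hB T γ hx
      rw [hJ]
      generalize (jac (T.F γ) x).toBlocks₂₁ = C
      generalize (jac (T.F γ) x).toBlocks₂₂ = A
      rw [bas_F, Fintype.sum_sum_type]
      rcases i with i | i
      · have h1 := hε.inv (f γ) ⟨γ, rfl⟩ (bas x) hb i
        simpa using h1
      · simp
    · rw [jac_tr T hD v hx, bas_tr, Fintype.sum_sum_type]
      unfold trJ
      rcases i with i | i
      · simp [Matrix.one_apply]
      · simp
  · rcases i with i | i <;> rcases j with j | j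
    · rw [e1, e1, dz_bas_inl (hd x hx j), dz_bas_inl (hd x hx i)]
      exact hε.sym _ hx i j
    · rw [e1, e2, dz_const, dz_bas_inr (hd x hx i)]
    · rw [e1, e2, dz_const, dz_bas_inr (hd x hx j)]
    · rw [e2, e2, dz_const, dz_const]
  · have hb : bas x ∈ D := hx
    have h0 : glueR gm β' x i j - gm x i j = corrR gm β' x i j := by
      rw [Glue_corr]
      ring
    rw [h0]
    rcases i with i | i <;> rcases j with j | j
    · rw [e1, e3, dz_bas_inl (hdc x hx j), dzbar_bas_inl (hd x hx i)]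
      exact hε.eq _ hb i j
    · rw [e1, e4, dz_const, dzbar_bas_inr (hd x hx i)]
      simp [corrR]
    · rw [e2, e3, dzbar_const, dz_bas_inr (hdc x hx j)]
      simp [corrR]
    · rw [e2, e4, dz_const, dzbar_const]
      simp [corrR]

theorem hv_glueR (gm : (ι ⊕ κ → ℂ) → Matrix (ι ⊕ κ) (ι ⊕ κ) ℂ) (β' : (ι → ℂ) → Matrix ι ι ℂ) : hv (glueR gm β') = hv gm := by
  funext b
  ext i j
  simp [hv, glueR, toBlocks₂₂]

/-- A flat form is glued from its own Schur complement. -/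
theorem glueR_self (gm : (ι ⊕ κ → ℂ) → Matrix (ι ⊕ κ) (ι ⊕ κ) ℂ) (x : ι ⊕ κ → ℂ) : glueR gm (sch gm) x = gm x := by
  unfold glueR
  rw [sub_self]
  ext i j
  rcases i with i | i <;> rcases j with j | j <;> simp

end TRed
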