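import Pool.Agent.Lib.MP_464db4_gt.TR.GeoF

/-!
# TR-Sum: a partition of unity, and the function `∑ χ(f_γ b) φ_γ` for a cocycle `φ_γ`
-/

namespace TRed

open Complex Matrix MeasureTheory YT
open scoped ContDiff ComplexConjugate ComplexOrder

variable {ι κ : Type} [Fintype ι] [DecidableEq ι] [Fintype κ] [DecidableEq κ] {G : Type} [Group G] {D : Set (ι → ℂ)} {f : G → (ι → ℂ) → (ι → ℂ)}
  {T : TorusFamily κ D f} {φ : G → (ι ⊕ κ → ℂ) → ℝ} {χ : (ι → ℂ) → ℝ} {K : Set (ι → ℂ)}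

/-- `∑ χ(f_γ b) φ_γ(x)` -/
noncomputable def sumf (f : G → (ι → ℂ) → (ι → ℂ)) (χ : (ι → ℂ) → ℝ) (φ : G → (ι ⊕ κ → ℂ) → ℝ)
    (x : ι ⊕ κ → ℂ) : ℝ := ∑ᶠ γ : G, χ (f γ (bas x)) * φ γ x

omit [DecidableEq ι] [Fintype κ] [DecidableEq κ] in
private theorem sum_term_zero (h0 : ∀ x, x ∉ K → χ x = 0) {γ : G} {x : ι ⊕ κ → ℂ}
    (hx : f γ (bas x) ∉ K) : χ (f γ (bas x)) * φ γ x = 0 := by
  rw [h0 _ hx, zero_mul]

theorem loc_finiteR (hB : CompactBase D f) (hK : IsCompact K) (hKD : K ⊆ D) {b : ι → ℂ} (hb : b ∈ D) :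
    ∃ V : Set (ι → ℂ), IsOpen V ∧ b ∈ V ∧ V ⊆ D ∧ {γ : G | ∃ y ∈ V, f γ y ∈ K}.Finite := by
  obtain ⟨N, hN, hbN, hND⟩ := exists_compact_between (isCompact_singleton (x := b)) hB.isOpen (Set.singleton_subset_iff.2 hb)
  refine ⟨interior N, isOpen_interior, hbN rfl, interior_subset.trans hND, ?_⟩
  refine (hB.proper (K ∪ N) (Set.union_subset hKD hND) (hK.union hN)).subset ?_
  rintro γ ⟨y, hy, hy'⟩
  exact ⟨y, Or.inr (interior_subset hy), Or.inl hy'⟩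

theorem finite_suppR (hB : CompactBase D f) (hK : IsCompact K) (hKD : K ⊆ D) {b : ι → ℂ} (hb : b ∈ D) : {γ : G | f γ b ∈ K}.Finite := by
  obtain ⟨V, -, hbV, -, hfin⟩ := loc_finiteR hB hK hKD hb
  exact hfin.subset fun γ hγ => ⟨b, hbV, hγ⟩

private theorem sum_smooth {ψ : G → (ι → ℂ) → ℂ} (hB : CompactBase D f) (hK : IsCompact K) (hKD : K ⊆ D)
    (hψ : ∀ γ, ContDiffOn ℝ ∞ (ψ γ) D) (h0 : ∀ γ, ∀ x ∈ D, f γ x ∉ K → ψ γ x = 0) :
    ContDiffOn ℝ ∞ (fun x => ∑ᶠ γ : G, ψ γ x) D := by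
  intro x hx
  obtain ⟨V, hV, hxV, hVD, hfin⟩ := loc_finiteR hB hK hKD hx
  have h1 : ContDiffAt ℝ ∞ (fun y => ∑ γ ∈ hfin.toFinset, ψ γ y) x :=
    ContDiffAt.sum fun γ _ => (hψ γ).contDiffAt (hB.isOpen.mem_nhds hx)
  have h5 : (fun y => ∑ᶠ γ : G, ψ γ y) =ᶠ[nhds x] fun y => ∑ γ ∈ hfin.toFinset, ψ γ y := by
    filter_upwards [hV.mem_nhds hxV] with y hy
    refine finsum_eq_sum_of_support_subset _ ?_
    intro γ hγ
    rw [Set.Finite.coe_toFinset]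
    by_contra hn
    exact hγ (h0 γ y (hVD hy) fun hy' => hn ⟨y, hy, hy'⟩)
  exact (h1.congr_of_eventuallyEq h5).contDiffWithinAt

/-- A smooth compactly supported function with `∑ χ(f_γ x) = 1`. -/
theorem exists_partitionR (hB : CompactBase D f) :
    ∃ χ : (ι → ℂ) → ℝ, ContDiff ℝ ∞ χ ∧ (∃ K : Set (ι → ℂ), IsCompact K ∧ K ⊆ D ∧ ∀ x, x ∉ K → χ x = 0) ∧
      ∀ x ∈ D, ∑ᶠ γ : G, ((χ (f γ x) : ℝ) : ℂ) = 1 := by
  obtain ⟨K0, hK0D, hK0, hcov⟩ := hB.cocompact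
  obtain ⟨K, hK, hK0K, hKD⟩ := exists_compact_between hK0 hB.isOpen hK0D
  obtain ⟨ψ, hsupp, hψ, hrange⟩ :=
    (isOpen_interior (s := K)).exists_contDiff_support_eq (n := ⊤)
  have hψ0 : ∀ x, 0 ≤ ψ x := fun x => (hrange ⟨x, rfl⟩).1
  have hψpos : ∀ x ∈ K0, 0 < ψ x := by
    intro x hx
    refine lt_of_le_of_ne (hψ0 x) (Ne.symm ?_)
    have : x ∈ Function.support ψ := by rw [hsupp]; exact hK0K hx
    exact this
  have hψz : ∀ x, x ∉ K → ψ x = 0 := by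
    intro x hx
    by_contra hne
    have : x ∈ Function.support ψ := hne
    rw [hsupp] at this
    exact hx (interior_subset this)
  set R : (ι → ℂ) → ℝ := fun x => ∑ᶠ γ : G, ψ (f γ x) with hR
  have hfin : ∀ x ∈ D, (Function.support fun γ : G => ψ (f γ x)).Finite := by
    intro x hx
    refine (finite_suppR hB hK hKD hx).subset ?_
    intro γ hγ
    by_contra hn
    exact hγ (hψz _ hn)
  have hRpos : ∀ x ∈ D, 0 < R x := by
    intro x hx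
    obtain ⟨γ, hγx⟩ := hcov x hx
    exact finsum_pos (fun γ => hψ0 _) ⟨γ, hψpos _ hγx⟩ (hfin x hx)
  have hRinv : ∀ δ : G, ∀ x ∈ D, R (f δ x) = R x := by
    intro δ x hx
    have h1 : ∀ γ : G, ψ (f γ (f δ x)) = ψ (f (γ * δ) x) := by
      intro γ
      rw [hB.mul γ δ x hx]
    simp only [hR]
    rw [finsum_congr h1]
    exact finsum_comp_equiv (f := fun γ : G => ψ (f γ x)) (Equiv.mulRight δ)
  have hRc : ∀ x ∈ D, ((R x : ℝ) : ℂ) = ∑ᶠ γ : G, ((ψ (f γ x) : ℝ) : ℂ) := by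
    intro x hx
    exact Complex.ofRealHom.toAddMonoidHom.map_finsum (hfin x hx)
  have hsm : ContDiffOn ℝ ∞ (fun x => ∑ᶠ γ : G, ((ψ (f γ x) : ℝ) : ℂ)) D := by
    refine sum_smooth (ψ := fun γ x => ((ψ (f γ x) : ℝ) : ℂ)) hB hK hKD ?_ ?_
    · intro γ
      have h1 : ContDiffOn ℝ ∞ (f γ) D := hol_contDiffOn hB.isOpen (hB.hol γ)
      exact (Complex.ofRealCLM.contDiff.comp hψ).comp_contDiffOn h1
    · intro γ x _ hx
      show ((ψ (f γ x) : ℝ) : ℂ) = 0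
      rw [hψz _ hx, Complex.ofReal_zero]
  have hRs : ContDiffOn ℝ ∞ R D := by
    have h1 : ContDiffOn ℝ ∞ (fun x => (∑ᶠ γ : G, ((ψ (f γ x) : ℝ) : ℂ)).re) D :=
      Complex.reCLM.contDiff.comp_contDiffOn hsm
    refine h1.congr ?_
    intro x hx
    rw [← hRc x hx, Complex.ofReal_re]
  refine ⟨fun x => ψ x / R x, ?_, ⟨K, hK, hKD, ?_⟩, ?_⟩
  · rw [contDiff_iff_contDiffAt]
    intro x
    by_cases hx : x ∈ D
    · exact (hψ.contDiffAt).div (hRs.contDiffAt (hB.isOpen.mem_nhds hx)) (hRpos x hx).ne'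
    · have hxK : x ∉ K := fun h => hx (hKD h)
      have h0 : (fun y => ψ y / R y) =ᶠ[nhds x] fun _ => 0 := by
        filter_upwards [hK.isClosed.isOpen_compl.mem_nhds hxK] with y hy
        rw [hψz y hy, zero_div]
      exact contDiffAt_const.congr_of_eventuallyEq h0
  · intro x hx
    simp only [hψz x hx, zero_div]
  · intro x hx
    have h1 : ∀ γ : G, ((ψ (f γ x) / R (f γ x) : ℝ) : ℂ) = ((ψ (f γ x) : ℝ) : ℂ) * ((R x : ℝ) : ℂ)⁻¹ := by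
      intro γ
      rw [hRinv γ x hx, Complex.ofReal_div, div_eq_mul_inv]
    rw [finsum_congr h1, ← finsum_mul, ← hRc x hx, mul_inv_cancel₀]
    exact Complex.ofReal_ne_zero.mpr (hRpos x hx).ne'

theorem sumf_smooth (hB : CompactBase D f) (hχ : ContDiff ℝ ∞ χ) (hK : IsCompact K) (hKD : K ⊆ D) (h0 : ∀ x, x ∉ K → χ x = 0)
    (hφ : ∀ γ, ContDiffOn ℝ ∞ (fun x => ((φ γ x : ℝ) : ℂ)) (tot κ D)) :
    ContDiffOn ℝ ∞ (fun x => ((sumf f χ φ x : ℝ) : ℂ)) (tot κ D) := by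
  intro x hx
  obtain ⟨V, hV, hxV, hVH, hfin⟩ := loc_finiteR hB hK hKD (show bas x ∈ D from hx)
  have hopen : IsOpen (tot κ D) := isOpen_tot hB.isOpen
  have hVo : IsOpen (tot κ V) := isOpen_tot hV
  have h1 : ContDiffAt ℝ ∞ (fun y : ι ⊕ κ → ℂ => ∑ γ ∈ hfin.toFinset, ((χ (f γ (bas y)) : ℝ) : ℂ) * ((φ γ y : ℝ) : ℂ)) x := by
    refine ContDiffAt.sum fun γ _ => ?_
    have h2 : ContDiffOn ℝ ∞ (fun b => ((χ (f γ b) : ℝ) : ℂ)) D := by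
      have h3 : ContDiffOn ℝ ∞ (f γ) D := hol_contDiffOn hB.isOpen (hB.hol γ)
      exact (Complex.ofRealCLM.contDiff.comp hχ).comp_contDiffOn h3
    have h4 : ContDiffAt ℝ ∞ (fun y : ι ⊕ κ → ℂ => ((χ (f γ (bas y)) : ℝ) : ℂ)) x :=
      (contDiffOn_bas (κ := κ) h2).contDiffAt (hopen.mem_nhds hx)
    exact h4.mul ((hφ γ).contDiffAt (hopen.mem_nhds hx))
  have h5 : (fun y => ((sumf f χ φ y : ℝ) : ℂ)) =ᶠ[nhds x]
      fun y : ι ⊕ κ → ℂ => ∑ γ ∈ hfin.toFinset, ((χ (f γ (bas y)) : ℝ) : ℂ) * ((φ γ y : ℝ) : ℂ) := by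
    filter_upwards [hVo.mem_nhds (show x ∈ tot κ V from hxV)] with y hy
    have h6 : sumf f χ φ y = ∑ γ ∈ hfin.toFinset, χ (f γ (bas y)) * φ γ y := by
      refine finsum_eq_sum_of_support_subset _ ?_
      intro γ hγ
      rw [Set.Finite.coe_toFinset]
      by_contra hn
      exact hγ (sum_term_zero h0 fun hy' => hn ⟨bas y, hy, hy'⟩)
    rw [h6, Complex.ofReal_sum]
    refine Finset.sum_congr rfl fun γ _ => ?_
    rw [Complex.ofReal_mul]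
  exact (h1.congr_of_eventuallyEq h5).contDiffWithinAt

theorem sumf_F (hB : CompactBase D f) (hK : IsCompact K) (hKD : K ⊆ D) (h0 : ∀ x, x ∉ K → χ x = 0)
    (h1 : ∀ x ∈ D, ∑ᶠ γ : G, ((χ (f γ x) : ℝ) : ℂ) = 1)
    (hφ : ∀ γ δ : G, ∀ x ∈ tot κ D, φ (γ * δ) x = φ γ (T.F δ x) + φ δ x) (δ : G) {x : ι ⊕ κ → ℂ} (hx : x ∈ tot κ D) :
    sumf f χ φ (T.F δ x) = sumf f χ φ x - φ δ x := by
  have hb : bas x ∈ D := hx
  have hfin : (Function.support fun γ : G => χ (f γ (bas x))).Finite := by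
    refine (finite_suppR hB hK hKD hb).subset ?_
    intro γ hγ
    by_contra hn
    exact hγ (h0 _ hn)
  have hone : ∑ᶠ γ : G, χ (f γ (bas x)) = 1 := by
    have h2 : ((∑ᶠ γ : G, χ (f γ (bas x)) : ℝ) : ℂ) = ∑ᶠ γ : G, ((χ (f γ (bas x)) : ℝ) : ℂ) :=
      Complex.ofRealHom.toAddMonoidHom.map_finsum hfin
    rw [h1 _ hb] at h2
    exact_mod_cast h2
  have h3 : ∀ γ : G, χ (f γ (bas (T.F δ x))) * φ γ (T.F δ x) =
      χ (f (γ * δ) (bas x)) * (φ (γ * δ) x - φ δ x) := by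
    intro γ
    rw [bas_F, hB.mul γ δ _ hb, hφ γ δ x hx]
    ring
  have h4 : ∑ᶠ γ : G, χ (f (γ * δ) (bas x)) * (φ (γ * δ) x - φ δ x) =
      ∑ᶠ γ : G, χ (f γ (bas x)) * (φ γ x - φ δ x) :=
    finsum_comp_equiv (f := fun γ : G => χ (f γ (bas x)) * (φ γ x - φ δ x)) (Equiv.mulRight δ)
  have hs1 : (Function.support fun γ : G => χ (f γ (bas x)) * φ γ x).Finite :=
    hfin.subset fun γ hγ => left_ne_zero_of_mul hγ
  have hs2 : (Function.support fun γ : G => χ (f γ (bas x)) * φ δ x).Finite :=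
    hfin.subset fun γ hγ => left_ne_zero_of_mul hγ
  calc sumf f χ φ (T.F δ x) = ∑ᶠ γ : G, χ (f γ (bas x)) * (φ γ x - φ δ x) := by
        rw [← h4]
        exact finsum_congr h3
    _ = ∑ᶠ γ : G, (χ (f γ (bas x)) * φ γ x - χ (f γ (bas x)) * φ δ x) := finsum_congr fun γ => by ring
    _ = ∑ᶠ γ : G, χ (f γ (bas x)) * φ γ x - ∑ᶠ γ : G, χ (f γ (bas x)) * φ δ x := finsum_sub_distrib hs1 hs2
    _ = sumf f χ φ x - φ δ x := by
        rw [← finsum_mul, hone, one_mul]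
        rfl

theorem sumf_tr {v : κ → ℂ} {x : ι ⊕ κ → ℂ} (hφ : ∀ γ : G, φ γ (T.tr v x) = φ γ x) : sumf f χ φ (T.tr v x) = sumf f χ φ x := by
  unfold sumf
  refine finsum_congr fun γ => ?_
  have h : bas (T.tr v x) = bas x := bas_add_pt x _
  rw [h, hφ γ]

end TRed
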