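import Pool.Agent.Lib.MP_464db4_gt.TR.Glue

/-!
# TR-Scal: the scalar curvature of the glued form

As in KT/Scal.lean and YT/ScalM.lean: `(glueR gm β' x).det = (hv gm (bas x)).det * (β' (bas x)).det` (`glueR_eq`, `det_glue`), so
`logdet (glueR gm β') x = ldm (hv gm) (bas x) + logdet β' (bas x)`.  The derivatives in the directions of the fibre vanish (`dz_bas_inr`, `dzbar_bas_inr`), those in the directions of the base are
`dz i (dzbar j (ldm (hv gm) + logdet β'))` (`dz_bas_inl`, `dzbar_bas_inl`; smoothness `ldm_smoothR`, `logdet_smooth`), the block `11` of the inverse is `β'⁻¹` (`inv_glue`).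
-/

namespace TRed

open Complex Matrix MeasureTheory YT
open scoped ContDiff ComplexConjugate ComplexOrder

variable {ι κ : Type} [Fintype ι] [DecidableEq ι] [Fintype κ] [DecidableEq κ] {G : Type} [Group G] {D : Set (ι → ℂ)}
  {f : G → (ι → ℂ) → (ι → ℂ)} {T : TorusFamily κ D f} {gm : (ι ⊕ κ → ℂ) → Matrix (ι ⊕ κ) (ι ⊕ κ) ℂ} {β' : (ι → ℂ) → Matrix ι ι ℂ}

theorem Scal_logdet (hD : IsOpen D) (hg : IsKahler (tot κ D) T.total gm) (hf : FibreFlat T gm) (hβ : IsKahler D (Set.range f) β')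
    {x : ι ⊕ κ → ℂ} (hx : x ∈ tot κ D) : logdet (glueR gm β') x = ldm (hv gm) (bas x) + logdet β' (bas x) := by
  have hb : bas x ∈ D := hx
  have hh : (hv gm (bas x)).PosDef := hv_posDefR hg hb
  have e2 : (glueR gm β' x).det = (hv gm (bas x)).det * (β' (bas x)).det := by
    rw [glueR_eq hD hg hf hx]
    exact det_glue hh
  obtain ⟨p1, p2⟩ := scalm_det hh
  obtain ⟨q1, q2⟩ := scalm_det (hβ.pos _ hb)
  unfold logdet ldm
  rw [e2, Complex.mul_re, p2, q2, mul_zero, sub_zero, Real.log_mul p1.ne' q1.ne', Complex.ofReal_add]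

theorem scal_glueR (hD : IsOpen D) (hg : IsKahler (tot κ D) T.total gm) (hf : FibreFlat T gm) (hβ : IsKahler D (Set.range f) β')
    {x : ι ⊕ κ → ℂ} (hx : x ∈ tot κ D) : scal (glueR gm β') x = twscal gm β' (bas x) := by
  have hb : bas x ∈ D := hx
  have hU : IsOpen (tot κ D) := isOpen_tot hD
  have hlog : ∀ y ∈ tot κ D, logdet (glueR gm β') y = (fun b => ldm (hv gm) b + logdet β' b) (bas y) :=
    fun y hy => Scal_logdet hD hg hf hβ hy
  have hs : ContDiffOn ℝ ∞ (logdet β') D := logdet_smooth hβ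
  have hs' : ContDiffOn ℝ ∞ (ldm (hv gm)) D := ldm_smoothR (hv_smoothR hg) fun b hb => hv_posDefR hg hb
  have hd : ∀ b ∈ D, DifferentiableAt ℝ (logdet β') b := fun b hb => asm_diff hD hs hb
  have hd' : ∀ b ∈ D, DifferentiableAt ℝ (ldm (hv gm)) b := fun b hb => asm_diff hD hs' hb
  have hdc : ∀ b ∈ D, DifferentiableAt ℝ (fun b => ldm (hv gm) b + logdet β' b) b := fun b hb => (hd' b hb).add (hd b hb)
  have hd2 : ∀ j, DifferentiableAt ℝ (fun b => dzbar j (logdet β') b) (bas x) := fun j =>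
    asm_diff hD (dzbar_contDiffOn hD hs j) hb
  have hd2' : ∀ j, DifferentiableAt ℝ (fun b => dzbar j (ldm (hv gm)) b) (bas x) := fun j =>
    asm_diff hD (dzbar_contDiffOn hD hs' j) hb
  have hd3 : ∀ j, DifferentiableAt ℝ (fun b => dzbar j (ldm (hv gm)) b + dzbar j (logdet β') b) (bas x) := fun j =>
    (hd2' j).add (hd2 j)
  have a1 : ∀ j : ι, ∀ b ∈ D, dzbar j (fun b => ldm (hv gm) b + logdet β' b) b =
      dzbar j (ldm (hv gm)) b + dzbar j (logdet β') b := by
    intro j b hb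
    rw [dzbar_add j (hd' b hb) (hd b hb)]
  have b1 : ∀ j : ι, ∀ y ∈ tot κ D, dzbar (Sum.inl j) (logdet (glueR gm β')) y =
      (fun b => dzbar j (ldm (hv gm)) b + dzbar j (logdet β') b) (bas y) := by
    intro j y hy
    rw [dzbar_congr_on hU (h := fun y => (fun b => ldm (hv gm) b + logdet β' b) (bas y)) hlog hy, dzbar_bas_inl (hdc _ hy), a1 j _ hy]
  have b2 : ∀ k : κ, ∀ y ∈ tot κ D, dzbar (Sum.inr k) (logdet (glueR gm β')) y = 0 := by
    intro k y hy
    rw [dzbar_congr_on hU (h := fun y => (fun b => ldm (hv gm) b + logdet β' b) (bas y)) hlog hy, dzbar_bas_inr (hdc _ hy)]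
  have c1 : ∀ i j : ι, dz (Sum.inl i) (fun y => dzbar (Sum.inl j) (logdet (glueR gm β')) y) x =
      dz i (fun b => dzbar j (ldm (hv gm)) b) (bas x) + dz i (fun b => dzbar j (logdet β') b) (bas x) := by
    intro i j
    rw [dz_congr_on hU (b1 j) hx, dz_bas_inl (hd3 j), dz_add i (hd2' j) (hd2 j)]
  have c2 : ∀ (k : κ) (j : ι), dz (Sum.inr k) (fun y => dzbar (Sum.inl j) (logdet (glueR gm β')) y) x = 0 := by
    intro k j
    rw [dz_congr_on hU (b1 j) hx, dz_bas_inr (hd3 j)]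
  have c3 : ∀ (i : ι ⊕ κ) (k : κ), dz i (fun y => dzbar (Sum.inr k) (logdet (glueR gm β')) y) x = 0 := by
    intro i k
    rw [dz_congr_on hU (h := fun _ => 0) (b2 k) hx, dz_const]
  have hh : (hv gm (bas x)).PosDef := hv_posDefR hg hb
  have e1 : ∀ i j : ι, (glueR gm β' x)⁻¹ (Sum.inl j) (Sum.inl i) = (β' (bas x))⁻¹ j i := by
    intro i j
    rw [glueR_eq hD hg hf hx]
    have := inv_glue (Q := (gm x).toBlocks₁₂) (hβ.pos _ hb) hh
    exact congrFun (congrFun this j) i
  unfold twscal scal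
  simp only [Fintype.sum_sum_type, c1, c2, c3, e1, mul_zero, Finset.sum_const_zero, add_zero, mul_add, Finset.sum_add_distrib]
  ring

theorem scal_congrR {ν : Type} [Fintype ν] [DecidableEq ν] {U : Set (ν → ℂ)} (hU : IsOpen U) {g g' : (ν → ℂ) → Matrix ν ν ℂ} (h : ∀ x ∈ U, g x = g' x) {x : ν → ℂ}
    (hx : x ∈ U) : scal g x = scal g' x := by
  have h1 : ∀ y ∈ U, logdet g y = logdet g' y := by
    intro y hy
    unfold logdet
    rw [h y hy]
  have h2 : ∀ j, ∀ y ∈ U, dzbar j (logdet g) y = dzbar j (logdet g') y := fun j y hy => dzbar_congr_on hU h1 hy j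
  have h3 : ∀ i j, dz i (fun y => dzbar j (logdet g) y) x = dz i (fun y => dzbar j (logdet g') y) x :=
    fun i j => dz_congr_on hU (h2 j) hx i
  unfold scal
  simp only [h x hx, h3]

/-- The scalar curvature of a flat form. -/
theorem scal_flat (hB : CompactBase D f) (hg : IsKahler (tot κ D) T.total gm) (hf : FibreFlat T gm) {x : ι ⊕ κ → ℂ} (hx : x ∈ tot κ D) :
    scal gm x = twscal gm (sch gm) (bas x) := by
  have h1 : glueR gm (sch gm) = gm := funext fun x => glueR_self gm x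
  have h2 := scal_glueR hB.isOpen hg hf (sch_isKahler hB hg hf) hx
  rwa [h1] at h2

/-- `twscal` depends only on the vertical block. -/
theorem twscal_congr (hD : IsOpen D) {gm g' : (ι ⊕ κ → ℂ) → Matrix (ι ⊕ κ) (ι ⊕ κ) ℂ} (h : ∀ b ∈ D, hv g' b = hv gm b) {b : ι → ℂ} (hb : b ∈ D) :
    twscal g' β' b = twscal gm β' b := by
  have h1 : ∀ y ∈ D, ldm (hv g') y = ldm (hv gm) y := by
    intro y hy
    unfold ldm
    rw [h y hy]
  have h2 : ∀ j, ∀ y ∈ D, dzbar j (ldm (hv g')) y = dzbar j (ldm (hv gm)) y := fun j y hy => dzbar_congr_on hD h1 hy j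
  have h3 : ∀ i j, dz i (fun y => dzbar j (ldm (hv g')) y) b = dz i (fun y => dzbar j (ldm (hv gm)) y) b :=
    fun i j => dz_congr_on hD (h2 j) hb i
  unfold twscal
  simp only [h3]

end TRed
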