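import Pool.Agent.Lib.MP_464db4_gt.TR.Geo
import Pool.Agent.Lib.MP_464db4_gt.TR.GeoF
import Pool.Agent.Lib.MP_464db4_gt.KG.Nat
import Pool.Agent.Lib.MP_464db4_gt.YT.ScalM
import Pool.Agent.Lib.MP_464db4_gt.YT.ExB
import Pool.Agent.Lib.MP_464db4_gt.TR.Calc

/-!
# TR-Str: the blocks of a form which is flat along the fibres
-/

namespace TRed

open Complex Matrix MeasureTheory YT
open scoped ContDiff ComplexConjugate ComplexOrder

variable {ι κ : Type} [Fintype ι] [DecidableEq ι] [Fintype κ] [DecidableEq κ] {G : Type} [Group G] {D : Set (ι → ℂ)}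
  {f : G → (ι → ℂ) → (ι → ℂ)} {T : TorusFamily κ D f} {gm : (ι ⊕ κ → ℂ) → Matrix (ι ⊕ κ) (ι ⊕ κ) ℂ} {S : Set ((ι ⊕ κ → ℂ) → (ι ⊕ κ → ℂ))} {b : ι → ℂ}

/-- The vector `v` with `per b v = z`. -/
noncomputable def pinv (T : TorusFamily κ D f) (b : ι → ℂ) (z : κ → ℂ) : κ → ℂ := Function.invFun (T.per b) z

theorem per_pinv (hb : b ∈ D) (z : κ → ℂ) : T.per b (pinv T b z) = z := by
  exact Function.rightInverse_invFun (T.bij b hb).2 z

theorem pinv_per (hb : b ∈ D) (v : κ → ℂ) : pinv T b (T.per b v) = v := by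
  exact Function.leftInverse_invFun (T.bij b hb).1 v

theorem pinv_add (hb : b ∈ D) (z w : κ → ℂ) : pinv T b (z + w) = pinv T b z + pinv T b w := by
  apply (T.bij b hb).1
  show T.per b (pinv T b (z + w)) = T.per b (pinv T b z + pinv T b w)
  rw [per_add, per_pinv hb, per_pinv hb, per_pinv hb]

theorem pinv_smul (hb : b ∈ D) (s : ℝ) (z : κ → ℂ) : pinv T b (s • z) = s • pinv T b z := by
  apply (T.bij b hb).1
  show T.per b (pinv T b (s • z)) = T.per b (s • pinv T b z)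
  rw [per_smul, per_pinv hb, per_pinv hb]
  ext k
  simp

/-- The derivative of the period map in the direction of the base, at the point `z` of the fibre. -/
noncomputable def kk (T : TorusFamily κ D f) (b : ι → ℂ) (z : κ → ℂ) : Matrix κ ι ℂ := Matrix.of fun k i => dper T b (pinv T b z) k i

theorem kk_add (hD : IsOpen D) (hb : b ∈ D) (z w : κ → ℂ) : kk T b (z + w) = kk T b z + kk T b w := by
  ext k i
  show dper T b (pinv T b (z + w)) k i = dper T b (pinv T b z) k i + dper T b (pinv T b w) k i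
  rw [pinv_add hb, dper_add T hD hb]

theorem kk_smul (hD : IsOpen D) (hb : b ∈ D) (s : ℝ) (z : κ → ℂ) : kk T b (s • z) = ((s : ℝ) : ℂ) • kk T b z := by
  ext k i
  show dper T b (pinv T b (s • z)) k i = (s : ℂ) * dper T b (pinv T b z) k i
  rw [pinv_smul hb, dper_smul T hD hb]

theorem tr_pinv (hb : b ∈ D) (z : κ → ℂ) : T.tr (pinv T b z) (pt b 0) = pt b z := by
  show pt b 0 + pt 0 (T.per (bas (pt b (0 : κ → ℂ))) (pinv T b z)) = pt b z
  rw [bas_pt, per_pinv hb, ← pt_add, add_zero, zero_add]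

/-- the invariance under the translation which moves `(b,0)` to `(b,z)` -/
private theorem flat_at (hD : IsOpen D) (hf : FibreFlat T gm) (hb : b ∈ D) (z : κ → ℂ) :
    (fromBlocks 1 0 (kk T b z) 1)ᵀ * gm (pt b z) * mconj (fromBlocks 1 0 (kk T b z) 1) = gm (pt b 0) := by
  have h1 := hf (pinv T b z) (pt b 0) (pt_mem_tot hb 0)
  rw [jac_tr T hD _ (pt_mem_tot hb 0), tr_pinv hb, bas_pt] at h1
  exact h1

private theorem mconj_one {α : Type} [DecidableEq α] : mconj (1 : Matrix α α ℂ) = 1 := by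
  unfold mconj
  exact Matrix.map_one _ (map_zero _) (map_one _)

private theorem blocks (K : Matrix κ ι ℂ) {M N : Matrix (ι ⊕ κ) (ι ⊕ κ) ℂ} (hM : M.IsHermitian)
    (h : (fromBlocks 1 0 K 1)ᵀ * M * mconj (fromBlocks 1 0 K 1) = N) :
    M.toBlocks₂₂ = N.toBlocks₂₂ ∧ M.toBlocks₁₂ + Kᵀ * M.toBlocks₂₂ = N.toBlocks₁₂ ∧
      M.toBlocks₁₁ + Kᵀ * (M.toBlocks₁₂)ᴴ + (M.toBlocks₁₂ + Kᵀ * M.toBlocks₂₂) * mconj K = N.toBlocks₁₁ := by
  have h1 := h
  rw [eq_fromBlocks hM, asm_mconj, fromBlocks_transpose, fromBlocks_multiply, fromBlocks_multiply, mconj_one, mconj_one] at h1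
  simp only [Matrix.transpose_one, Matrix.transpose_zero, Matrix.one_mul, Matrix.mul_one, Matrix.zero_mul, Matrix.mul_zero, zero_add,
    add_zero] at h1
  rw [← h1]
  simp only [toBlocks_fromBlocks₁₁, toBlocks_fromBlocks₁₂, toBlocks_fromBlocks₂₂]
  exact ⟨trivial, trivial, trivial⟩

/-- The mixed block at the points `(b,0)`. -/
noncomputable def qb (gm : (ι ⊕ κ → ℂ) → Matrix (ι ⊕ κ) (ι ⊕ κ) ℂ) (b : ι → ℂ) : Matrix ι κ ℂ := (gm (pt b 0)).toBlocks₁₂

/-- The block of the base directions at the points `(b,0)`. -/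
noncomputable def pb (gm : (ι ⊕ κ → ℂ) → Matrix (ι ⊕ κ) (ι ⊕ κ) ℂ) (b : ι → ℂ) : Matrix ι ι ℂ := (gm (pt b 0)).toBlocks₁₁

theorem flat_h (hD : IsOpen D) (hg : IsKahler (tot κ D) S gm) (hf : FibreFlat T gm) (hb : b ∈ D) (z : κ → ℂ) :
    (gm (pt b z)).toBlocks₂₂ = hv gm b := by
  exact (blocks (kk T b z) (hg.pos _ (pt_mem_tot hb z)).isHermitian (flat_at hD hf hb z)).1

theorem flat_q (hD : IsOpen D) (hg : IsKahler (tot κ D) S gm) (hf : FibreFlat T gm) (hb : b ∈ D) (z : κ → ℂ) :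
    (gm (pt b z)).toBlocks₁₂ = qb gm b - (kk T b z)ᵀ * hv gm b := by
  have h1 := (blocks (kk T b z) (hg.pos _ (pt_mem_tot hb z)).isHermitian (flat_at hD hf hb z)).2.1
  rw [flat_h hD hg hf hb z] at h1
  exact eq_sub_of_add_eq h1

theorem flat_p (hD : IsOpen D) (hg : IsKahler (tot κ D) S gm) (hf : FibreFlat T gm) (hb : b ∈ D) (z : κ → ℂ) :
    (gm (pt b z)).toBlocks₁₁ = pb gm b - (kk T b z)ᵀ * (qb gm b)ᴴ - qb gm b * mconj (kk T b z) +
      (kk T b z)ᵀ * hv gm b * mconj (kk T b z) := by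
  have h1 := (blocks (kk T b z) (hg.pos _ (pt_mem_tot hb z)).isHermitian (flat_at hD hf hb z)).2.2
  have hh : (hv gm b)ᴴ = hv gm b := (vert_posDef (hg.pos _ (pt_mem_tot hb (0 : κ → ℂ)))).isHermitian
  rw [flat_h hD hg hf hb z, flat_q hD hg hf hb z, sub_add_cancel] at h1
  have h2 : (qb gm b - (kk T b z)ᵀ * hv gm b)ᴴ = (qb gm b)ᴴ - hv gm b * mconj (kk T b z) := by
    rw [Matrix.conjTranspose_sub, Matrix.conjTranspose_mul, hh]
    rfl
  rw [h2, Matrix.mul_sub] at h1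
  have h3 : (gm (pt b z)).toBlocks₁₁ = pb gm b - ((kk T b z)ᵀ * (qb gm b)ᴴ - (kk T b z)ᵀ * (hv gm b * mconj (kk T b z))) -
      qb gm b * mconj (kk T b z) := by
    rw [← show _ = pb gm b from h1]
    abel
  rw [h3, ← Matrix.mul_assoc]
  abel

theorem hv_posDefR (hg : IsKahler (tot κ D) S gm) (hb : b ∈ D) : (hv gm b).PosDef := by
  exact vert_posDef (hg.pos _ (pt_mem_tot hb (0 : κ → ℂ)))

theorem hv_smoothR (hg : IsKahler (tot κ D) S gm) (k l : κ) : ContDiffOn ℝ ∞ (fun b => hv gm b k l) D := by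
  exact contDiffOn_pt (f := fun x => gm x (Sum.inr k) (Sum.inr l)) (hg.smooth _ _)

theorem qb_smooth (hg : IsKahler (tot κ D) S gm) (i : ι) (l : κ) : ContDiffOn ℝ ∞ (fun b => qb gm b i l) D := by
  exact contDiffOn_pt (f := fun x => gm x (Sum.inl i) (Sum.inr l)) (hg.smooth _ _)

theorem pb_smooth (hg : IsKahler (tot κ D) S gm) (i j : ι) : ContDiffOn ℝ ∞ (fun b => pb gm b i j) D := by
  exact contDiffOn_pt (f := fun x => gm x (Sum.inl i) (Sum.inl j)) (hg.smooth _ _)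

/-- The Schur complement at every point of the total space. -/
theorem sch_at (hD : IsOpen D) (hg : IsKahler (tot κ D) S gm) (hf : FibreFlat T gm) {x : ι ⊕ κ → ℂ} (hx : x ∈ tot κ D) :
    (gm x).toBlocks₁₁ - (gm x).toBlocks₁₂ * (hv gm (bas x))⁻¹ * ((gm x).toBlocks₁₂)ᴴ = sch gm (bas x) := by
  have hb : bas x ∈ D := hx
  have h1 := flat_at hD hf hb (fib x)
  rw [pt_bas_fib] at h1
  have h2 := flat_h hD hg hf hb (fib x)
  rw [pt_bas_fib] at h2
  have h3 : (fromBlocks 1 0 (kk T (bas x) (fib x)) 1)ᵀ * fromBlocks (gm x).toBlocks₁₁ (gm x).toBlocks₁₂ ((gm x).toBlocks₁₂)ᴴ (hv gm (bas x)) *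
      mconj (fromBlocks 1 0 (kk T (bas x) (fib x)) 1) =
      fromBlocks (gm (pt (bas x) 0)).toBlocks₁₁ (gm (pt (bas x) 0)).toBlocks₁₂ ((gm (pt (bas x) 0)).toBlocks₁₂)ᴴ (hv gm (bas x)) := by
    rw [← h2, ← eq_fromBlocks (hg.pos x hx).isHermitian, h1, h2]
    exact eq_fromBlocks (hg.pos _ (pt_mem_tot hb (0 : κ → ℂ))).isHermitian
  have h4 := schur_cov (vert_posDef (hg.pos _ (pt_mem_tot hb (0 : κ → ℂ)))) h3
  rw [Matrix.transpose_one, Matrix.one_mul, mconj_one, Matrix.mul_one] at h4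
  exact h4

/-- The form in terms of the Schur complement. -/
theorem blk_eqR (hD : IsOpen D) (hg : IsKahler (tot κ D) S gm) (hf : FibreFlat T gm) {x : ι ⊕ κ → ℂ} (hx : x ∈ tot κ D) :
    gm x = fromBlocks (sch gm (bas x) + (gm x).toBlocks₁₂ * (hv gm (bas x))⁻¹ * ((gm x).toBlocks₁₂)ᴴ) (gm x).toBlocks₁₂ ((gm x).toBlocks₁₂)ᴴ
      (hv gm (bas x)) := by
  have hb : bas x ∈ D := hx
  have h2 := flat_h hD hg hf hb (fib x)
  rw [pt_bas_fib] at h2
  rw [← sch_at hD hg hf hx, sub_add_cancel, ← h2]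
  exact eq_fromBlocks (hg.pos x hx).isHermitian

end TRed
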