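import Pool.Agent.Lib.MP_464db4_gt.TR.One
import Pool.Agent.Lib.MP_464db4_gt.TR.HomB

/-!
# TR-Zero: the average of the primitive `kp μ g` is zero
-/

namespace TRed

open Complex Matrix MeasureTheory YT
open scoped ContDiff ComplexConjugate ComplexOrder

variable {ι κ : Type} [Fintype ι] [DecidableEq ι] [Fintype κ] [DecidableEq κ] {G : Type} [Group G] {D : Set (ι → ℂ)} {f : G → (ι → ℂ) → (ι → ℂ)} {T : TorusFamily κ D f}
  {g : (ι ⊕ κ → ℂ) → Matrix (ι ⊕ κ) (ι ⊕ κ) ℂ} {μ : Measure (κ → ℂ)}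

private theorem kz_ae (hμ : IsMean T.Λ μ) {R : ℝ} (hR : ∀ᵐ a ∂μ, ‖a‖ ≤ R) :
    ∀ᵐ p ∂(muI μ), p ∈ Set.Icc (0 : ℝ) 1 ×ˢ Metric.closedBall (0 : κ → ℂ) R := by
  have := hμ.prob
  unfold muI
  filter_upwards [Measure.quasiMeasurePreserving_fst.ae (ae_restrict_mem (μ := (volume : Measure ℝ))
    (measurableSet_Icc (a := (0 : ℝ)) (b := 1))), Measure.quasiMeasurePreserving_snd.ae hR] with p h1 h2
  exact ⟨h1, by rwa [mem_closedBall_zero_iff]⟩

private theorem kz_fin (hμ : IsMean T.Λ μ) : IsFiniteMeasure (muI μ) := by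
  have := hμ.prob
  unfold muI
  infer_instance

private theorem kz_int (hμ : IsMean T.Λ μ) {u : ℝ × (κ → ℂ) → ℂ} (hu : Continuous u) : Integrable u (muI μ) := by
  have := hμ.prob
  have := kz_fin hμ
  obtain ⟨R, hR⟩ := hμ.bdd
  obtain ⟨C, hC⟩ := ((isCompact_Icc (a := (0 : ℝ)) (b := 1)).prod
    (isCompact_closedBall (0 : κ → ℂ) R)).exists_bound_of_continuousOn hu.continuousOn
  refine Integrable.of_bound hu.aestronglyMeasurable C ?_
  filter_upwards [kz_ae hμ hR] with p hp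
  exact hC p hp

private theorem kz_int2 (hμ : IsMean T.Λ μ) {u : (κ → ℂ) × (ℝ × (κ → ℂ)) → ℂ} (hu : Continuous u) :
    Integrable u (μ.prod (muI μ)) := by
  have := hμ.prob
  have := kz_fin hμ
  obtain ⟨R, hR⟩ := hμ.bdd
  obtain ⟨C, hC⟩ := ((isCompact_closedBall (0 : κ → ℂ) R).prod ((isCompact_Icc (a := (0 : ℝ)) (b := 1)).prod
    (isCompact_closedBall (0 : κ → ℂ) R))).exists_bound_of_continuousOn hu.continuousOn
  refine Integrable.of_bound hu.aestronglyMeasurable C ?_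
  filter_upwards [Measure.quasiMeasurePreserving_fst.ae hR, Measure.quasiMeasurePreserving_snd.ae (kz_ae hμ hR)] with q h1 h2
  exact hC q ⟨by rwa [mem_closedBall_zero_iff], h2⟩

private theorem kz_per_cont (b : ι → ℂ) (l : κ) : Continuous (fun v : κ → ℂ => T.per b v l) := by
  have h : (fun v : κ → ℂ => T.per b v l) = fun v => (∑ k, T.Z₁ b l k * (((v k).re : ℝ) : ℂ)) + ∑ k, T.Z₂ b l k * (((v k).im : ℝ) : ℂ) := by
    funext v
    rfl
  rw [h]
  refine Continuous.add (continuous_finsetSum _ fun k _ => ?_) (continuous_finsetSum _ fun k _ => ?_)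
  · exact continuous_const.mul (Complex.continuous_ofReal.comp (Complex.continuous_re.comp (continuous_apply k)))
  · exact continuous_const.mul (Complex.continuous_ofReal.comp (Complex.continuous_im.comp (continuous_apply k)))

private theorem kz_per_zero (hμ : IsMean T.Λ μ) (hc : ∀ k, ∫ v, v k ∂μ = 0) (b : ι → ℂ) (l : κ) :
    ∫ p, conj (T.per b p.2 l) ∂(muI μ) = 0 := by
  have := hμ.prob
  rw [integral_conj]
  unfold muI
  have h := integral_fun_snd (μ := volume.restrict (Set.Icc (0 : ℝ) 1)) (ν := μ) (fun v : κ → ℂ => T.per b v l)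
  rw [h, mean_per hμ hc b l]
  simp

private theorem kz_cont (hD : IsOpen D) (hg : IsKahler (tot κ D) T.total g) {x : ι ⊕ κ → ℂ} (hx : x ∈ tot κ D) (i : ι ⊕ κ) :
    Continuous (fun q : (κ → ℂ) × (ℝ × (κ → ℂ)) => ct T q.2.2 (pbt T (q.1 + q.2.1 • q.2.2) g) x i) := by
  have h1 : Continuous (fun q : (κ → ℂ) × (ℝ × (κ → ℂ)) => q.1 + q.2.1 • q.2.2) :=
    continuous_fst.add ((continuous_fst.comp continuous_snd).smul (continuous_snd.comp continuous_snd))
  unfold ct
  refine continuous_const.mul (continuous_finsetSum _ fun l _ => ?_)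
  exact ((pbt_cont hD hg hx i (Sum.inr l)).comp h1).mul
    (Complex.continuous_conj.comp ((kz_per_cont (T := T) (bas x) l).comp (continuous_snd.comp continuous_snd)))

private theorem kz_cont0 (hD : IsOpen D) (hg : IsKahler (tot κ D) T.total g) {x : ι ⊕ κ → ℂ} (hx : x ∈ tot κ D) (i : ι ⊕ κ) :
    Continuous (fun p : ℝ × (κ → ℂ) => ct T p.2 (pbt T (p.1 • p.2) g) x i) := by
  have h := (kz_cont hD hg hx i).comp (continuous_const.prodMk continuous_id : Continuous (fun p : ℝ × (κ → ℂ) => ((0 : κ → ℂ), p)))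
  refine h.congr fun p => ?_
  simp

private theorem kz_pull (hD : IsOpen D) (hμ : IsMean T.Λ μ) (hg : IsKahler (tot κ D) T.total g) {x : ι ⊕ κ → ℂ} (hx : x ∈ tot κ D)
    (v : κ → ℂ) (i : ι ⊕ κ) : pbt1 T v (kp T μ g) x i = ∫ p, ct T p.2 (pbt T (v + p.1 • p.2) g) x i ∂(muI μ) := by
  unfold pbt1 kp
  have h1 : ∀ k, (∫ p, ct T p.2 (pbt T (p.1 • p.2) g) (T.tr v x) k ∂(muI μ)) * trJ T (bas x) v k i =
      ∫ p, ct T p.2 (pbt T (p.1 • p.2) g) (T.tr v x) k * trJ T (bas x) v k i ∂(muI μ) := fun k => (integral_mul_const _ _).symm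
  rw [Finset.sum_congr rfl fun k _ => h1 k]
  refine Eq.trans (integral_finsetSum Finset.univ fun k _ => (kz_int hμ (kz_cont0 hD hg (tr_mem T v hx) k)).mul_const _).symm ?_
  refine integral_congr_ae (Filter.Eventually.of_forall fun p => ?_)
  simp only
  rw [ct_pbt]
  unfold ct
  rw [pbt_pbt hD v (p.1 • p.2) hx]

private theorem kz_inner (hD : IsOpen D) (hμ : IsMean T.Λ μ) (hg : IsKahler (tot κ D) T.total g) {x : ι ⊕ κ → ℂ} (hx : x ∈ tot κ D)
    (p : ℝ × (κ → ℂ)) (i : ι ⊕ κ) : ∫ v, ct T p.2 (pbt T (v + p.1 • p.2) g) x i ∂μ =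
      -I * ∑ l, kavg T μ g x i (Sum.inr l) * conj (T.per (bas x) p.2 l) := by
  have hc : ∀ l : κ, Continuous (fun v => pbt T v g x i (Sum.inr l)) := fun l => pbt_cont hD hg hx i (Sum.inr l)
  have hs : ∀ l : κ, ∫ v, pbt T (v + p.1 • p.2) g x i (Sum.inr l) ∂μ = kavg T μ g x i (Sum.inr l) := fun l =>
    mean_shift hμ (hc l) (fun v hv a => by rw [pbt_period hD hg a hv hx]) (p.1 • p.2)
  unfold ct
  rw [integral_const_mul]
  congr 1
  refine Eq.trans (integral_finsetSum Finset.univ fun l _ => hμ.integrable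
    (((hc l).comp (continuous_id.add continuous_const)).mul continuous_const)) ?_
  refine Finset.sum_congr rfl fun l _ => ?_
  rw [← hs l]
  exact integral_mul_const _ _

theorem kp_isPer (hD : IsOpen D) (hμ : IsMean T.Λ μ) (hg : IsKahler (tot κ D) T.total g) : IsPer T (kp T μ g) := by
  have h := kp_isPrimitive hD hμ hg
  refine ⟨kp_smooth hD hμ hg, fun v hv x hx => ?_⟩
  funext i
  have h1 := h.inv (T.tr v) ⟨v, hv, rfl⟩ x hx i
  rw [jac_tr T hD v hx] at h1
  exact h1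

theorem kavg1_kp (hD : IsOpen D) (hμ : IsMean T.Λ μ) (hc : ∀ k, ∫ v, v k ∂μ = 0) (hg : IsKahler (tot κ D) T.total g) {x : ι ⊕ κ → ℂ}
    (hx : x ∈ tot κ D) : kavg1 T μ (kp T μ g) x = 0 := by
  have := hμ.prob
  have := kz_fin hμ
  funext i
  have hint : Integrable (Function.uncurry fun (v : κ → ℂ) (p : ℝ × (κ → ℂ)) => ct T p.2 (pbt T (v + p.1 • p.2) g) x i) (μ.prod (muI μ)) :=
    kz_int2 hμ (kz_cont hD hg hx i)
  calc kavg1 T μ (kp T μ g) x i = ∫ v, ∫ p, ct T p.2 (pbt T (v + p.1 • p.2) g) x i ∂(muI μ) ∂μ :=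
        integral_congr_ae (Filter.Eventually.of_forall fun v => kz_pull hD hμ hg hx v i)
    _ = ∫ p, ∫ v, ct T p.2 (pbt T (v + p.1 • p.2) g) x i ∂μ ∂(muI μ) := integral_integral_swap hint
    _ = ∫ p, -I * ∑ l, kavg T μ g x i (Sum.inr l) * conj (T.per (bas x) p.2 l) ∂(muI μ) :=
        integral_congr_ae (Filter.Eventually.of_forall fun p => kz_inner hD hμ hg hx p i)
    _ = -I * ∑ l, kavg T μ g x i (Sum.inr l) * ∫ p, conj (T.per (bas x) p.2 l) ∂(muI μ) := by
        rw [integral_const_mul]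
        congr 1
        refine Eq.trans (integral_finsetSum Finset.univ fun l _ => (kz_int hμ (continuous_const.mul
          (Complex.continuous_conj.comp ((kz_per_cont (T := T) (bas x) l).comp continuous_snd))))) ?_
        exact Finset.sum_congr rfl fun l _ => integral_const_mul _ _
    _ = 0 := by
        simp only [kz_per_zero hμ hc, mul_zero, Finset.sum_const_zero]

end TRed
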